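import Pool.Agent.N855.P17.Ar

/-!
# The parity law, odd discriminants prime to `17` (project P17, helper855)
-/

set_option autoImplicit false
set_option linter.unusedSectionVars false

open Finset

namespace Pool.Agent.N855.P17

open Pool.Agent.N972.P17 (Cm Cp Cme Cpe Cr Cre SS rr cc vec1 vec2 ip1 ip2 ls al nu LL Sx Sc Sr
  S_U1 S_U3 S_R S_PAR S_SxSc)
open Pool.Agent.N969.P15 (Qc Qe Ev V3)

theorem Ts_congr {l l' : ℕ → ℕ → ZMod 2} {T : Finset ℕ}
    (h : ∀ p ∈ T, ∀ q ∈ T, p ≠ q → l p q = l' p q) : Ts l T ↔ Ts l' T := by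
  have hL : ∀ p ∈ T, ∀ q ∈ T, Lm l T p q = Lm l' T p q := by
    intro p hp q hq
    unfold Lm
    split_ifs with hpq
    · exact sum_congr rfl fun r hr => h p hp r (mem_of_mem_erase hr) (ne_of_mem_erase hr).symm
    · exact h p hp q hq hpq
  unfold Ts
  constructor
  · intro h1 y h2
    exact h1 y fun p hp => by
      rw [← h2 p hp]
      exact sum_congr rfl fun q hq => by rw [hL p hp q hq]
  · intro h1 y h2
    exact h1 y fun p hp => by
      rw [← h2 p hp]
      exact sum_congr rfl fun q hq => by rw [hL p hp q hq]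

theorem star_odd (n : ℕ) {q : ℕ} (hq : q ≠ 2) :
    Pool.Agent.N972.P17.star n q = if q % 4 = 1 then (q : ℤ) else -q := by
  unfold Pool.Agent.N972.P17.star
  rw [if_neg hq]

theorem ls_eq (n n0 : ℕ) {q p : ℕ} (hq : q ≠ 2) : ls n q p = ls n0 q p := by
  unfold ls
  rw [star_odd n hq, star_odd n0 hq]

theorem ls_odd (n : ℕ) {q p : ℕ} (hp : p ≠ 2) : ls n q p =
    if jacobiSym (Pool.Agent.N972.P17.star n q) p = 1 then 0 else 1 := by
  unfold ls
  rw [if_neg hp]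

theorem al_odd (n : ℕ) {q : ℕ} (hq : q.Prime) (h2 : q ≠ 2) :
    al n q = if q % 4 = 1 then 0 else 1 := by
  unfold al
  rw [star_odd n h2]
  have := hq.pos
  split_ifs with h1 h3 h3
  · exfalso; omega
  · rfl
  · rfl
  · exfalso; omega

/-- quadratic reciprocity -/
theorem recip (n : ℕ) {p q : ℕ} (hp : p.Prime) (hq : q.Prime) (hp2 : p ≠ 2) (hq2 : q ≠ 2)
    (hpq : p ≠ q) : ls n q p + ls n p q = al n p * al n q := by
  rw [ls_odd n hp2, ls_odd n hq2, al_odd n hp hp2, al_odd n hq hq2, star_odd n hp2, star_odd n hq2]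
  have op : Odd p := hp.odd_of_ne_two hp2
  have oq : Odd q := hq.odd_of_ne_two hq2
  have hc : Int.gcd (p : ℤ) (q : ℕ) = 1 := by
    rw [Int.gcd_natCast_natCast]
    exact (Nat.coprime_primes hp hq).2 hpq
  have e11 : (1 : ZMod 2) + 1 = 0 := rfl
  have hx := jacobiSym.eq_one_or_neg_one hc
  have hp4 : p % 4 = 1 ∨ p % 4 = 3 := by
    have := Nat.odd_iff.1 op; omega
  have hq4 : q % 4 = 1 ∨ q % 4 = 3 := by
    have := Nat.odd_iff.1 oq; omega
  have n1 : ¬ ((-1 : ℤ) = 1) := by norm_num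
  rcases hp4 with h1 | h1
  · rcases hq4 with h2 | h2
    · rw [if_pos h1, if_pos h2, if_pos h1, if_pos h2,
        ← jacobiSym.quadratic_reciprocity_one_mod_four h1 oq, zero_mul]
      exact two0 _
    · have h2' : ¬ q % 4 = 1 := by omega
      rw [if_pos h1, if_neg h2', if_pos h1, if_neg h2', jacobiSym.neg _ op,
        ZMod.χ₄_nat_one_mod_four h1, one_mul,
        ← jacobiSym.quadratic_reciprocity_one_mod_four h1 oq, zero_mul]
      exact two0 _
  · have h1' : ¬ p % 4 = 1 := by omega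
    rcases hq4 with h2 | h2
    · rw [if_neg h1', if_pos h2, if_neg h1', if_pos h2, jacobiSym.neg _ oq,
        ZMod.χ₄_nat_one_mod_four h2, one_mul,
        jacobiSym.quadratic_reciprocity_one_mod_four h2 op, mul_zero]
      exact two0 _
    · have h2' : ¬ q % 4 = 1 := by omega
      rw [if_neg h1', if_neg h2', if_neg h1', if_neg h2', jacobiSym.neg _ op, jacobiSym.neg _ oq,
        ZMod.χ₄_nat_three_mod_four h1, ZMod.χ₄_nat_three_mod_four h2,
        jacobiSym.quadratic_reciprocity_three_mod_four h2 h1]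
      rcases hx with h | h
      · rw [h]
        norm_num
      · rw [h]
        norm_num

/-! ### the odd sets of primes -/

section odd

variable {Ω : Finset ℕ} (hΩ : ∀ p ∈ Ω, p.Prime)

theorem HZ_odd {T : Finset ℕ} (hT : ∀ p ∈ T, p.Prime) (h2 : 2 ∉ T) (h17 : 17 ∉ T)
    (hν : ∑ p ∈ T, nu p = 0) : rr (NN T) = 0 ∧ cc (NN T) = 0 :=
  no_vec ((jac17p hT h2 h17).2 hν)

theorem HR_odd (hR : S_R)
    (hTQ : ∀ n : ℕ, Squarefree n → n % 4 = 3 → (Ts (fun p q => ls n q p) n.primeFactors ↔ Qc n))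
    (n0 : ℕ) {T : Finset ℕ} (hT : ∀ p ∈ T, p.Prime) (h2 : 2 ∉ T) (h17 : 17 ∉ T)
    (ha : ∑ p ∈ T, al n0 p = 1) (hν : ∑ p ∈ T, nu p = 1) :
    ∃ g : ℤ, rr (NN T) = 2 ^ T.card * g ∧ (Odd g ↔ Ts (fun p q => ls n0 q p) T) := by
  have h4 := (mod3_iff n0 hT h2).2 ha
  have hsq := NN_sq hT
  have hcm : Cm (NN T) := ⟨hsq, h4, (jac17m hT h2 h17).2 hν⟩
  have hTs : Ts (fun p q => ls (NN T) q p) T ↔ Ts (fun p q => ls n0 q p) T :=
    Ts_congr fun p hp q hq _ => ls_eq _ _ fun h => h2 (h ▸ hq)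
  have hq := hTQ (NN T) hsq h4
  rw [NN_pf hT, hTs] at hq
  by_cases h3 : 3 < NN T
  · obtain ⟨g, hg1, hg2⟩ := hR (NN T) hcm h3
    rw [NN_pf hT] at hg1
    refine ⟨3 * g, by rw [hg1]; ring, ?_⟩
    rw [hq, ← hg2, Int.odd_mul]
    exact and_iff_right (by decide)
  · have h5 : NN T = 3 := by omega
    have hTe : T = {3} := by
      rw [← NN_pf hT, h5]
      exact Nat.Prime.primeFactors Nat.prime_three
    refine ⟨1, ?_, ?_⟩
    · rw [h5, hTe, card_singleton, Nat.cast_ofNat, three.1]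
      norm_num
    · refine iff_of_true odd_one ?_
      rw [hTe]
      intro y _ p hp q hq
      rw [mem_singleton.1 hp, mem_singleton.1 hq]

theorem HU1_odd (hU1 : S_U1) (n0 : ℕ) {P : Finset ℕ} (hP : ∀ p ∈ P, p.Prime) (h2 : 2 ∉ P)
    (h17 : 17 ∉ P) (hne : P.Nonempty) (ha : ∑ p ∈ P, al n0 p = 0) (hν : ∑ p ∈ P, nu p = 0) :
    (2 : ℤ) ^ (P.card + 1) ∣ ∑ B ∈ P.powerset,
      if ∑ p ∈ B, al n0 p = 1 then SS (NN B) (NN (P \ B)) else 0 := by
  have hcp : Cp (NN P) := ⟨NN_sq hP, (mod1_iff n0 hP h2).2 ha, (jac17p hP h2 h17).2 hν⟩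
  have h1 : 1 < NN P := by
    obtain ⟨p, hp⟩ := hne
    have h3 : p ∣ NN P := dvd_prod_of_mem _ hp
    exact lt_of_lt_of_le (hP p hp).one_lt (Nat.le_of_dvd (NN_pos hP) h3)
  have h3 := hU1 (NN P) hcp h1
  rw [NN_pf hP, sum_filter, div_sum hP] at h3
  rw [sum_congr rfl fun B hB => ?_]
  · exact h3
  · rw [mem_powerset] at hB
    have hB' : ∀ p ∈ B, p.Prime := fun p hp => hP p (hB hp)
    rw [NN_div hP hB]
    exact if_congr (mod3_iff n0 hB' fun h => h2 (hB h)).symm rfl rfl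

theorem HU3_odd (hU3 : S_U3) (n0 : ℕ) {P : Finset ℕ} (hP : ∀ p ∈ P, p.Prime) (h2 : 2 ∉ P)
    (h17 : 17 ∉ P) (h3P : 3 ∉ P) (hne : P.Nonempty) (ha : ∑ p ∈ P, al n0 p = 0)
    (hν : ∑ p ∈ P, nu p = 0) :
    (2 : ℤ) ^ (P.card + 2) ∣ ∑ B ∈ P.powerset, if ∑ p ∈ B, al n0 p = 0 then
      SS (NN (insert 3 B)) (NN (insert 3 (P \ B))) else - (rr (NN B) * rr (NN (P \ B))) := by
  have hcp : Cp (NN P) := ⟨NN_sq hP, (mod1_iff n0 hP h2).2 ha, (jac17p hP h2 h17).2 hν⟩
  have h1 : 1 < NN P := by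
    obtain ⟨p, hp⟩ := hne
    have h3 : p ∣ NN P := dvd_prod_of_mem _ hp
    exact lt_of_lt_of_le (hP p hp).one_lt (Nat.le_of_dvd (NN_pos hP) h3)
  have h3 : ¬ 3 ∣ NN P := by
    intro h
    apply h3P
    rw [← NN_pf hP, Nat.mem_primeFactors]
    exact ⟨Nat.prime_three, h, (NN_pos hP).ne'⟩
  have h4 := hU3 (NN P) hcp h1 h3
  rw [NN_pf hP, sum_filter, sum_filter, ← sum_sub_distrib, div_sum hP] at h4
  rw [sum_congr rfl fun B hB => ?_]
  · exact h4
  · rw [mem_powerset] at hB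
    have hB' : ∀ p ∈ B, p.Prime := fun p hp => hP p (hB hp)
    have h2B : 2 ∉ B := fun h => h2 (hB h)
    have h3B : 3 ∉ B := fun h => h3P (hB h)
    have h3B' : 3 ∉ P \ B := fun h => h3P (mem_sdiff.1 h).1
    rw [NN_div hP hB, NN_insert h3B, NN_insert h3B']
    rcases par_mod n0 hB' h2B with ⟨h5, h6⟩ | ⟨h5, h6⟩
    · rw [h5, h6, if_pos rfl, if_pos rfl, if_neg (by norm_num), sub_zero]
    · rw [h5, h6, if_neg (by decide), if_neg (by norm_num), if_pos rfl, zero_sub]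

end odd

theorem nu3 : nu 3 = 1 := by
  have h : jacobiSym 17 3 = -1 := by
    rw [jacobiSym.mod_left]
    have : (17 : ℤ) % (3 : ℕ) = 2 := by norm_num
    rw [this, jacobiSym.at_two (by decide)]
    rfl
  unfold nu
  rw [if_neg (by norm_num), if_neg]
  rw [h]
  norm_num

theorem al3 (n : ℕ) : al n 3 = 1 := by
  rw [al_odd n Nat.prime_three (by norm_num), if_neg (by norm_num)]

/-- the induction for odd discriminants: all the sets of odd primes different from `17` -/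
theorem par_odd (hU1 : S_U1) (hU3 : S_U3) (hR : S_R)
    (hTQ : ∀ n : ℕ, Squarefree n → n % 4 = 3 → (Ts (fun p q => ls n q p) n.primeFactors ↔ Qc n))
    (n0 : ℕ) {Ω : Finset ℕ} (hΩ : ∀ p ∈ Ω, p.Prime) (h2 : 2 ∉ Ω) (h17 : 17 ∉ Ω) (h3 : 3 ∈ Ω) :
    ∀ T ⊆ Ω, ∑ p ∈ T, al n0 p = 1 →
      Co (fun T => cc (NN T)) (FF Ω (fun p q => ls n0 q p) nu (al n0)) T := by
  have hcol : HC (fun p q => ls n0 q p) nu (al n0) Ω := by
    refine HC_rec nu fun p hp q hq hne => ?_
    exact recip n0 (hΩ p hp) (hΩ q hq) (fun h => h2 (h ▸ hp)) (fun h => h2 (h ▸ hq)) hne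
  have hN3 : NN {3} = 3 := prod_singleton _ _
  refine par_abs hcol h3 (al3 n0) nu3 (fun T => rr (NN T)) (fun T => cc (NN T))
    (fun B B' => SS (NN B) (NN B')) (fun B B' => SS_eq _ _) ?_ ?_ ?_ ?_ ?_ ?_
  · rw [hN3, Nat.cast_ofNat]; exact three.1
  · rw [hN3, Nat.cast_ofNat]; exact three.2
  · intro T hT _ hν
    exact HZ_odd (fun p hp => hΩ p (hT hp)) (fun h => h2 (hT h)) (fun h => h17 (hT h)) hν
  · intro T hT ha hν
    exact HR_odd hR hTQ n0 (fun p hp => hΩ p (hT hp)) (fun h => h2 (hT h)) (fun h => h17 (hT h))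
      ha hν
  · intro P hP hne ha hν
    exact HU1_odd hU1 n0 (fun p hp => hΩ p (hP hp)) (fun h => h2 (hP h)) (fun h => h17 (hP h))
      hne ha hν
  · intro P hP hne h3P ha hν
    exact HU3_odd hU3 n0 (fun p hp => hΩ p (hP hp)) (fun h => h2 (hP h)) (fun h => h17 (hP h))
      h3P hne ha hν

theorem Fs_Sx (n : ℕ) : Fs (fun p q => ls n q p) nu (al n) n.primeFactors ↔ Sx n := Iff.rfl

/-- **the parity law** with the uniform criterion -/
theorem par_x (hU1 : S_U1) (hU3 : S_U3) (hR : S_R)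
    (hTQ : ∀ n : ℕ, Squarefree n → n % 4 = 3 → (Ts (fun p q => ls n q p) n.primeFactors ↔ Qc n))
    {n : ℕ} (hn : Cm n) : ∃ y : ℤ, cc n = 2 ^ n.primeFactors.card * y ∧ (Odd y ↔ Sx n) := by
  obtain ⟨hsq, h4, h17⟩ := hn
  have hn0 : n ≠ 0 := hsq.ne_zero
  have h2n : 2 ∉ n.primeFactors := by
    intro h
    have := Nat.dvd_of_mem_primeFactors h
    omega
  have h17n : 17 ∉ n.primeFactors := by
    intro h
    have h5 := Nat.dvd_of_mem_primeFactors h
    have h6 : jacobiSym n 17 = 0 := by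
      rw [jacobiSym.eq_zero_iff_not_coprime]
      rw [Int.gcd_natCast_natCast]
      intro h7
      have := Nat.dvd_gcd h5 (dvd_refl 17)
      rw [h7] at this
      norm_num at this
    rw [h6] at h17
    norm_num at h17
  have h := par_odd hU1 hU3 hR hTQ n (Ω := insert 3 n.primeFactors) (by
    intro p hp
    rcases mem_insert.1 hp with rfl | hp
    · exact Nat.prime_three
    · exact Nat.prime_of_mem_primeFactors hp) (by
    rw [mem_insert]
    rintro (h | h)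
    · norm_num at h
    · exact h2n h) (by
    rw [mem_insert]
    rintro (h | h)
    · norm_num at h
    · exact h17n h) (mem_insert_self _ _) n.primeFactors (subset_insert _ _)
    ((mod3_iff n (fun p hp => Nat.prime_of_mem_primeFactors hp) h2n).1 (by
      have : NN n.primeFactors = n := Nat.prod_primeFactors_of_squarefree hsq
      rw [this]
      exact h4))
  obtain ⟨y, hy1, hy2⟩ := h
  have hNn : NN n.primeFactors = n := Nat.prod_primeFactors_of_squarefree hsq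
  simp only [hNn] at hy1
  refine ⟨y, hy1, ?_⟩
  unfold FF at hy2
  rw [if_pos (subset_insert _ _), odd_cast, ind_congr (Fs_Sx n)] at hy2
  by_cases h5 : Sx n
  · refine iff_of_true ?_ h5
    by_contra h6
    rw [ind_pos h5, ind_neg h6] at hy2
    exact zero_ne_one hy2
  · refine iff_of_false ?_ h5
    intro h6
    rw [ind_neg h5, ind_pos h6] at hy2
    exact one_ne_zero hy2

/-- **PAR** -/
theorem t_PAR' (hU1 : S_U1) (hU3 : S_U3) (hR : S_R) (hSx : S_SxSc)
    (hTQ : ∀ n : ℕ, Squarefree n → n % 4 = 3 → (Ts (fun p q => ls n q p) n.primeFactors ↔ Qc n)) :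
    S_PAR := by
  intro n hn
  obtain ⟨y, h1, h2⟩ := par_x hU1 hU3 hR hTQ hn
  exact ⟨y, h1, h2.trans (hSx n hn)⟩

end Pool.Agent.N855.P17
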