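import Pool.Agent.N855.P17.Gen
import Pool.Agent.N969.P17G.Defs2

/-!
# The identities `S_ZZ`, `S_ZZE` (project P17G, helper855)
-/

set_option autoImplicit false
set_option linter.unusedSectionVars false

open Finset

namespace Pool.Agent.N855.P17

open Pool.Agent.N972.P17 (Cm Cp Cme Cpe Cr Cre SS rr cc vec1 vec2 ip1 ip2 ls al nu LL Sx Sc Sr)
open Pool.Agent.N969.P15 (Qc Qe Ev V3)
open Pool.Agent.N969.P17G (CpE PrE SxP S_ZZ S_ZZE S_SxP starP lsP alP LLP)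

theorem Fs_congr {l l' : ℕ → ℕ → ZMod 2} {ν a a' : ℕ → ZMod 2} {T : Finset ℕ}
    (h : ∀ p ∈ T, ∀ q ∈ T, p ≠ q → l p q = l' p q) (ha : ∀ p ∈ T, a p = a' p) :
    Fs l ν a T ↔ Fs l' ν a' T := by
  have hL : ∀ p ∈ T, ∀ q ∈ T, Lm l T p q = Lm l' T p q := by
    intro p hp q hq
    unfold Lm
    split_ifs with hpq
    · exact sum_congr rfl fun r hr => h p hp r (mem_of_mem_erase hr) (ne_of_mem_erase hr).symm
    · exact h p hp q hq hpq
  have h1 : ∀ (y : ℕ → ZMod 2), ∀ p ∈ T, ∑ q ∈ T, Lm l T p q * y q = ∑ q ∈ T, Lm l' T p q * y q :=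
    fun y p hp => sum_congr rfl fun q hq => by rw [hL p hp q hq]
  have h2 : ∀ (x : ℕ → ZMod 2), ∀ q ∈ T, ∑ p ∈ T, Lm l T p q * x p = ∑ p ∈ T, Lm l' T p q * x p :=
    fun x q hq => sum_congr rfl fun p hp => by rw [hL p hp q hq]
  unfold Fs
  constructor
  · intro h3 x y h4 h5
    exact h3 x y (fun p hp => by rw [h1 y p hp]; exact h4 p hp)
      (fun q hq => by rw [h2 x q hq, ha q hq]; exact h5 q hq)
  · intro h3 x y h4 h5
    exact h3 x y (fun p hp => by rw [← h1 y p hp]; exact h4 p hp)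
      (fun q hq => by rw [← h2 x q hq, ← ha q hq]; exact h5 q hq)

/-- the identity for the sets -/
theorem zz_set {Ω : Finset ℕ} {l : ℕ → ℕ → ZMod 2} {ν a : ℕ → ZMod 2} (hcol : HC l ν a Ω)
    {t : ℕ} {P : Finset ℕ} (ht : t ∈ P) :
    ∑ E ∈ (P.erase t).powerset, f0 a (FF Ω l ν a) E * f1 a (FF Ω l ν a) (P \ E) =
      WW Ω l ν a P := by
  have hF0 := FF_empty (Ω := Ω) (l := l) (ν := ν) (a := a)
  have hF := FF_exp (ν := ν) hcol
  have hW : ∀ B, WW Ω l ν a B ≠ 0 → ∑ p ∈ B, a p = 1 := fun B hB => (WW_ne hB).1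
  have h1 : cv (rs t (f1 a (FF Ω l ν a))) (f0 a (FF Ω l ν a)) = rs t (WW Ω l ν a) := by
    rw [rs_f1 hF hW, cv_assoc, cv_f0 hF0 hF hW, cv_un]
  have h2 := congrFun h1 P
  have h3 : rs t (WW Ω l ν a) P = WW Ω l ν a P := if_pos ht
  rw [← h3, ← h2]
  have h4 : cv (rs t (f1 a (FF Ω l ν a))) (f0 a (FF Ω l ν a)) P =
      ∑ X ∈ P.powerset, rs t (f1 a (FF Ω l ν a)) X * f0 a (FF Ω l ν a) (P \ X) := rfl
  rw [h4, sum_split ht]
  refine sum_congr rfl fun E hE => ?_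
  rw [mem_powerset] at hE
  have hEP : E ⊆ P := hE.trans (erase_subset t P)
  have htE : t ∉ E := fun h => notMem_erase t P (hE h)
  have h5 : rs t (f1 a (FF Ω l ν a)) E = 0 := if_neg htE
  have h6 : rs t (f1 a (FF Ω l ν a)) (P \ E) = f1 a (FF Ω l ν a) (P \ E) :=
    if_pos (mem_sdiff.2 ⟨ht, htE⟩)
  rw [h5, h6, zero_mul, zero_add, Finset.sdiff_sdiff_eq_self hEP, mul_comm]

/-- the product of the two factors as an indicator -/
theorem prod_ind {Ω : Finset ℕ} {l : ℕ → ℕ → ZMod 2} {ν a : ℕ → ZMod 2} (hcol : HC l ν a Ω)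
    {P E : Finset ℕ} (hP : P ⊆ Ω) (hE : E ⊆ P) (ha : ∑ p ∈ P, a p = 1) :
    f0 a (FF Ω l ν a) E * f1 a (FF Ω l ν a) (P \ E) =
      ind (∑ p ∈ E, a p = 0 ∧ ∑ p ∈ E, ν p = 0 ∧ Fs l ν a E ∧ Fs l ν a (P \ E)) := by
  have h10 : (1 : ZMod 2) ≠ 0 := one_ne_zero
  have hE1 : FF Ω l ν a E = ind (Fs l ν a E) := if_pos (hE.trans hP)
  have hE2 : FF Ω l ν a (P \ E) = ind (Fs l ν a (P \ E)) := if_pos (sdiff_subset.trans hP)
  unfold f0 f1
  rw [hE1, hE2]
  by_cases h0 : ∑ p ∈ E, a p = 0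
  · have h1 : ∑ p ∈ P \ E, a p = 1 := by rw [par_sdiff hE, ha, h0, add_zero]
    rw [if_pos h0, if_pos h1]
    by_cases h2 : Fs l ν a E
    · by_cases h3 : Fs l ν a (P \ E)
      · have h4 : ∑ p ∈ E, ν p = 0 := by
          rw [← h0]
          refine (FF_par hcol E ?_).symm
          rw [hE1, ind_pos h2]
          exact h10
        rw [ind_pos h2, ind_pos h3, ind_pos ⟨h0, h4, h2, h3⟩, one_mul]
      · rw [ind_neg h3, mul_zero, ind_neg fun h => h3 h.2.2.2]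
    · rw [ind_neg h2, zero_mul, ind_neg fun h => h2 h.2.2.1]
  · rw [if_neg h0, zero_mul, ind_neg fun h => h0 h.1]

theorem WW_ind {Ω : Finset ℕ} {l : ℕ → ℕ → ZMod 2} {ν a : ℕ → ZMod 2} {P : Finset ℕ} (hP : P ⊆ Ω)
    (ha : ∑ p ∈ P, a p = 1) (hν : ∑ p ∈ P, ν p = 1) : WW Ω l ν a P = ind (Ts l P) := by
  unfold WW Wb
  rw [if_pos hP]
  exact ind_congr ⟨fun h => h.2.2, fun h => ⟨ha, hν, h⟩⟩

theorem card_ind {α : Type} (S : Finset α) (p : α → Prop) [DecidablePred p] :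
    (((S.filter p).card : ℕ) : ZMod 2) = ∑ A ∈ S, ind (p A) := by
  rw [card_filter, Nat.cast_sum]
  refine sum_congr rfl fun A _ => ?_
  split_ifs with h
  · rw [ind_pos h, Nat.cast_one]
  · rw [ind_neg h, Nat.cast_zero]

theorem odd_nat {k : ℕ} {p : Prop} (h : (k : ZMod 2) = ind p) : Odd k ↔ p := by
  have h1 : ((k : ℤ) : ZMod 2) = ind p := by rw [← h]; push_cast; rfl
  have h2 := odd_ind h1
  rw [← h2]
  exact (Int.odd_coe_nat k).symm

theorem nul {l : ℕ} (hl : l.Prime) (h : jacobiSym l 17 = -1) (h2 : l ≠ 2) : nu l = 1 := by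
  have h17 : 17 ∉ ({l} : Finset ℕ) := by
    rw [mem_singleton]
    rintro rfl
    rw [jacobiSym.mod_left] at h
    norm_num at h
  have h3 := (jac17m (T := {l}) (by simpa using hl) (by simpa using Ne.symm h2) h17)
  unfold NN at h3
  rw [prod_singleton, sum_singleton] at h3
  exact h3.1 h

/-- **S_ZZ** -/
theorem t_ZZ' (hTQ : ∀ n : ℕ, Squarefree n → n % 4 = 3 →
    (Ts (fun p q => ls n q p) n.primeFactors ↔ Qc n)) : S_ZZ := by
  intro D l hD hl hCl hlD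
  obtain ⟨hDsq, hD4, hD17⟩ := hD
  obtain ⟨_, hl4, hl17⟩ := hCl
  have hl2 : l ≠ 2 := by
    rintro rfl
    norm_num at hl4
  have hD0 : D ≠ 0 := hDsq.ne_zero
  set P' := D.primeFactors with hP'
  have hNP' : NN P' = D := Nat.prod_primeFactors_of_squarefree hDsq
  have hP'p : ∀ p ∈ P', p.Prime := fun p hp => Nat.prime_of_mem_primeFactors hp
  have hlP' : l ∉ P' := fun h => hlD (Nat.dvd_of_mem_primeFactors h)
  have h2P' : 2 ∉ P' := by
    intro h
    have := Nat.dvd_of_mem_primeFactors h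
    omega
  have h17P' : 17 ∉ P' := by
    intro h
    have h5 := Nat.dvd_of_mem_primeFactors h
    have h6 : jacobiSym D 17 = 0 := by
      rw [jacobiSym.eq_zero_iff_not_coprime, Int.gcd_natCast_natCast]
      intro h7
      have := Nat.dvd_gcd h5 (dvd_refl 17)
      rw [h7] at this
      norm_num at this
    rw [h6] at hD17
    norm_num at hD17
  set P := insert l P' with hP
  have hPp : ∀ p ∈ P, p.Prime := by
    intro p hp
    rcases mem_insert.1 hp with rfl | hp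
    · exact hl
    · exact hP'p p hp
  have h2P : 2 ∉ P := by
    rw [hP, mem_insert, not_or]
    exact ⟨Ne.symm hl2, h2P'⟩
  have hPe : P.erase l = P' := erase_insert hlP'
  have hlP : l ∈ P := mem_insert_self _ _
  have hNP : NN P = l * D := by rw [hP, NN_insert hlP', hNP']
  have hal : al 0 l = 1 := by
    rw [al_odd 0 hl hl2, if_neg (by omega)]
  have haP' : ∑ p ∈ P', al 0 p = 0 := (mod1_iff 0 hP'p h2P').1 (by rw [hNP']; exact hD4)
  have hνP' : ∑ p ∈ P', nu p = 0 := (jac17p hP'p h2P' h17P').1 (by rw [hNP']; exact hD17)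
  have ha : ∑ p ∈ P, al 0 p = 1 := by rw [hP, sum_insert hlP', haP', hal, add_zero]
  have hν : ∑ p ∈ P, nu p = 1 := by
    rw [hP, sum_insert hlP', hνP', nul hl hl17 hl2, add_zero]
  have hcol : HC (fun p q => ls 0 q p) nu (al 0) P := HC_gen 0 hPp nu (if_pos rfl)
  have hz := zz_set hcol hlP
  rw [WW_ind (Subset.refl P) ha hν, hPe] at hz
  have hsqP : Squarefree (l * D) := by rw [← hNP]; exact NN_sq hPp
  have h4P : (l * D) % 4 = 3 := by rw [Nat.mul_mod, hl4, hD4]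
  have hTs : Ts (fun p q => ls 0 q p) P ↔ Qc (l * D) := by
    rw [← hTQ _ hsqP h4P, ← hNP, NN_pf hPp]
    exact Ts_congr fun p _ q hq _ => ls_eq _ _ fun h => h2P (h ▸ hq)
  rw [ind_congr hTs] at hz
  refine odd_nat ?_
  rw [← hz]
  have hd : D.divisors = (NN P').divisors := by rw [hNP']
  rw [card_ind, hd, div_sum hP'p]
  refine sum_congr rfl fun E hE => ?_
  rw [mem_powerset] at hE
  have hEP : E ⊆ P := hE.trans (subset_insert _ _)
  rw [prod_ind hcol (Subset.refl P) hEP ha]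
  apply ind_congr
  have hEp : ∀ p ∈ E, p.Prime := fun p hp => hPp p (hEP hp)
  have h2E : 2 ∉ E := fun h => h2P (hEP h)
  have h17E : 17 ∉ E := fun h => h17P' (hE h)
  have hlE : l ∉ E := fun h => hlP' (hE h)
  have hpeq : l * (D / NN E) = NN (P \ E) := by
    have h1 : P \ E = insert l (P' \ E) := by
      rw [hP, insert_sdiff_of_notMem _ hlE]
    rw [h1, NN_insert fun h => hlP' (mem_sdiff.1 h).1, ← NN_div hP'p hE, hNP']
  have hx : ∀ X ⊆ P, (Sx (NN X) ↔ Fs (fun p q => ls 0 q p) nu (al 0) X) := by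
    intro X hX
    have hXp : ∀ p ∈ X, p.Prime := fun p hp => hPp p (hX hp)
    rw [← Fs_Sx, NN_pf hXp]
    refine Fs_congr (fun p _ q hq _ => ls_eq _ _ fun h => h2P (hX (h ▸ hq))) fun p hp => ?_
    have hp2 : p ≠ 2 := fun h => h2P (hX (h ▸ hp))
    rw [al_odd _ (hXp p hp) hp2, al_odd _ (hXp p hp) hp2]
  rw [hpeq, hx E hEP, hx (P \ E) sdiff_subset]
  have hcp : Cp (NN E) ↔ (∑ p ∈ E, al 0 p = 0 ∧ ∑ p ∈ E, nu p = 0) := by
    rw [← mod1_iff 0 hEp h2E, ← jac17p hEp h2E h17E]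
    exact ⟨fun h => ⟨h.2.1, h.2.2⟩, fun h => ⟨NN_sq hEp, h.1, h.2⟩⟩
  rw [hcp, and_assoc]

theorem NT_mul (n0 : ℕ) {P E : Finset ℕ} (hE : E ⊆ P) : NT n0 (P \ E) * NT n0 E = NT n0 P := by
  by_cases h2 : 2 ∈ P
  · by_cases h2E : 2 ∈ E
    · have h1 : 2 ∉ P \ E := fun h => (mem_sdiff.1 h).2 h2E
      have h3 : P \ E = P.erase 2 \ E.erase 2 := by
        ext x
        simp only [mem_sdiff, mem_erase]
        constructor
        · rintro ⟨h4, h5⟩
          exact ⟨⟨fun h => h5 (h ▸ h2E), h4⟩, fun h => h5 h.2⟩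
        · rintro ⟨⟨h4, h5⟩, h6⟩
          exact ⟨h5, fun h => h6 ⟨h4, h⟩⟩
      rw [NT_out h1, NT_in h2E, NT_in h2, h3, ← NN_sdiff (erase_subset_erase 2 hE)]
      ring
    · have h1 : 2 ∈ P \ E := mem_sdiff.2 ⟨h2, h2E⟩
      have h3 : (P \ E).erase 2 = P.erase 2 \ E := (erase_sdiff_comm P E 2).symm
      have h4 : E ⊆ P.erase 2 := fun x hx => mem_erase.2 ⟨fun h => h2E (h ▸ hx), hE hx⟩
      rw [NT_in h1, NT_out h2E, NT_in h2, h3, ← NN_sdiff h4]
      ring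
  · rw [NT_out h2, NT_out fun h => h2 (hE h), NT_out fun h => h2 (mem_sdiff.1 h).1, NN_sdiff hE]

theorem unit_NT (n0 : ℕ) {P : Finset ℕ} (hP : ∀ p ∈ P, p.Prime) {x y : ℕ}
    (hxy : x * y = NT n0 P) (hc : Nat.Coprime x y) :
    x.primeFactors ⊆ P ∧ NT n0 x.primeFactors = x := by
  have h0 : x * y ≠ 0 := by rw [hxy]; exact (NT_pos hP).ne'
  have hx0 : x ≠ 0 := left_ne_zero_of_mul h0
  have hy0 : y ≠ 0 := right_ne_zero_of_mul h0
  have hPE : P = x.primeFactors ∪ y.primeFactors := by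
    rw [← Nat.Coprime.primeFactors_mul hc, hxy, NT_pf hP]
  have hdis : Disjoint x.primeFactors y.primeFactors := (Nat.disjoint_primeFactors hx0 hy0).2 hc
  have hEP : x.primeFactors ⊆ P := by rw [hPE]; exact subset_union_left
  have hE' : P \ x.primeFactors = y.primeFactors := by
    rw [hPE, union_sdiff_left]
    exact sdiff_eq_self_of_disjoint hdis.symm
  have hm := NT_mul n0 hEP
  rw [hE', ← hxy] at hm
  have hpx : ∀ p ∈ x.primeFactors, p.Prime := fun p hp => Nat.prime_of_mem_primeFactors hp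
  have hpy : ∀ p ∈ y.primeFactors, p.Prime := fun p hp => Nat.prime_of_mem_primeFactors hp
  have hc1 : Nat.Coprime (NT n0 x.primeFactors) y := by
    rw [← Nat.disjoint_primeFactors (NT_pos hpx).ne' hy0, NT_pf hpx]
    exact hdis
  have hc2 : Nat.Coprime x (NT n0 y.primeFactors) := by
    rw [← Nat.disjoint_primeFactors hx0 (NT_pos hpy).ne', NT_pf hpy]
    exact hdis
  refine ⟨hEP, Nat.dvd_antisymm ?_ ?_⟩
  · refine hc1.dvd_of_dvd_mul_right (m := x) ?_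
    rw [← hm]
    exact Dvd.intro_left _ rfl
  · refine hc2.dvd_of_dvd_mul_left (n := NT n0 x.primeFactors) ?_
    rw [hm]
    exact Dvd.intro _ rfl

theorem starP_odd (n : ℕ) {q : ℕ} (hq : q ≠ 2) : starP n q = if q % 4 = 1 then (q : ℤ) else -q := by
  unfold starP
  rw [if_neg hq]

theorem starP_eq (n0 : ℕ) {E : Finset ℕ} (hE : ∀ p ∈ E, p.Prime) (ha : ∑ p ∈ E, al n0 p = 0) :
    ∀ q ∈ E, starP (NT n0 E) q = Pool.Agent.N972.P17.star n0 q := by
  intro q hq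
  by_cases hq2 : q = 2
  · subst hq2
    have hm := par_mod n0 (hTe hE) (notMem_erase 2 E)
    have hNT : NT n0 E = kp n0 * NN (E.erase 2) := NT_in hq
    rw [al_split hq] at ha
    set u := NN (E.erase 2) with hu
    have h01 : (1 : ZMod 2) ≠ 0 := one_ne_zero
    unfold starP
    rw [if_pos rfl, hNT]
    rcases star2 n0 with ⟨h3, h4, h5⟩ | ⟨h3, h4, h5⟩ | ⟨h3, h4, h5⟩
    · have hu3 : u % 4 = 3 := by
        rcases hm with ⟨_, h7⟩ | ⟨h6, _⟩
        · rw [h5, h7, add_zero] at ha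
          exact absurd ha h01
        · exact h6
      rw [h3, h4, if_pos (by omega)]
    · have hu3 : u % 4 = 3 := by
        rcases hm with ⟨_, h7⟩ | ⟨h6, _⟩
        · rw [h5, h7, add_zero] at ha
          exact absurd ha h01
        · exact h6
      rw [h3, h4, if_neg (by omega), if_neg (by omega)]
    · have hu1 : u % 4 = 1 := by
        rcases hm with ⟨h6, _⟩ | ⟨_, h7⟩
        · exact h6
        · rw [h5, h7, zero_add] at ha
          exact absurd ha h01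
      rw [h3, h4, if_neg (by omega), if_pos (by omega)]
  · rw [starP_odd _ hq2, star_odd _ hq2]

theorem SxP_Fs (n0 : ℕ) {E : Finset ℕ} (hE : ∀ p ∈ E, p.Prime) (ha : ∑ p ∈ E, al n0 p = 0) :
    SxP (NT n0 E) ↔ Fs (fun p q => ls n0 q p) nu (al n0) E := by
  have h1 : SxP (NT n0 E) ↔ Fs (fun p q => lsP (NT n0 E) q p) nu (alP (NT n0 E))
      (NT n0 E).primeFactors := Iff.rfl
  have hs := starP_eq n0 hE ha
  rw [h1, NT_pf hE]
  refine Fs_congr (fun p _ q hq _ => ?_) fun p hp => ?_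
  · unfold lsP ls
    rw [hs q hq]
  · unfold alP al
    rw [hs p hp]

theorem Sx_Fs (n0 : ℕ) {E : Finset ℕ} (hE : ∀ p ∈ E, p.Prime) (ha : ∑ p ∈ E, al n0 p = 1) :
    Sx (NT n0 E) ↔ Fs (fun p q => ls n0 q p) nu (al n0) E := by
  rw [← Fs_Sx, NT_pf hE]
  by_cases h2 : 2 ∈ E
  · have hst := (NT_Ev (n0 := n0) hE h2 ha).2
    refine Fs_congr (fun p _ q _ _ => ?_) fun p _ => ?_
    · unfold ls
      rw [hst]
    · unfold al
      rw [hst]
  · refine Fs_congr (fun p _ q hq _ => ls_eq _ _ fun h => h2 (h ▸ hq)) fun p hp => ?_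
    have hp2 : p ≠ 2 := fun h => h2 (h ▸ hp)
    rw [al_odd _ (hE p hp) hp2, al_odd _ (hE p hp) hp2]

/-- the classes -/
theorem PrE_iff (n0 : ℕ) {P E : Finset ℕ} (hP : ∀ p ∈ P, p.Prime) (h2 : 2 ∈ P) (h17 : 17 ∉ P)
    (ha : ∑ p ∈ P, al n0 p = 1) (hν : ∑ p ∈ P, nu p = 1) (hE : E ⊆ P) :
    PrE (NT n0 E) (NT n0 (P \ E)) ↔ (∑ p ∈ E, al n0 p = 0 ∧ ∑ p ∈ E, nu p = 0) := by
  have hEp : ∀ p ∈ E, p.Prime := fun p hp => hP p (hE hp)
  have hEp' : ∀ p ∈ P \ E, p.Prime := fun p hp => hP p (mem_sdiff.1 hp).1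
  have h17E : 17 ∉ E := fun h => h17 (hE h)
  have h17E' : 17 ∉ P \ E := fun h => h17 (mem_sdiff.1 h).1
  have pa : ∑ p ∈ P \ E, al n0 p = 1 ↔ ∑ p ∈ E, al n0 p = 0 := by
    rw [par_sdiff hE, ha]
    have : ∀ z : ZMod 2, 1 + z = 1 ↔ z = 0 := by decide
    exact this _
  have pν : ∑ p ∈ P \ E, nu p = 1 ↔ ∑ p ∈ E, nu p = 0 := by
    rw [par_sdiff hE, hν]
    have : ∀ z : ZMod 2, 1 + z = 1 ↔ z = 0 := by decide
    exact this _
  have h4k : ∀ X : Finset ℕ, 2 ∈ X → 4 ∣ NT n0 X := by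
    intro X hX
    rw [NT_in hX]
    rcases kp_cases n0 with h | h
    · rw [h]; exact Dvd.intro _ rfl
    · rw [h]; exact Dvd.dvd.mul_right (by norm_num) _
  constructor
  · rintro ⟨⟨_, _, h5, h6⟩ | ⟨⟨_, h5, h6⟩, _⟩, _⟩
    · have h7 : 2 ∉ P \ E := by
        intro h7
        have := h4k _ h7
        omega
      rw [NT_out h7] at h5
      exact ⟨pa.1 ((mod3_iff n0 hEp' h7).1 h5), pν.1 ((NT_jm hEp' h17E').1 h6)⟩
    · have h7 : 2 ∉ E := by
        intro h7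
        have := h4k _ h7
        omega
      rw [NT_out h7] at h5
      exact ⟨(mod1_iff n0 hEp h7).1 h5, (NT_jp hEp h17E).1 h6⟩
  · rintro ⟨h5, h6⟩
    have h7 := pa.2 h5
    have h8 := pν.2 h6
    refine ⟨?_, ?_⟩
    · by_cases h2E : 2 ∈ E
      · left
        obtain ⟨k1, _, _, hcp, he⟩ := Cpe_of n0 hEp h2E h17E h5 h6
        have h9 : 2 ∉ P \ E := fun h => (mem_sdiff.1 h).2 h2E
        refine ⟨⟨_, he.symm, hcp⟩, ?_⟩
        rw [NT_out h9]
        exact ⟨NN_sq hEp', (mod3_iff n0 hEp' h9).2 h7, (jac17m hEp' h9 h17E').2 h8⟩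
      · right
        have h9 : 2 ∈ P \ E := mem_sdiff.2 ⟨h2, h2E⟩
        refine ⟨?_, (NT_Ev hEp' h9 h7).1, (NT_jm hEp' h17E').2 h8⟩
        rw [NT_out h2E]
        exact ⟨NN_sq hEp, (mod1_iff n0 hEp h2E).2 h5, (jac17p hEp h2E h17E).2 h6⟩
    · rw [← Nat.disjoint_primeFactors (NT_pos hEp).ne' (NT_pos hEp').ne', NT_pf hEp, NT_pf hEp']
      exact disjoint_sdiff

/-- **S_ZZE** -/
theorem t_ZZE' (hTQE : ∀ n : ℕ, Ev n → n ≠ 4 → (Ts (fun p q => ls n q p) n.primeFactors ↔ Qe n)) :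
    S_ZZE := by
  intro D l hD hl hCl hlD
  obtain ⟨M, rfl, hMsq, hM4, hM17⟩ := hD
  obtain ⟨_, hl4, hl17⟩ := hCl
  have hl2 : l ≠ 2 := by
    rintro rfl
    norm_num at hl4
  have hlM : Nat.Coprime l M := (Nat.Prime.coprime_iff_not_dvd hl).2 fun h =>
    hlD (Dvd.dvd.mul_left h 4)
  have hev : Ev (l * (4 * M)) := by
    refine ⟨l * M, by ring, ?_, ?_⟩
    · rw [Nat.squarefree_mul_iff]
      exact ⟨hlM, hl.squarefree, hMsq⟩
    · rw [Nat.mul_mod, hl4]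
      rcases hM4 with h | h
      · rw [h]; right; rfl
      · rw [h]; left; rfl
  obtain ⟨h2P, hNP, ha⟩ := Ev_NT hev
  have hj : jacobiSym (l * (4 * M) : ℕ) 17 = -1 := by
    have h5 : jacobiSym ((4 : ℕ) : ℤ) 17 = 1 := by
      have h6 : jacobiSym 2 17 = 1 := by
        rw [jacobiSym.at_two (by decide)]
        rfl
      rw [show ((4 : ℕ) : ℤ) = 2 ^ 2 by norm_num, jacobiSym.pow_left, h6, one_pow]
    rw [Nat.cast_mul, Nat.cast_mul, jacobiSym.mul_left, jacobiSym.mul_left, hl17, h5, hM17]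
    norm_num
  have hTs := hTQE _ hev (ne4 hj)
  set n0 := l * (4 * M) with hn0
  set P := n0.primeFactors with hP
  have hn00 : n0 ≠ 0 := by
    intro h
    rw [hP, h] at h2P
    simp at h2P
  have hPp : ∀ p ∈ P, p.Prime := fun p hp => Nat.prime_of_mem_primeFactors hp
  have hlP : l ∈ P := Nat.mem_primeFactors.2 ⟨hl, Dvd.intro _ rfl, hn00⟩
  have h17P : 17 ∉ P := not17 hj
  have hν : ∑ p ∈ P, nu p = 1 := (NT_jm (n0 := n0) hPp h17P).1 (by rw [hNP]; exact hj)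
  set P' := P.erase l with hP'
  have hlP' : l ∉ P' := notMem_erase l P
  have hPP' : P' ⊆ P := erase_subset l P
  have hP'p : ∀ p ∈ P', p.Prime := fun p hp => hPp p (hPP' hp)
  have hNP' : NT n0 P' = 4 * M := by
    have h1 := NT_insert n0 hl2 hlP'
    rw [hP', insert_erase hlP, hNP] at h1
    exact (Nat.eq_of_mul_eq_mul_left hl.pos h1).symm
  have hcol : HC (fun p q => ls n0 q p) nu (al n0) P := HC_gen n0 hPp nu (if_pos rfl)
  have hz := zz_set hcol hlP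
  rw [WW_ind (Subset.refl P) ha hν, ind_congr hTs] at hz
  refine odd_nat ?_
  rw [← hz, card_ind]
  have hinj : Set.InjOn (NT n0) (P'.powerset : Set (Finset ℕ)) := by
    intro E1 h1 E2 h2 h
    rw [mem_coe, mem_powerset] at h1 h2
    rw [← NT_pf (n0 := n0) fun p hp => hP'p p (h1 hp), h,
      NT_pf (n0 := n0) fun p hp => hP'p p (h2 hp)]
  have hdv : ∀ E ⊆ P', (4 * M) / NT n0 E = NT n0 (P' \ E) := by
    intro E hE
    rw [← hNP', ← NT_mul n0 hE]
    exact Nat.mul_div_cancel _ (NT_pos fun p hp => hP'p p (hE hp))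
  have hmain : ∑ A ∈ (4 * M).divisors, ind (PrE A (l * (4 * M / A)) ∧ SxP A ∧ Sx (l * (4 * M / A)))
      = ∑ E ∈ P'.powerset, ind (PrE (NT n0 E) (l * (4 * M / NT n0 E)) ∧ SxP (NT n0 E) ∧
        Sx (l * (4 * M / NT n0 E))) := by
    rw [← sum_image (f := fun A => ind (PrE A (l * (4 * M / A)) ∧ SxP A ∧ Sx (l * (4 * M / A))))
      hinj]
    symm
    refine sum_subset ?_ ?_
    · intro A hA
      rw [mem_image] at hA
      obtain ⟨E, hE, rfl⟩ := hA
      rw [mem_powerset] at hE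
      rw [Nat.mem_divisors, ← hNP']
      exact ⟨⟨NT n0 (P' \ E), by rw [mul_comm, NT_mul n0 hE]⟩, (NT_pos hP'p).ne'⟩
    · intro A hA hA2
      apply ind_neg
      rintro ⟨⟨_, hco⟩, _⟩
      apply hA2
      rw [Nat.mem_divisors] at hA
      have hxy : A * (4 * M / A) = NT n0 P' := by rw [hNP']; exact Nat.mul_div_cancel' hA.1
      have hc : Nat.Coprime A (4 * M / A) := Nat.Coprime.coprime_dvd_right (Dvd.intro_left l rfl) hco
      obtain ⟨h1, h3⟩ := unit_NT n0 hP'p hxy hc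
      rw [mem_image]
      exact ⟨A.primeFactors, mem_powerset.2 h1, h3⟩
  rw [hmain]
  refine sum_congr rfl fun E hE => ?_
  rw [mem_powerset] at hE
  have hEP : E ⊆ P := hE.trans hPP'
  have hEp : ∀ p ∈ E, p.Prime := fun p hp => hPp p (hEP hp)
  have hEp' : ∀ p ∈ P \ E, p.Prime := fun p hp => hPp p (mem_sdiff.1 hp).1
  have hlE : l ∉ E := fun h => hlP' (hE h)
  have hpeq : l * (4 * M / NT n0 E) = NT n0 (P \ E) := by
    have h1 : P \ E = insert l (P' \ E) := by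
      rw [← insert_sdiff_of_notMem _ hlE, hP', insert_erase hlP]
    rw [hdv E hE, h1, NT_insert n0 hl2 fun h => hlP' (mem_sdiff.1 h).1]
  rw [prod_ind hcol (Subset.refl P) hEP ha, hpeq]
  apply ind_congr
  rw [PrE_iff n0 hPp h2P h17P ha hν hEP]
  have pa : ∑ p ∈ E, al n0 p = 0 → ∑ p ∈ P \ E, al n0 p = 1 := by
    intro h
    rw [par_sdiff hEP, ha, h, add_zero]
  constructor
  · rintro ⟨⟨h1, h3⟩, h4, h5⟩
    exact ⟨h1, h3, (SxP_Fs n0 hEp h1).1 h4, (Sx_Fs n0 hEp' (pa h1)).1 h5⟩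
  · rintro ⟨h1, h3, h4, h5⟩
    exact ⟨⟨h1, h3⟩, (SxP_Fs n0 hEp h1).2 h4, (Sx_Fs n0 hEp' (pa h1)).2 h5⟩

/-- **S_SxP** -/
theorem t_SxP : S_SxP := by
  intro A hA
  have h2 : ∀ q ∈ A.primeFactors, q ≠ 2 := by
    rintro q hq rfl
    have := Nat.dvd_of_mem_primeFactors hq
    have := hA.2.1
    omega
  have h1 : SxP A ↔ Fs (fun p q => lsP A q p) nu (alP A) A.primeFactors := Iff.rfl
  rw [h1, ← Fs_Sx]
  refine Fs_congr (fun p _ q hq _ => ?_) fun p hp => ?_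
  · unfold lsP ls
    rw [starP_odd _ (h2 q hq), star_odd _ (h2 q hq)]
  · unfold alP al
    rw [starP_odd _ (h2 p hp), star_odd _ (h2 p hp)]

end Pool.Agent.N855.P17
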