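import Pool.Agent.N855.P17.Par17
import Pool.Agent.N855.P17.ZZ
import Pool.Agent.N816.P17.Crit

/-!
# The parity laws of the projects P17, P17G (helper855)
-/

set_option autoImplicit false

namespace Pool.Agent.N855.P17

open Pool.Agent.N972.P17 (S_U1 S_U3 S_R S_PAR S_SxSc S_U1E S_U3E S_RE S_PARE S_U1R S_U3R S_VR S_RR
  S_PARR S_U1RE S_U3RE S_RRE S_PARRE)
open Pool.Agent.N969.P17G (S_ZZ S_ZZE)

theorem t_PAR (hU1 : S_U1) (hU3 : S_U3) (hR : S_R) : S_PAR :=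
  t_PAR' hU1 hU3 hR Pool.Agent.N816.P17.Crit.t_SxSc fun _ => Pool.Agent.N816.P17.Crit.Ts_Qc

theorem t_PARE (hU1 : S_U1) (hU3 : S_U3) (hR : S_R) (hU1E : S_U1E) (hU3E : S_U3E) (hRE : S_RE) :
    S_PARE :=
  t_PARE' hU1 hU3 hR hU1E hU3E hRE (fun _ => Pool.Agent.N816.P17.Crit.Ts_Qc)
    fun _ => Pool.Agent.N816.P17.Crit.Ts_Qe

theorem t_PARR (hU1 : S_U1) (hU3 : S_U3) (hR : S_R) (hU1R : S_U1R) (hU3R : S_U3R) (hVR : S_VR)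
    (hRR : S_RR) : S_PARR :=
  t_PARR' hU1 hU3 hR hU1R hU3R hVR hRR (fun _ => Pool.Agent.N816.P17.Crit.Ts_Qc)
    fun _ => Pool.Agent.N816.P17.Crit.Ts_Qe

theorem t_PARRE (hU1 : S_U1) (hU3 : S_U3) (hR : S_R) (hU1E : S_U1E) (hU3E : S_U3E) (hRE : S_RE)
    (hU1R : S_U1R) (hU3R : S_U3R) (hVR : S_VR) (hRR : S_RR) (hU1RE : S_U1RE) (hU3RE : S_U3RE)
    (hRRE : S_RRE) : S_PARRE :=
  t_PARRE' hU1 hU3 hR hU1E hU3E hRE hU1R hU3R hVR hRR hU1RE hU3RE hRRE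
    (fun _ => Pool.Agent.N816.P17.Crit.Ts_Qc) fun _ => Pool.Agent.N816.P17.Crit.Ts_Qe

theorem t_ZZ : S_ZZ := t_ZZ' fun _ => Pool.Agent.N816.P17.Crit.Ts_Qc

theorem t_ZZE : S_ZZE := t_ZZE' fun _ => Pool.Agent.N816.P17.Crit.Ts_Qe

end Pool.Agent.N855.P17
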