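import Pool.Agent.N855.P17.Ind2
import Pool.Agent.N972.P17.Defs3

/-!
# Arithmetic of the sets of primes (project P17, helper855)
-/

set_option autoImplicit false
set_option linter.unusedSectionVars false

open Finset

namespace Pool.Agent.N855.P17

open Pool.Agent.N972.P17 (Cm Cp Cme Cpe Cr Cre SS rr cc vec1 vec2 ip1 ip2 ls al nu LL Sx Sc Sr)
open Pool.Agent.N969.P15 (Qc Qe Ev V3)

/-- the product of the primes of a set -/
def NN (T : Finset ℕ) : ℕ := ∏ p ∈ T, p

theorem NN_pos {T : Finset ℕ} (hT : ∀ p ∈ T, p.Prime) : 0 < NN T :=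
  prod_pos fun p hp => (hT p hp).pos

theorem NN_pf {T : Finset ℕ} (hT : ∀ p ∈ T, p.Prime) : (NN T).primeFactors = T :=
  Nat.primeFactors_prod hT

theorem NN_insert {t : ℕ} {T : Finset ℕ} (ht : t ∉ T) : NN (insert t T) = t * NN T :=
  prod_insert ht

theorem NN_sdiff {B P : Finset ℕ} (hB : B ⊆ P) : NN (P \ B) * NN B = NN P := prod_sdiff hB

theorem NN_cop {T T' : Finset ℕ} (hT : ∀ p ∈ T, p.Prime) (hT' : ∀ p ∈ T', p.Prime)
    (hd : Disjoint T T') : Nat.Coprime (NN T) (NN T') := by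
  refine Nat.Coprime.prod_left fun p hp => Nat.Coprime.prod_right fun q hq => ?_
  rw [Nat.coprime_primes (hT p hp) (hT' q hq)]
  rintro rfl
  exact Finset.disjoint_left.1 hd hp hq

theorem NN_sq {T : Finset ℕ} (hT : ∀ p ∈ T, p.Prime) : Squarefree (NN T) := by
  induction T using Finset.induction_on with
  | empty => exact squarefree_one
  | insert t T ht ih =>
    rw [NN_insert ht, Nat.squarefree_mul_iff]
    have h1 := hT t (mem_insert_self t T)
    have h2 : ∀ p ∈ T, p.Prime := fun p hp => hT p (mem_insert_of_mem hp)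
    refine ⟨?_, h1.squarefree, ih h2⟩
    have := NN_cop (T := {t}) (T' := T) (by simpa using h1) h2 (disjoint_singleton_left.2 ht)
    unfold NN at this ⊢
    rwa [prod_singleton] at this

theorem div_sum {M : Type} [AddCommMonoid M] {P : Finset ℕ} (hP : ∀ p ∈ P, p.Prime) (g : ℕ → M) :
    ∑ d ∈ (NN P).divisors, g d = ∑ B ∈ P.powerset, g (NN B) := by
  have hsub : ∀ B ⊆ P, ∀ p ∈ B, p.Prime := fun B hB p hp => hP p (hB hp)
  have h0 : NN P ≠ 0 := (NN_pos hP).ne'
  refine sum_bij' (fun d _ => d.primeFactors) (fun B _ => NN B) ?_ ?_ ?_ ?_ ?_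
  · intro d hd
    rw [mem_powerset, ← NN_pf hP]
    exact Nat.primeFactors_mono (Nat.dvd_of_mem_divisors hd) h0
  · intro B hB
    rw [Nat.mem_divisors]
    exact ⟨prod_dvd_prod_of_subset _ _ _ (mem_powerset.1 hB), h0⟩
  · intro d hd
    exact Nat.prod_primeFactors_of_squarefree
      (Squarefree.squarefree_of_dvd (Nat.dvd_of_mem_divisors hd) (NN_sq hP))
  · intro B hB
    exact NN_pf (hsub B (mem_powerset.1 hB))
  · intro d hd
    have : NN d.primeFactors = d := Nat.prod_primeFactors_of_squarefree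
      (Squarefree.squarefree_of_dvd (Nat.dvd_of_mem_divisors hd) (NN_sq hP))
    rw [this]

theorem NN_div {B P : Finset ℕ} (hP : ∀ p ∈ P, p.Prime) (hB : B ⊆ P) : NN P / NN B = NN (P \ B) :=
  Nat.div_eq_of_eq_mul_left (NN_pos fun p hp => hP p (hB hp)) (NN_sdiff hB).symm

/-- parity of the number of the primes `3 mod 4` -/
theorem par_mod (n0 : ℕ) {T : Finset ℕ} (hT : ∀ p ∈ T, p.Prime) (h2 : 2 ∉ T) :
    (NN T % 4 = 1 ∧ ∑ p ∈ T, al n0 p = 0) ∨ (NN T % 4 = 3 ∧ ∑ p ∈ T, al n0 p = 1) := by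
  induction T using Finset.induction_on with
  | empty => exact Or.inl ⟨rfl, rfl⟩
  | insert t T ht ih =>
    have ih' := ih (fun p hp => hT p (mem_insert_of_mem hp)) fun h => h2 (mem_insert_of_mem h)
    have htp := hT t (mem_insert_self t T)
    have ht2 : t ≠ 2 := fun h => h2 (h ▸ mem_insert_self t T)
    have hodd := htp.eq_two_or_odd.resolve_left ht2
    have e11 : (1 : ZMod 2) + 1 = 0 := rfl
    rw [NN_insert ht, sum_insert ht, Nat.mul_mod]
    have hst : Pool.Agent.N972.P17.star n0 t = if t % 4 = 1 then (t : ℤ) else -t := by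
      unfold Pool.Agent.N972.P17.star
      rw [if_neg ht2]
    rcases (by omega : t % 4 = 1 ∨ t % 4 = 3) with h | h
    · have hal : al n0 t = 0 := by
        unfold al
        rw [hst, if_pos h, if_neg]
        push Not
        exact Int.natCast_nonneg t
      rw [hal, zero_add, h]
      rcases ih' with ⟨h3, h4⟩ | ⟨h3, h4⟩
      · exact Or.inl ⟨by rw [h3], h4⟩
      · exact Or.inr ⟨by rw [h3], h4⟩
    · have hal : al n0 t = 1 := by
        unfold al
        have h5 : ¬ t % 4 = 1 := by omega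
        have := htp.pos
        rw [hst, if_neg h5, if_pos (by omega)]
      rw [hal, h]
      rcases ih' with ⟨h3, h4⟩ | ⟨h3, h4⟩
      · exact Or.inr ⟨by rw [h3], by rw [h4, add_zero]⟩
      · exact Or.inl ⟨by rw [h3], by rw [h4]; exact e11⟩

theorem mod3_iff (n0 : ℕ) {T : Finset ℕ} (hT : ∀ p ∈ T, p.Prime) (h2 : 2 ∉ T) :
    NN T % 4 = 3 ↔ ∑ p ∈ T, al n0 p = 1 := by
  rcases par_mod n0 hT h2 with ⟨h3, h4⟩ | ⟨h3, h4⟩
  · rw [h3, h4]; decide
  · rw [h3, h4]; decide

theorem mod1_iff (n0 : ℕ) {T : Finset ℕ} (hT : ∀ p ∈ T, p.Prime) (h2 : 2 ∉ T) :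
    NN T % 4 = 1 ↔ ∑ p ∈ T, al n0 p = 0 := by
  rcases par_mod n0 hT h2 with ⟨h3, h4⟩ | ⟨h3, h4⟩
  · rw [h3, h4]; decide
  · rw [h3, h4]; decide

/-- the symbol at `17` -/
theorem jac17 {T : Finset ℕ} (hT : ∀ p ∈ T, p.Prime) (h2 : 2 ∉ T) (h17 : 17 ∉ T) :
    (jacobiSym (NN T : ℕ) 17 = 1 ∧ ∑ p ∈ T, nu p = 0) ∨
      (jacobiSym (NN T : ℕ) 17 = -1 ∧ ∑ p ∈ T, nu p = 1) := by
  induction T using Finset.induction_on with
  | empty =>
    refine Or.inl ⟨?_, rfl⟩
    have : NN ∅ = 1 := rfl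
    rw [this, Nat.cast_one, jacobiSym.one_left]
  | insert t T ht ih =>
    have ih' := ih (fun p hp => hT p (mem_insert_of_mem hp)) (fun h => h2 (mem_insert_of_mem h))
      fun h => h17 (mem_insert_of_mem h)
    have htp := hT t (mem_insert_self t T)
    have ht2 : t ≠ 2 := fun h => h2 (h ▸ mem_insert_self t T)
    have ht17 : t ≠ 17 := fun h => h17 (h ▸ mem_insert_self t T)
    have hodd : Odd t := htp.odd_of_ne_two ht2
    have e11 : (1 : ZMod 2) + 1 = 0 := rfl
    have hrec : jacobiSym (t : ℕ) 17 = jacobiSym 17 t := by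
      have := jacobiSym.quadratic_reciprocity_one_mod_four (a := 17) (b := t) (by norm_num) hodd
      exact this.symm
    have hcop : Int.gcd (t : ℤ) (17 : ℕ) = 1 := by
      rw [Int.gcd_natCast_natCast]
      exact (Nat.coprime_primes htp (by norm_num)).2 ht17
    rw [NN_insert ht, sum_insert ht, Nat.cast_mul, jacobiSym.mul_left]
    rcases jacobiSym.eq_one_or_neg_one hcop with h | h
    · have hnu : nu t = 0 := by
        unfold nu
        rw [if_neg ht2, if_pos (hrec ▸ h)]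
      rw [hnu, zero_add, h, one_mul]
      exact ih'
    · have hnu : nu t = 1 := by
        unfold nu
        rw [if_neg ht2, if_neg]
        rw [← hrec, h]
        norm_num
      rw [hnu, h]
      rcases ih' with ⟨h3, h4⟩ | ⟨h3, h4⟩
      · exact Or.inr ⟨by rw [h3, mul_one], by rw [h4, add_zero]⟩
      · exact Or.inl ⟨by rw [h3]; norm_num, by rw [h4]; exact e11⟩

theorem jac17p {T : Finset ℕ} (hT : ∀ p ∈ T, p.Prime) (h2 : 2 ∉ T) (h17 : 17 ∉ T) :
    jacobiSym (NN T : ℕ) 17 = 1 ↔ ∑ p ∈ T, nu p = 0 := by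
  rcases jac17 hT h2 h17 with ⟨h3, h4⟩ | ⟨h3, h4⟩
  · rw [h3, h4]; decide
  · rw [h3, h4]; decide

theorem jac17m {T : Finset ℕ} (hT : ∀ p ∈ T, p.Prime) (h2 : 2 ∉ T) (h17 : 17 ∉ T) :
    jacobiSym (NN T : ℕ) 17 = -1 ↔ ∑ p ∈ T, nu p = 1 := by
  rcases jac17 hT h2 h17 with ⟨h3, h4⟩ | ⟨h3, h4⟩
  · rw [h3, h4]; decide
  · rw [h3, h4]; decide

/-! ### the vectors -/

theorem SS_eq (a b : ℤ) : 4 * SS a b = rr a * rr b + 3 * (cc a * cc b) := by
  unfold SS rr cc
  ring

theorem four_dvd (a : ℤ) : (4 : ℤ) ∣ rr a + cc a :=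
  ⟨(vec1 a).card, by unfold rr cc; ring⟩

theorem q1 (v : V3) : 7 * ip1 v v = (7 * v 0 - 3 * v 1 - 2 * v 2) ^ 2 +
    68 * (v 1 ^ 2 - v 1 * v 2 + 2 * v 2 ^ 2) := by
  unfold ip1
  ring

theorem q2 (v : V3) : 3 * ip2 v v = (3 * v 0 - v 1 - v 2) ^ 2 +
    68 * (v 1 ^ 2 - v 1 * v 2 + v 2 ^ 2) := by
  unfold ip2
  ring

theorem z17a : (68 : ZMod 17) = 0 := by decide

theorem z17b : ∀ s x : ZMod 17, 7 * (s * s) = x ^ 2 → s = 0 := by decide

theorem z17c : ∀ s x : ZMod 17, 3 * (s * s) = x ^ 2 → s = 0 := by decide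

theorem no_vec {n : ℕ} (h : jacobiSym n 17 = 1) : rr n = 0 ∧ cc n = 0 := by
  have : Fact (Nat.Prime 17) := ⟨by norm_num⟩
  rw [← jacobiSym.legendreSym.to_jacobiSym] at h
  have hn0 : ((n : ℤ) : ZMod 17) ≠ 0 := by
    intro h0
    rw [legendreSym.eq_zero_iff 17 n |>.2 h0] at h
    exact zero_ne_one h
  obtain ⟨s, hs⟩ := (legendreSym.eq_one_iff 17 hn0).1 h
  have hs0 : s ≠ 0 := by
    rintro rfl
    rw [mul_zero] at hs
    exact hn0 hs
  have h68 : (68 : ZMod 17) = 0 := z17a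
  have h1 : vec1 n = ∅ := by
    rw [Finset.eq_empty_iff_forall_notMem]
    intro v hv
    unfold vec1 at hv
    have h2 := (mem_filter.1 hv).2
    have h3 := congrArg (Int.cast : ℤ → ZMod 17) (q1 v)
    rw [h2] at h3
    push_cast at h3
    rw [h68, zero_mul, add_zero] at h3
    push_cast at hs
    rw [hs] at h3
    exact hs0 (z17b _ _ h3)
  have h2 : vec2 n = ∅ := by
    rw [Finset.eq_empty_iff_forall_notMem]
    intro v hv
    unfold vec2 at hv
    have h2 := (mem_filter.1 hv).2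
    have h3 := congrArg (Int.cast : ℤ → ZMod 17) (q2 v)
    rw [h2] at h3
    push_cast at h3
    rw [h68, zero_mul, add_zero] at h3
    push_cast at hs
    rw [hs] at h3
    exact hs0 (z17c _ _ h3)
  unfold rr cc
  rw [h1, h2]
  simp

theorem three : rr 3 = 2 ∧ cc 3 = -2 := by
  have h1 : vec1 3 = ∅ := by
    rw [Finset.eq_empty_iff_forall_notMem]
    intro v hv
    unfold vec1 at hv
    have h2 := (mem_filter.1 hv).2
    have h3 := q1 v
    rw [h2] at h3
    have h4 : v 1 ^ 2 - v 1 * v 2 + 2 * v 2 ^ 2 = 0 := by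
      nlinarith [sq_nonneg (7 * v 0 - 3 * v 1 - 2 * v 2), sq_nonneg (v 1 - v 2), sq_nonneg (v 1),
        sq_nonneg (v 2), sq_nonneg (2 * v 1 - v 2)]
    have h5 : v 2 = 0 := by nlinarith [sq_nonneg (2 * v 1 - v 2), sq_nonneg (v 2)]
    have h6 : v 1 = 0 := by rw [h5] at h4; nlinarith [sq_nonneg (v 1)]
    rw [h5, h6] at h3
    have h7 : 49 * v 0 ^ 2 = 21 := by linarith
    omega
  have h2 : vec2 3 = {![1, 0, 0], ![-1, 0, 0]} := by
    ext v
    rw [mem_insert, mem_singleton]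
    constructor
    · intro hv
      unfold vec2 at hv
      have h2 := (mem_filter.1 hv).2
      have h3 := q2 v
      rw [h2] at h3
      have h4 : v 1 ^ 2 - v 1 * v 2 + v 2 ^ 2 = 0 := by
        nlinarith [sq_nonneg (3 * v 0 - v 1 - v 2), sq_nonneg (v 1 - v 2), sq_nonneg (v 1),
          sq_nonneg (v 2), sq_nonneg (2 * v 1 - v 2)]
      have h5 : v 2 = 0 := by nlinarith [sq_nonneg (2 * v 1 - v 2), sq_nonneg (v 2)]
      have h6 : v 1 = 0 := by rw [h5] at h4; nlinarith [sq_nonneg (v 1)]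
      rw [h5, h6] at h3
      have h7 : (v 0 - 1) * (v 0 + 1) = 0 := by linarith
      rcases mul_eq_zero.1 h7 with h8 | h8
      · left
        ext i
        fin_cases i
        · simp; omega
        · simp [h6]
        · simp [h5]
      · right
        ext i
        fin_cases i
        · simp; omega
        · simp [h6]
        · simp [h5]
    · intro hv
      unfold vec2
      rw [mem_filter]
      rcases hv with rfl | rfl
      · refine ⟨?_, by decide⟩
        rw [Fintype.mem_piFinset]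
        intro i
        fin_cases i <;> decide
      · refine ⟨?_, by decide⟩
        rw [Fintype.mem_piFinset]
        intro i
        fin_cases i <;> decide
  unfold rr cc
  rw [h1, h2]
  have : ({![1, 0, 0], ![-1, 0, 0]} : Finset V3).card = 2 := by
    rw [card_pair]
    decide
  rw [this]
  simp

end Pool.Agent.N855.P17
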