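import Pool.Agent.N855.P17.Trans

/-!
# The bilinear relations of the criterion (project P17, helper855)
-/

set_option autoImplicit false
set_option linter.unusedSectionVars false

open Finset

namespace Pool.Agent.N855.P17

section conv

variable {ι : Type} [DecidableEq ι]

/-- the convolution -/
def cv (f g : Finset ι → ZMod 2) (P : Finset ι) : ZMod 2 := ∑ E ∈ P.powerset, f E * g (P \ E)

/-- the restriction to the sets containing `c` -/
def rs (c : ι) (f : Finset ι → ZMod 2) (T : Finset ι) : ZMod 2 := if c ∈ T then f T else 0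

/-- the unit -/
def un1 (T : Finset ι) : ZMod 2 := if T = ∅ then 1 else 0

theorem cv_comm (f g : Finset ι → ZMod 2) : cv f g = cv g f := by
  funext P
  unfold cv
  refine sum_bij' (fun E _ => P \ E) (fun E _ => P \ E) ?_ ?_ ?_ ?_ ?_
  · intro E _
    exact mem_powerset.2 sdiff_subset
  · intro E _
    exact mem_powerset.2 sdiff_subset
  · intro E hE
    exact Finset.sdiff_sdiff_eq_self (mem_powerset.1 hE)
  · intro E hE
    exact Finset.sdiff_sdiff_eq_self (mem_powerset.1 hE)
  · intro E hE
    rw [Finset.sdiff_sdiff_eq_self (mem_powerset.1 hE), mul_comm]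

theorem cv_assoc (f g h : Finset ι → ZMod 2) : cv (cv f g) h = cv f (cv g h) := by
  funext P
  unfold cv
  simp only [sum_mul, mul_sum]
  rw [sum_sigma', sum_sigma']
  refine sum_bij' (fun x _ => ⟨x.2, x.1 \ x.2⟩) (fun x _ => ⟨x.1 ∪ x.2, x.1⟩) ?_ ?_ ?_ ?_ ?_
  · rintro ⟨E, C⟩ h1
    rw [mem_sigma, mem_powerset, mem_powerset] at h1 ⊢
    simp only at h1 ⊢
    exact ⟨h1.2.trans h1.1, sdiff_subset_sdiff h1.1 (Subset.refl C)⟩
  · rintro ⟨C, G⟩ h1
    rw [mem_sigma, mem_powerset, mem_powerset] at h1 ⊢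
    simp only at h1 ⊢
    exact ⟨union_subset h1.1 (h1.2.trans sdiff_subset), subset_union_left⟩
  · rintro ⟨E, C⟩ h1
    rw [mem_sigma, mem_powerset, mem_powerset] at h1
    simp only at h1 ⊢
    rw [union_sdiff_of_subset h1.2]
  · rintro ⟨C, G⟩ h1
    rw [mem_sigma, mem_powerset, mem_powerset] at h1
    simp only at h1 ⊢
    have hd : Disjoint C G := by
      rw [Finset.disjoint_left]
      intro x hx hx2
      exact (mem_sdiff.1 (h1.2 hx2)).2 hx
    have e : (C ∪ G) \ C = G := by
      rw [union_sdiff_left]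
      exact sdiff_eq_self_of_disjoint hd.symm
    rw [e]
  · rintro ⟨E, C⟩ h1
    rw [mem_sigma, mem_powerset, mem_powerset] at h1
    simp only at h1 ⊢
    have e : (P \ C) \ (E \ C) = P \ E := by
      ext x
      simp only [mem_sdiff]
      constructor
      · rintro ⟨⟨h2, h3⟩, h4⟩
        exact ⟨h2, fun h5 => h4 ⟨h5, h3⟩⟩
      · rintro ⟨h2, h3⟩
        exact ⟨⟨h2, fun h5 => h3 (h1.2 h5)⟩, fun h5 => h3 h5.1⟩
    rw [e, mul_assoc]

instance : Std.Associative (cv : (Finset ι → ZMod 2) → (Finset ι → ZMod 2) → _) := ⟨cv_assoc⟩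
instance : Std.Commutative (cv : (Finset ι → ZMod 2) → (Finset ι → ZMod 2) → _) := ⟨cv_comm⟩

theorem cv_un (f : Finset ι → ZMod 2) : cv f un1 = f := by
  funext P
  unfold cv un1
  rw [sum_eq_single P]
  · rw [Finset.sdiff_self, if_pos rfl, mul_one]
  · intro E hE hne
    rw [if_neg, mul_zero]
    intro h
    exact hne (Subset.antisymm (mem_powerset.1 hE) (sdiff_eq_empty_iff_subset.1 h))
  · intro h
    exact absurd (mem_powerset.2 (Subset.refl P)) h

theorem cv_self (f : Finset ι → ZMod 2) : cv f f = fun T => f ∅ * un1 T := by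
  funext P
  by_cases hP : P = ∅
  · subst hP
    unfold cv un1
    simp only [powerset_empty, sum_singleton, if_true, mul_one]
    exact sq2 _
  · obtain ⟨c, hc⟩ := nonempty_iff_ne_empty.2 hP
    unfold un1
    rw [if_neg hP, mul_zero]
    unfold cv
    refine sum_involution (fun E _ => P \ E) ?_ ?_ ?_ ?_
    · intro E hE
      rw [Finset.sdiff_sdiff_eq_self (mem_powerset.1 hE), mul_comm (f (P \ E))]
      exact two0 _
    · intro E hE _ h
      by_cases hcE : c ∈ E
      · have : c ∈ P \ E := by rw [h]; exact hcE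
        exact (mem_sdiff.1 this).2 hcE
      · have : c ∈ P \ E := mem_sdiff.2 ⟨hc, hcE⟩
        rw [h] at this
        exact hcE this
    · intro E _
      exact mem_powerset.2 sdiff_subset
    · intro E hE
      exact Finset.sdiff_sdiff_eq_self (mem_powerset.1 hE)

theorem cv_zero (f : Finset ι → ZMod 2) : cv f (fun _ => 0) = fun _ => 0 := by
  funext P
  unfold cv
  exact sum_eq_zero fun E _ => mul_zero _

theorem cv_smul (f : Finset ι → ZMod 2) (x : ZMod 2) (T : Finset ι) :
    cv (fun T => x * un1 T) f T = x * f T := by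
  have h := congrFun (cv_un f) T
  rw [cv_comm] at h
  rw [← h]
  unfold cv
  rw [mul_sum]
  exact sum_congr rfl fun E _ => by ring

theorem cv_congr {f f' g g' : Finset ι → ZMod 2} {P : Finset ι} (hf : ∀ T ⊆ P, f T = f' T)
    (hg : ∀ T ⊆ P, g T = g' T) : cv f g P = cv f' g' P :=
  sum_congr rfl fun E hE => by rw [hf E (mem_powerset.1 hE), hg (P \ E) sdiff_subset]

theorem cv_add_left (f g h : Finset ι → ZMod 2) (T : Finset ι) :
    cv (fun T => f T + g T) h T = cv f h T + cv g h T := by
  unfold cv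
  rw [← sum_add_distrib]
  exact sum_congr rfl fun E _ => by ring

theorem rs_cv (c : ι) (f g : Finset ι → ZMod 2) (T : Finset ι) :
    rs c (cv f g) T = cv (rs c f) g T + cv f (rs c g) T := by
  unfold rs cv
  simp only
  split_ifs with hc
  · rw [← sum_add_distrib]
    refine sum_congr rfl fun E hE => ?_
    by_cases hcE : c ∈ E
    · rw [if_pos hcE, if_neg fun h => (mem_sdiff.1 h).2 hcE, mul_zero, add_zero]
    · rw [if_neg hcE, if_pos (mem_sdiff.2 ⟨hc, hcE⟩), zero_mul, zero_add]
  · rw [sum_eq_zero, sum_eq_zero, add_zero]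
    · intro E _
      rw [if_neg fun h => hc (mem_sdiff.1 h).1, mul_zero]
    · intro E hE
      rw [if_neg fun h => hc (mem_powerset.1 hE h), zero_mul]

variable {F W : Finset ι → ZMod 2} {a : ι → ZMod 2}

/-- the even part -/
def f0 (a : ι → ZMod 2) (F : Finset ι → ZMod 2) (T : Finset ι) : ZMod 2 :=
  if ∑ p ∈ T, a p = 0 then F T else 0

/-- the odd part -/
def f1 (a : ι → ZMod 2) (F : Finset ι → ZMod 2) (T : Finset ι) : ZMod 2 :=
  if ∑ p ∈ T, a p = 1 then F T else 0

theorem par_sdiff {T B : Finset ι} (hB : B ⊆ T) : ∑ p ∈ T \ B, a p = ∑ p ∈ T, a p + ∑ p ∈ B, a p := by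
  have h := sum_sdiff (f := a) hB
  have h2 := two0 (∑ p ∈ B, a p)
  calc ∑ p ∈ T \ B, a p = (∑ p ∈ T \ B, a p + ∑ p ∈ B, a p) + ∑ p ∈ B, a p -
        (∑ p ∈ B, a p + ∑ p ∈ B, a p) := by ring
    _ = ∑ p ∈ T, a p + ∑ p ∈ B, a p := by rw [h, h2, sub_zero]

theorem z01 (z : ZMod 2) : z = 0 ∨ z = 1 := by revert z; decide

section rel

variable (hF0 : F ∅ = 1) (hF : ∀ P, ∀ c ∈ P, F P = ∑ B ∈ P.powerset, if c ∈ B then W B * F (P \ B) else 0)
  (hW : ∀ B, W B ≠ 0 → ∑ p ∈ B, a p = 1)

include hF hW

theorem rs_fe (c : ι) {z z' : ZMod 2} (hz : z' = z + 1) :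
    rs c (fun T => if ∑ p ∈ T, a p = z then F T else 0) =
      cv (rs c W) (fun T => if ∑ p ∈ T, a p = z' then F T else 0) := by
  subst hz
  funext T
  have hr : ∀ (f : Finset ι → ZMod 2) (B : Finset ι), rs c f B = if c ∈ B then f B else 0 :=
    fun f B => rfl
  have hc' : cv (rs c W) (fun T => if ∑ p ∈ T, a p = z + 1 then F T else 0) T =
      ∑ B ∈ T.powerset, rs c W B * (if ∑ p ∈ T \ B, a p = z + 1 then F (T \ B) else 0) := rfl
  rw [hc', hr]
  by_cases hc : c ∈ T
  · rw [if_pos hc, hF T c hc]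
    by_cases hp : ∑ p ∈ T, a p = z
    · rw [if_pos hp]
      refine sum_congr rfl fun B hB => ?_
      rw [hr]
      by_cases h1 : c ∈ B
      · rw [if_pos h1, if_pos h1]
        by_cases hWB : W B = 0
        · rw [hWB, zero_mul, zero_mul]
        · rw [if_pos]
          rw [par_sdiff (mem_powerset.1 hB), hp, hW B hWB]
      · rw [if_neg h1, if_neg h1, zero_mul]
    · rw [if_neg hp]
      symm
      refine sum_eq_zero fun B hB => ?_
      rw [hr]
      by_cases h1 : c ∈ B
      · rw [if_pos h1]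
        by_cases hWB : W B = 0
        · rw [hWB, zero_mul]
        · rw [if_neg, mul_zero]
          rw [par_sdiff (mem_powerset.1 hB), hW B hWB]
          intro h2
          exact hp (add_right_cancel h2)
      · rw [if_neg h1, zero_mul]
  · rw [if_neg hc]
    symm
    refine sum_eq_zero fun B hB => ?_
    rw [hr, if_neg fun h => hc (mem_powerset.1 hB h), zero_mul]

theorem rs_f1 (c : ι) : rs c (f1 a F) = cv (rs c W) (f0 a F) := rs_fe hF hW c (by decide)

theorem rs_f0 (c : ι) : rs c (f0 a F) = cv (rs c W) (f1 a F) := rs_fe hF hW c (by decide)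

include hF0

theorem cv_f0 : cv (f0 a F) (f0 a F) = un1 := by
  rw [cv_self]
  funext T
  have : f0 a F ∅ = 1 := by
    unfold f0
    rw [sum_empty, if_pos rfl, hF0]
  rw [this, one_mul]

omit hF0 hF hW in
theorem cv_f1 : cv (f1 a F) (f1 a F) = fun _ => 0 := by
  rw [cv_self]
  funext T
  have : f1 a F ∅ = 0 := by
    unfold f1
    rw [sum_empty, if_neg (by decide)]
  rw [this, zero_mul]

/-- the product of the odd and the even part -/
theorem cv_f10 : cv (f1 a F) (f0 a F) = W := by
  funext T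
  by_cases hT : T = ∅
  · subst hT
    unfold cv
    simp only [powerset_empty, sum_singleton]
    have h1 : f1 a F ∅ = 0 := by
      unfold f1
      rw [sum_empty, if_neg (by decide)]
    rw [h1, zero_mul]
    by_contra h
    have := hW ∅ (Ne.symm h)
    rw [sum_empty] at this
    exact absurd this (by decide)
  · obtain ⟨c, hc⟩ := nonempty_iff_ne_empty.2 hT
    have h1 : cv (f1 a F) (f0 a F) T = rs c (cv (f1 a F) (f0 a F)) T := by
      unfold rs
      rw [if_pos hc]
    rw [h1, rs_cv, rs_f1 hF hW, rs_f0 hF hW]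
    have e1 : cv (cv (rs c W) (f0 a F)) (f0 a F) = rs c W := by
      rw [cv_assoc, cv_f0 hF0 hF hW, cv_un]
    have e2 : cv (f1 a F) (cv (rs c W) (f1 a F)) = fun _ => 0 := by
      have : cv (f1 a F) (cv (rs c W) (f1 a F)) = cv (rs c W) (cv (f1 a F) (f1 a F)) := by ac_rfl
      rw [this, cv_f1, cv_zero]
    rw [e1, e2, add_zero]
    unfold rs
    rw [if_pos hc]

/-- **the first relation** -/
theorem rel1 (c : ι) : cv (rs c (f1 a F)) (f1 a F) = cv (rs c W) W := by
  rw [rs_f1 hF hW, cv_assoc, cv_comm (f0 a F), cv_f10 hF0 hF hW]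

/-- **the second relation** -/
theorem rel2 {t : ι} (ht : a t = 1) {P : Finset ι} (htP : t ∉ P) (c : ι) :
    cv (rs c (fun T => if ∑ p ∈ T, a p = 0 then F (insert t T) else 0))
      (fun T => if ∑ p ∈ T, a p = 0 then F (insert t T) else 0) P =
    cv (rs c fun T => W (insert t T)) (fun T => W (insert t T)) P + W {t} * cv (rs c W) W P := by
  set ft : Finset ι → ZMod 2 := fun T => if ∑ p ∈ T, a p = 0 then F (insert t T) else 0 with hft
  set wt : Finset ι → ZMod 2 := fun T => W (insert t T) with hwt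
  have h1 : ∀ T ⊆ P, ft T = cv wt (f0 a F) T := by
    intro T hT
    have htT : t ∉ T := fun h => htP (hT h)
    have h2 : F (insert t T) = ∑ C ∈ T.powerset, W (insert t C) * F (T \ C) := by
      rw [hF (insert t T) t (mem_insert_self t T), sum_powerset_insert htT]
      rw [sum_eq_zero, zero_add]
      · refine sum_congr rfl fun C hC => ?_
        rw [if_pos (mem_insert_self t C)]
        congr 2
        ext x
        simp only [mem_sdiff, mem_insert]
        constructor
        · rintro ⟨h3 | h3, h4⟩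
          · exact absurd (Or.inl h3) h4
          · exact ⟨h3, fun h5 => h4 (Or.inr h5)⟩
        · rintro ⟨h3, h4⟩
          refine ⟨Or.inr h3, ?_⟩
          rintro (h5 | h5)
          · exact htT (h5 ▸ h3)
          · exact h4 h5
      · intro C hC
        rw [if_neg fun h => htT (mem_powerset.1 hC h)]
    have hpar : ∀ C ⊆ T, W (insert t C) ≠ 0 → ∑ p ∈ C, a p = 0 := by
      intro C hC hne
      have h3 := hW _ hne
      rw [sum_insert fun h => htT (hC h), ht] at h3
      have : ∀ z : ZMod 2, 1 + z = 1 → z = 0 := by decide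
      exact this _ h3
    rw [hft]
    simp only
    unfold cv f0
    by_cases hp : ∑ p ∈ T, a p = 0
    · rw [if_pos hp, h2]
      refine sum_congr rfl fun C hC => ?_
      by_cases hne : W (insert t C) = 0
      · rw [hwt]
        simp only
        rw [hne, zero_mul, zero_mul]
      · rw [if_pos]
        rw [par_sdiff (mem_powerset.1 hC), hp, hpar C (mem_powerset.1 hC) hne]
        rfl
    · rw [if_neg hp]
      symm
      refine sum_eq_zero fun C hC => ?_
      by_cases hne : W (insert t C) = 0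
      · rw [hwt]
        simp only
        rw [hne, zero_mul]
      · rw [if_neg, mul_zero]
        rw [par_sdiff (mem_powerset.1 hC), hpar C (mem_powerset.1 hC) hne, add_zero]
        exact hp
  have h3 : ∀ T ⊆ P, rs c ft T = cv (rs c wt) (f0 a F) T + cv wt (cv (rs c W) (f1 a F)) T := by
    intro T hT
    have h4 : rs c ft T = rs c (cv wt (f0 a F)) T := by
      unfold rs
      rw [h1 T hT]
    rw [h4, rs_cv, rs_f0 hF hW]
  rw [cv_congr h3 h1, cv_add_left]
  congr 1
  · have e : cv (cv (rs c wt) (f0 a F)) (cv wt (f0 a F)) =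
        cv (cv (rs c wt) wt) (cv (f0 a F) (f0 a F)) := by ac_rfl
    rw [e, cv_f0 hF0 hF hW, cv_un]
  · have e : cv (cv wt (cv (rs c W) (f1 a F))) (cv wt (f0 a F)) =
        cv (cv wt wt) (cv (rs c W) (cv (f1 a F) (f0 a F))) := by ac_rfl
    rw [e, cv_f10 hF0 hF hW, cv_self, cv_smul]
    congr 1

end rel

end conv

end Pool.Agent.N855.P17
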