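import Mathlib

/-!
# Determinants of symmetric matrices over the field with two elements (project P17, helper855)
-/

set_option autoImplicit false
set_option linter.unusedSectionVars false

open Finset

namespace Pool.Agent.N855.P17

section det

variable {κ : Type} [Fintype κ] [DecidableEq κ]

theorem two0 (x : ZMod 2) : x + x = 0 := by revert x; decide

theorem sq2 (x : ZMod 2) : x * x = x := by revert x; decide

/-- the row and the column of `i` are replaced by those of the identity -/
def cut (M : Matrix κ κ (ZMod 2)) (i : κ) : Matrix κ κ (ZMod 2) :=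
  fun r c => if r = i ∨ c = i then (if r = c then 1 else 0) else M r c

theorem det_row {K : Matrix κ κ (ZMod 2)} {j : κ} (h : ∀ c, K j c = if j = c then 1 else 0) :
    K.det = (cut K j).det := by
  refine Matrix.det_eq_of_forall_row_eq_smul_add_const (fun i => if i = j then 0 else K i j) j
    (if_pos rfl) ?_
  intro i c
  by_cases hi : i = j
  · subst hi
    simp only [if_true, zero_mul, add_zero, cut, true_or]
    exact h c
  · simp only [if_neg hi, cut]
    by_cases hc : c = j
    · subst hc
      simp only [or_true, if_true, if_neg hi, true_or]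
      rw [zero_add, mul_one]
    · have h1 : ¬ (i = j ∨ c = j) := by
        rintro (h | h)
        · exact hi h
        · exact hc h
      rw [if_neg h1]
      simp only [true_or, if_true]
      rw [if_neg (fun h => hc h.symm), mul_zero, add_zero]

theorem cut_transpose (K : Matrix κ κ (ZMod 2)) (j : κ) : cut K.transpose j = (cut K j).transpose := by
  ext r c
  simp only [cut, Matrix.transpose_apply]
  have h1 : (r = j ∨ c = j) ↔ (c = j ∨ r = j) := or_comm
  have h2 : r = c ↔ c = r := eq_comm
  rw [if_congr h1 rfl rfl, if_congr h2 rfl rfl]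

theorem det_col {K : Matrix κ κ (ZMod 2)} {j : κ} (h : ∀ r, K r j = if j = r then 1 else 0) :
    K.det = (cut K j).det := by
  rw [← Matrix.det_transpose K, ← Matrix.det_transpose (cut K j), ← cut_transpose]
  exact det_row fun c => h c

theorem sum_symm {ι : Type} [DecidableEq ι] (s : Finset ι) (f : ι → ι → ZMod 2)
    (hf : ∀ j ∈ s, ∀ k ∈ s, f j k = f k j) : ∑ j ∈ s, ∑ k ∈ s, f j k = ∑ j ∈ s, f j j := by
  induction s using Finset.induction_on with
  | empty => simp
  | insert a s ha ih =>
    rw [sum_insert ha, sum_insert ha, sum_insert ha]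
    have h1 : ∑ j ∈ s, ∑ k ∈ insert a s, f j k = ∑ j ∈ s, f j a + ∑ j ∈ s, ∑ k ∈ s, f j k := by
      rw [← sum_add_distrib]
      exact sum_congr rfl fun j _ => by rw [sum_insert ha]
    have h2 : ∑ j ∈ s, f j a = ∑ j ∈ s, f a j :=
      sum_congr rfl fun j hj => hf j (mem_insert_of_mem hj) a (mem_insert_self a s)
    rw [h1, h2, ih fun j hj k hk => hf j (mem_insert_of_mem hj) k (mem_insert_of_mem hk)]
    have h3 := two0 (∑ j ∈ s, f a j)
    calc f a a + ∑ k ∈ s, f a k + (∑ j ∈ s, f a j + ∑ j ∈ s, f j j)
        = f a a + (∑ j ∈ s, f a j + ∑ j ∈ s, f a j) + ∑ j ∈ s, f j j := by ring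
      _ = f a a + ∑ j ∈ s, f j j := by rw [h3, add_zero]

/-- the matrix with the row and the column of `i` replaced by two unit vectors -/
def dd (M : Matrix κ κ (ZMod 2)) (i j k : κ) : Matrix κ κ (ZMod 2) :=
  (M.updateRow i (Pi.single j 1)).updateCol i (Pi.single k 1)

theorem adj_col (M : Matrix κ κ (ZMod 2)) (i k : κ) :
    M.adjugate i k = (M.updateCol i (Pi.single k 1)).det := by
  have h1 : M.adjugate i k = M.transpose.adjugate k i := by
    rw [← Matrix.adjugate_transpose]
    rfl
  rw [h1, Matrix.adjugate_apply, ← Matrix.det_transpose, Matrix.updateRow_transpose,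
    Matrix.transpose_transpose]

theorem dd_symm {M : Matrix κ κ (ZMod 2)} (hM : ∀ r c, M r c = M c r) {i j k : κ} (hj : j ≠ i)
    (hk : k ≠ i) : (dd M i j k).det = (dd M i k j).det := by
  rw [← Matrix.det_transpose (dd M i j k)]
  congr 1
  ext r c
  simp only [dd, Matrix.transpose_apply, Matrix.updateCol_apply, Matrix.updateRow_apply]
  by_cases hr : r = i
  · subst hr
    by_cases hc : c = r
    · subst hc
      simp only [if_true, Pi.single_apply]
      rw [if_neg hk.symm, if_neg hj.symm]
    · simp only [if_true, if_neg hc]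
  · by_cases hc : c = i
    · subst hc
      simp only [if_true, if_neg hr]
    · simp only [if_neg hr, if_neg hc]
      exact hM c r

theorem dd_diag {M : Matrix κ κ (ZMod 2)} {i j : κ} (hj : j ≠ i) :
    (dd M i j j).det = (cut (cut M i) j).det := by
  have hK : ∀ r c, dd M i j j r c = if c = i then (if r = j then 1 else 0)
      else if r = i then (if c = j then 1 else 0) else M r c := by
    intro r c
    simp only [dd, Matrix.updateCol_apply, Matrix.updateRow_apply, Pi.single_apply]
  have h1 := Matrix.det_permute (Equiv.swap i j) (dd M i j j)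
  have h2 : (((Equiv.Perm.sign (Equiv.swap i j) : ℤˣ) : ℤ) : ZMod 2) = 1 := by
    rw [Equiv.Perm.sign_swap hj.symm]
    rfl
  rw [h2, one_mul] at h1
  rw [← h1]
  set K' := (dd M i j j).submatrix (Equiv.swap i j) id with hK'
  have e1 : ∀ c, K' j c = if j = c then 1 else 0 := by
    intro c
    rw [hK', Matrix.submatrix_apply, Equiv.swap_apply_right, id, hK, if_pos rfl]
    by_cases hc : c = i
    · subst hc
      rw [if_pos rfl, if_neg hj.symm, if_neg hj]
    · rw [if_neg hc]
      exact if_congr eq_comm rfl rfl
  rw [det_row e1]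
  have e2 : ∀ r, cut K' j r i = if i = r then 1 else 0 := by
    intro r
    simp only [cut]
    by_cases hr : r = j
    · subst hr
      simp only [true_or, if_true]
      exact if_congr eq_comm rfl rfl
    · have h3 : ¬ (r = j ∨ i = j) := by
        rintro (h | h)
        · exact hr h
        · exact hj h.symm
      rw [if_neg h3, hK', Matrix.submatrix_apply, id, hK, if_pos rfl]
      by_cases hri : r = i
      · subst hri
        rw [Equiv.swap_apply_left, if_pos rfl, if_pos rfl]
      · rw [Equiv.swap_apply_of_ne_of_ne hri hr, if_neg hr, if_neg (fun h => hri h.symm)]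
  rw [det_col e2]
  congr 1
  ext r c
  simp only [cut]
  by_cases hri : r = i
  · subst hri
    simp
  · by_cases hrj : r = j
    · subst hrj
      simp
    · by_cases hci : c = i
      · subst hci
        simp [hri]
      · by_cases hcj : c = j
        · subst hcj
          simp [hrj]
        · simp only [hri, hrj, hci, hcj, or_false, if_false]
          rw [hK', Matrix.submatrix_apply, id, hK, Equiv.swap_apply_of_ne_of_ne hri hrj, if_neg hci,
            if_neg hri]

/-- **expansion along a row and a column** -/
theorem hf {M : Matrix κ κ (ZMod 2)} (hM : ∀ r c, M r c = M c r) (i : κ) :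
    M.det = M i i * (cut M i).det + ∑ j ∈ univ.erase i, M i j * (cut (cut M i) j).det := by
  rw [Matrix.det_eq_sum_mul_adjugate_row M i, ← add_sum_erase univ _ (mem_univ i)]
  congr 1
  · congr 1
    rw [Matrix.adjugate_apply, det_row (j := i)]
    · congr 1
      ext r c
      simp only [cut]
      by_cases hr : r = i
      · simp [hr]
      · simp only [hr, false_or, Matrix.updateRow_apply, if_false]
    · intro c
      rw [Matrix.updateRow_self, Pi.single_apply]
      exact if_congr eq_comm rfl rfl
  · have h1 : ∀ j ∈ univ.erase i, M i j * M.adjugate j i =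
        ∑ k ∈ univ.erase i, M i j * M i k * (dd M i j k).det := by
      intro j hj
      have hji : j ≠ i := ne_of_mem_erase hj
      rw [Matrix.adjugate_apply, Matrix.det_eq_sum_mul_adjugate_col _ i,
        ← add_sum_erase univ _ (mem_univ i), Matrix.updateRow_self, Pi.single_apply,
        if_neg hji.symm, zero_mul, zero_add, mul_sum]
      refine sum_congr rfl fun k hk => ?_
      have hki : k ≠ i := ne_of_mem_erase hk
      rw [Matrix.updateRow_ne hki, adj_col, hM k i]
      unfold dd
      ring
    rw [sum_congr rfl h1, sum_symm (univ.erase i) (fun j k => M i j * M i k * (dd M i j k).det)]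
    · refine sum_congr rfl fun j hj => ?_
      rw [dd_diag (ne_of_mem_erase hj), sq2]
    · intro j hj k hk
      rw [dd_symm hM (ne_of_mem_erase hj) (ne_of_mem_erase hk)]
      ring

/-- the restriction to a subset, completed by the identity -/
def res (S : Matrix κ κ (ZMod 2)) (I : Finset κ) : Matrix κ κ (ZMod 2) :=
  fun r c => if r ∈ I ∧ c ∈ I then S r c else if r = c then 1 else 0

theorem cut_res (S : Matrix κ κ (ZMod 2)) {I : Finset κ} (i : κ) :
    cut (res S I) i = res S (I.erase i) := by
  ext r c
  simp only [cut, res, mem_erase]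
  by_cases hr : r = i
  · simp [hr]
  · by_cases hc : c = i
    · simp [hc]
    · simp [hr, hc]

theorem hf_res {S : Matrix κ κ (ZMod 2)} (hS : ∀ r c, S r c = S c r) {I : Finset κ} {i : κ}
    (hi : i ∈ I) : (res S I).det = S i i * (res S (I.erase i)).det +
      ∑ j ∈ I.erase i, S i j * (res S ((I.erase i).erase j)).det := by
  have hM : ∀ r c, res S I r c = res S I c r := by
    intro r c
    simp only [res]
    have h1 : (r ∈ I ∧ c ∈ I) ↔ (c ∈ I ∧ r ∈ I) := and_comm
    rw [if_congr h1 (hS r c) (if_congr eq_comm rfl rfl)]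
  rw [hf hM i, cut_res]
  congr 1
  · simp only [res, if_pos (And.intro hi hi)]
  · rw [← sum_subset (erase_subset_erase i (subset_univ I))]
    · refine sum_congr rfl fun j hj => ?_
      rw [cut_res]
      have hjI : j ∈ I := mem_of_mem_erase hj
      have e : res S I i j = S i j := by simp only [res, if_pos (And.intro hi hjI)]
      rw [e]
    · intro j hj hj2
      have hji := ne_of_mem_erase hj
      have hjI : j ∉ I := fun h => hj2 (mem_erase.2 ⟨hji, h⟩)
      have e : res S I i j = 0 := by
        simp only [res, if_neg (fun h : i ∈ I ∧ j ∈ I => hjI h.2), if_neg hji.symm]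
      rw [e, zero_mul]

theorem res_mulVec (S : Matrix κ κ (ZMod 2)) (I : Finset κ) (v : κ → ZMod 2) (r : κ) :
    (res S I).mulVec v r = if r ∈ I then ∑ c ∈ I, S r c * v c else v r := by
  simp only [Matrix.mulVec, dotProduct]
  split_ifs with hr
  · rw [← sum_subset (subset_univ I)]
    · refine sum_congr rfl fun c hc => ?_
      simp only [res, if_pos (And.intro hr hc)]
    · intro c _ hc
      have : r ≠ c := by rintro rfl; exact hc hr
      simp only [res, if_neg (fun h : r ∈ I ∧ c ∈ I => hc h.2), if_neg this, zero_mul]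
  · rw [sum_eq_single r]
    · simp only [res, if_neg (fun h : r ∈ I ∧ r ∈ I => hr h.1), if_true, one_mul]
    · intro c _ hc
      simp only [res, if_neg (fun h : r ∈ I ∧ c ∈ I => hr h.1), if_neg hc.symm, zero_mul]
    · intro h
      exact absurd (mem_univ r) h

/-- solvability -/
theorem res_solve {S : Matrix κ κ (ZMod 2)} {I : Finset κ} (h : (res S I).det ≠ 0)
    (b : κ → ZMod 2) : ∃ v : κ → ZMod 2, ∀ r ∈ I, ∑ c ∈ I, S r c * v c = b r := by
  have hu : IsUnit (res S I).det := isUnit_iff_ne_zero.2 h
  refine ⟨((res S I)⁻¹).mulVec b, fun r hr => ?_⟩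
  have h1 := res_mulVec S I (((res S I)⁻¹).mulVec b) r
  rw [if_pos hr] at h1
  rw [← h1, Matrix.mulVec_mulVec, Matrix.mul_nonsing_inv _ hu, Matrix.one_mulVec]

theorem res_transpose (S : Matrix κ κ (ZMod 2)) (I : Finset κ) :
    (res S.transpose I) = (res S I).transpose := by
  ext r c
  simp only [res, Matrix.transpose_apply]
  have h1 : (r ∈ I ∧ c ∈ I) ↔ (c ∈ I ∧ r ∈ I) := and_comm
  have h2 : r = c ↔ c = r := eq_comm
  rw [if_congr h1 rfl (if_congr h2 rfl rfl)]

theorem det_res_ne {S : Matrix κ κ (ZMod 2)} {I : Finset κ} : (res S I).det ≠ 0 ↔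
    ∀ v : κ → ZMod 2, (∀ r ∈ I, ∑ c ∈ I, S r c * v c = 0) → ∀ r ∈ I, v r = 0 := by
  have hmv := res_mulVec S I
  constructor
  · intro hdet v hv r hr
    by_contra hne
    apply hdet
    rw [← Matrix.exists_mulVec_eq_zero_iff]
    refine ⟨fun c => if c ∈ I then v c else 0, ?_, ?_⟩
    · intro h0
      have := congrFun h0 r
      simp only [if_pos hr, Pi.zero_apply] at this
      exact hne this
    · funext c
      rw [hmv, Pi.zero_apply]
      by_cases hc : c ∈ I
      · rw [if_pos hc, ← hv c hc]
        exact sum_congr rfl fun d hd => by rw [if_pos hd]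
      · rw [if_neg hc, if_neg hc]
  · intro h hdet
    rw [← Matrix.exists_mulVec_eq_zero_iff] at hdet
    obtain ⟨v, hv0, hv⟩ := hdet
    apply hv0
    have h1 : ∀ r, (if r ∈ I then ∑ c ∈ I, S r c * v c else v r) = 0 := by
      intro r
      rw [← hmv, hv]
      rfl
    have h2 : ∀ r ∈ I, v r = 0 := h v fun r hr => by
      have := h1 r
      rwa [if_pos hr] at this
    funext r
    by_cases hr : r ∈ I
    · exact h2 r hr
    · have := h1 r
      rwa [if_neg hr] at this

end det

end Pool.Agent.N855.P17
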