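import Pool.Agent.N855.P17.Par

/-!
# The parity law, even discriminants prime to `17` (project P17, helper855)
-/

set_option autoImplicit false
set_option linter.unusedSectionVars false

open Finset

namespace Pool.Agent.N855.P17

open Pool.Agent.N972.P17 (Cm Cp Cme Cpe Cr Cre SS rr cc vec1 vec2 ip1 ip2 ls al nu LL Sx Sc Sr
  S_U1 S_U3 S_R S_PAR S_SxSc S_U1E S_U3E S_RE S_PARE)
open Pool.Agent.N969.P15 (Qc Qe Ev V3)

theorem sum_split {M : Type} [AddCommMonoid M] {P : Finset ℕ} {c : ℕ} (hc : c ∈ P)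
    (g : Finset ℕ → M) :
    ∑ B ∈ P.powerset, g B = ∑ B ∈ (P.erase c).powerset, (g B + g (P \ B)) := by
  have hcP : c ∉ P.erase c := notMem_erase c P
  have h1 : ∑ B ∈ P.powerset, g B = ∑ B ∈ (P.erase c).powerset, g B +
      ∑ B ∈ (P.erase c).powerset, g (insert c B) := by
    rw [← sum_powerset_insert hcP, insert_erase hc]
  have h2 : ∑ B ∈ (P.erase c).powerset, g (insert c B) =
      ∑ B ∈ (P.erase c).powerset, g (P \ B) := by
    refine sum_bij' (fun B _ => P.erase c \ B) (fun B _ => P.erase c \ B) ?_ ?_ ?_ ?_ ?_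
    · intro E _; exact mem_powerset.2 sdiff_subset
    · intro E _; exact mem_powerset.2 sdiff_subset
    · intro E hE; exact Finset.sdiff_sdiff_eq_self (mem_powerset.1 hE)
    · intro E hE; exact Finset.sdiff_sdiff_eq_self (mem_powerset.1 hE)
    · intro E hE
      rw [mem_powerset] at hE
      congr 1
      ext x
      simp only [mem_insert, mem_sdiff, mem_erase]
      constructor
      · rintro (rfl | h)
        · exact ⟨hc, fun h => h.1.1 rfl⟩
        · exact ⟨mem_of_mem_erase (hE h), fun h' => h'.2 h⟩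
      · rintro ⟨h3, h4⟩
        by_cases hx : x = c
        · exact Or.inl hx
        · right
          by_contra h5
          exact h4 ⟨⟨hx, h3⟩, h5⟩
  rw [h1, h2, sum_add_distrib]

theorem half_sum2 {P : Finset ℕ} {c : ℕ} (hc : c ∈ P) (g : Finset ℕ → ℤ)
    (hg : ∀ B ⊆ P, g (P \ B) = g B) :
    ∑ B ∈ P.powerset, g B = 2 * ∑ B ∈ (P.erase c).powerset, g B := by
  rw [sum_split hc, mul_sum]
  refine sum_congr rfl fun B hB => ?_
  rw [hg B ((mem_powerset.1 hB).trans (erase_subset c P))]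
  ring

/-! ### the numbers -/

/-- the absolute value of the discriminant at `2` -/
def kp (n0 : ℕ) : ℕ := (Pool.Agent.N972.P17.star n0 2).natAbs

/-- the absolute value of the discriminant with the given set of ramified primes -/
def NT (n0 : ℕ) (T : Finset ℕ) : ℕ := if 2 ∈ T then kp n0 * NN (T.erase 2) else NN T

theorem star2 (n0 : ℕ) : (Pool.Agent.N972.P17.star n0 2 = -4 ∧ kp n0 = 4 ∧ al n0 2 = 1) ∨
    (Pool.Agent.N972.P17.star n0 2 = -8 ∧ kp n0 = 8 ∧ al n0 2 = 1) ∨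
    (Pool.Agent.N972.P17.star n0 2 = 8 ∧ kp n0 = 8 ∧ al n0 2 = 0) := by
  have h : Pool.Agent.N972.P17.star n0 2 = -4 ∨ Pool.Agent.N972.P17.star n0 2 = -8 ∨
      Pool.Agent.N972.P17.star n0 2 = 8 := by
    unfold Pool.Agent.N972.P17.star
    rw [if_pos rfl]
    split_ifs
    · exact Or.inl rfl
    · exact Or.inr (Or.inl rfl)
    · exact Or.inr (Or.inr rfl)
  unfold kp al
  rcases h with h | h | h
  · exact Or.inl ⟨h, by rw [h]; rfl, by rw [h]; rfl⟩
  · exact Or.inr (Or.inl ⟨h, by rw [h]; rfl, by rw [h]; rfl⟩)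
  · exact Or.inr (Or.inr ⟨h, by rw [h]; rfl, by rw [h]; rfl⟩)

theorem kp_cases (n0 : ℕ) : kp n0 = 4 ∨ kp n0 = 8 := by
  rcases star2 n0 with h | h | h
  · exact Or.inl h.2.1
  · exact Or.inr h.2.1
  · exact Or.inr h.2.1

theorem NT_in {n0 : ℕ} {T : Finset ℕ} (h : 2 ∈ T) : NT n0 T = kp n0 * NN (T.erase 2) := if_pos h

theorem NT_out {n0 : ℕ} {T : Finset ℕ} (h : 2 ∉ T) : NT n0 T = NN T := if_neg h

section

variable {n0 : ℕ} {T : Finset ℕ} (hT : ∀ p ∈ T, p.Prime) (h2 : 2 ∈ T)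

include hT

theorem hTe : ∀ p ∈ T.erase 2, p.Prime := fun p hp => hT p (mem_of_mem_erase hp)

theorem NT_pos : 0 < NT n0 T := by
  unfold NT
  split_ifs with h
  · refine Nat.mul_pos ?_ (NN_pos (hTe hT))
    rcases kp_cases n0 with h | h <;> omega
  · exact NN_pos hT

theorem NT_pf : (NT n0 T).primeFactors = T := by
  unfold NT
  split_ifs with h
  · have h1 : (NN (T.erase 2)).primeFactors = T.erase 2 := NN_pf (hTe hT)
    have h3 : (kp n0).primeFactors = {2} := by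
      rcases kp_cases n0 with h | h
      · rw [h, show (4 : ℕ) = 2 ^ 2 from rfl, Nat.primeFactors_prime_pow (by norm_num) Nat.prime_two]
      · rw [h, show (8 : ℕ) = 2 ^ 3 from rfl, Nat.primeFactors_prime_pow (by norm_num) Nat.prime_two]
    have h4 : kp n0 ≠ 0 := by rcases kp_cases n0 with h | h <;> omega
    rw [Nat.primeFactors_mul h4 (NN_pos (hTe hT)).ne', h1, h3]
    have : ({2} : Finset ℕ) ∪ T.erase 2 = insert 2 (T.erase 2) := rfl
    rw [this, insert_erase h]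
  · exact NN_pf hT

theorem NT_jac (h17 : 17 ∉ T) : (jacobiSym (NT n0 T : ℕ) 17 = 1 ∧ ∑ p ∈ T, nu p = 0) ∨
      (jacobiSym (NT n0 T : ℕ) 17 = -1 ∧ ∑ p ∈ T, nu p = 1) := by
  by_cases h : 2 ∈ T
  · have h1 := jac17 (hTe hT) (notMem_erase 2 T) fun h => h17 (mem_of_mem_erase h)
    have h3 : jacobiSym (kp n0 : ℕ) 17 = 1 := by
      have h5 : jacobiSym 2 17 = 1 := by
        rw [jacobiSym.at_two (by decide)]
        rfl
      rcases kp_cases n0 with h | h
      · rw [h, show ((4 : ℕ) : ℤ) = 2 ^ 2 by norm_num, jacobiSym.pow_left, h5, one_pow]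
      · rw [h, show ((8 : ℕ) : ℤ) = 2 ^ 3 by norm_num, jacobiSym.pow_left, h5, one_pow]
    have h4 : ∑ p ∈ T, nu p = ∑ p ∈ T.erase 2, nu p := by
      rw [← add_sum_erase T _ h]
      have : nu 2 = 0 := if_pos rfl
      rw [this, zero_add]
    rw [NT_in h, Nat.cast_mul, jacobiSym.mul_left, h3, one_mul, h4]
    exact h1
  · rw [NT_out h]
    exact jac17 hT h h17

theorem NT_jp (h17 : 17 ∉ T) : jacobiSym (NT n0 T : ℕ) 17 = 1 ↔ ∑ p ∈ T, nu p = 0 := by
  rcases NT_jac (n0 := n0) hT h17 with ⟨h3, h4⟩ | ⟨h3, h4⟩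
  · rw [h3, h4]; decide
  · rw [h3, h4]; decide

theorem NT_jm (h17 : 17 ∉ T) : jacobiSym (NT n0 T : ℕ) 17 = -1 ↔ ∑ p ∈ T, nu p = 1 := by
  rcases NT_jac (n0 := n0) hT h17 with ⟨h3, h4⟩ | ⟨h3, h4⟩
  · rw [h3, h4]; decide
  · rw [h3, h4]; decide

omit hT in
theorem al_split (h : 2 ∈ T) : ∑ p ∈ T, al n0 p = al n0 2 + ∑ p ∈ T.erase 2, al n0 p :=
  (add_sum_erase T _ h).symm

theorem cop_odd : Nat.Coprime 2 (NN (T.erase 2)) := by
  refine Nat.Coprime.prod_right fun q hq => ?_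
  rw [Nat.coprime_primes Nat.prime_two (hTe hT q hq)]
  exact (ne_of_mem_erase hq).symm

include h2

/-- the negative discriminants -/
theorem NT_Ev (ha : ∑ p ∈ T, al n0 p = 1) : Ev (NT n0 T) ∧
    ∀ q, Pool.Agent.N972.P17.star (NT n0 T) q = Pool.Agent.N972.P17.star n0 q := by
  have hm := par_mod n0 (hTe hT) (notMem_erase 2 T)
  have hsq := NN_sq (hTe hT)
  rw [al_split h2] at ha
  set u := NN (T.erase 2) with hu
  have e11 : (1 : ZMod 2) + 1 = 0 := rfl
  have h01 : (0 : ZMod 2) ≠ 1 := zero_ne_one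
  have hstar : ∀ v : ℤ, Pool.Agent.N972.P17.star (NT n0 T) 2 = v →
      Pool.Agent.N972.P17.star n0 2 = v →
      ∀ q, Pool.Agent.N972.P17.star (NT n0 T) q = Pool.Agent.N972.P17.star n0 q := by
    intro v h3 h4 q
    by_cases hq : q = 2
    · rw [hq, h3, h4]
    · rw [star_odd _ hq, star_odd _ hq]
  rcases star2 n0 with ⟨h3, h4, h5⟩ | ⟨h3, h4, h5⟩ | ⟨h3, h4, h5⟩
  · have hu1 : u % 4 = 1 := by
      rcases hm with ⟨h6, _⟩ | ⟨_, h7⟩
      · exact h6
      · rw [h5, h7, e11] at ha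
        exact absurd ha h01
    refine ⟨⟨u, by rw [NT_in h2, h4], hsq, Or.inl hu1⟩, hstar (-4) ?_ h3⟩
    unfold Pool.Agent.N972.P17.star
    rw [if_pos rfl, if_pos]
    rw [NT_in h2, h4]
    omega
  · have hu1 : u % 4 = 1 := by
      rcases hm with ⟨h6, _⟩ | ⟨_, h7⟩
      · exact h6
      · rw [h5, h7, e11] at ha
        exact absurd ha h01
    refine ⟨⟨2 * u, by rw [NT_in h2, h4]; ring, ?_, Or.inr (by omega)⟩, hstar (-8) ?_ h3⟩
    · rw [Nat.squarefree_mul_iff]
      exact ⟨cop_odd hT, Nat.prime_two.squarefree, hsq⟩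
    · unfold Pool.Agent.N972.P17.star
      rw [if_pos rfl, if_neg, if_pos]
      · rw [NT_in h2, h4]
        omega
      · rw [NT_in h2, h4]
        omega
  · have hu1 : u % 4 = 3 := by
      rcases hm with ⟨_, h7⟩ | ⟨h6, _⟩
      · rw [h5, h7, add_zero] at ha
        exact absurd ha h01
      · exact h6
    refine ⟨⟨2 * u, by rw [NT_in h2, h4]; ring, ?_, Or.inr (by omega)⟩, hstar 8 ?_ h3⟩
    · rw [Nat.squarefree_mul_iff]
      exact ⟨cop_odd hT, Nat.prime_two.squarefree, hsq⟩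
    · unfold Pool.Agent.N972.P17.star
      rw [if_pos rfl, if_neg, if_neg]
      · rw [NT_in h2, h4]
        omega
      · rw [NT_in h2, h4]
        omega

/-- the positive discriminants -/
theorem NT_pos_disc (ha : ∑ p ∈ T, al n0 p = 0) : ∃ k1 : ℕ, (k1 = 1 ∨ k1 = 2) ∧ kp n0 = 4 * k1 ∧
    Squarefree (k1 * NN (T.erase 2)) ∧
      ((k1 * NN (T.erase 2)) % 4 = 2 ∨ (k1 * NN (T.erase 2)) % 4 = 3) := by
  have hm := par_mod n0 (hTe hT) (notMem_erase 2 T)
  have hsq := NN_sq (hTe hT)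
  rw [al_split h2] at ha
  have hco := cop_odd hT
  set u := NN (T.erase 2) with hu
  have h01 : (1 : ZMod 2) ≠ 0 := one_ne_zero
  have h2u : Squarefree (2 * u) := by
    rw [Nat.squarefree_mul_iff]
    exact ⟨hco, Nat.prime_two.squarefree, hsq⟩
  rcases star2 n0 with ⟨h3, h4, h5⟩ | ⟨h3, h4, h5⟩ | ⟨h3, h4, h5⟩
  · refine ⟨1, Or.inl rfl, h4, by rw [one_mul]; exact hsq, Or.inr ?_⟩
    rw [one_mul]
    rcases hm with ⟨_, h7⟩ | ⟨h6, _⟩
    · rw [h5, h7, add_zero] at ha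
      exact absurd ha h01
    · exact h6
  · refine ⟨2, Or.inr rfl, h4, h2u, Or.inl ?_⟩
    rcases hm with ⟨h6, _⟩ | ⟨h6, _⟩ <;> omega
  · refine ⟨2, Or.inr rfl, h4, h2u, Or.inl ?_⟩
    rcases hm with ⟨h6, _⟩ | ⟨h6, _⟩ <;> omega

end

/-! ### the left kernels -/

theorem J4 {p : ℕ} (hp : Odd p) : jacobiSym (-4) p = if p % 4 = 1 then 1 else -1 := by
  have h1 : jacobiSym (-4) p = ZMod.χ₄ p * jacobiSym 4 p := by
    rw [← jacobiSym.neg 4 hp]
  have h2 : jacobiSym 4 p = 1 := by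
    rw [show (4 : ℤ) = 2 ^ 2 by norm_num, jacobiSym.pow_left]
    have h3 : Int.gcd 2 (p : ℤ) = 1 := by
      have h5 : Nat.gcd 2 p = 1 := Nat.Coprime.symm (Nat.coprime_two_right.2 hp)
      exact (Int.gcd_natCast_natCast 2 p).trans h5
    exact jacobiSym.sq_one h3
  rw [h1, h2, mul_one, ZMod.χ₄_nat_eq_if_mod_four]
  have h4 := Nat.odd_iff.1 hp
  rw [if_neg (by omega)]

theorem J2 {p : ℕ} (hp : Odd p) : jacobiSym 2 p = if p % 8 = 1 ∨ p % 8 = 7 then 1 else -1 := by
  rw [jacobiSym.at_two hp, ZMod.χ₈_nat_eq_if_mod_eight]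
  have h4 := Nat.odd_iff.1 hp
  rw [if_neg (by omega)]

theorem J8 {p : ℕ} (hp : Odd p) : jacobiSym 8 p = if p % 8 = 1 ∨ p % 8 = 7 then 1 else -1 := by
  rw [show (8 : ℤ) = 2 ^ 3 by norm_num, jacobiSym.pow_left, J2 hp]
  split_ifs <;> norm_num

theorem J8m {p : ℕ} (hp : Odd p) : jacobiSym (-8) p = if p % 8 = 1 ∨ p % 8 = 3 then 1 else -1 := by
  have h1 : jacobiSym (-8) p = ZMod.χ₄ p * jacobiSym 8 p := by
    rw [← jacobiSym.neg 8 hp]
  have h4 := Nat.odd_iff.1 hp
  rw [h1, J8 hp, ZMod.χ₄_nat_eq_if_mod_four, if_neg (by omega)]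
  have h5 : p % 8 = 1 ∨ p % 8 = 3 ∨ p % 8 = 5 ∨ p % 8 = 7 := by omega
  rcases h5 with h | h | h | h
  · rw [if_pos (by omega), if_pos (by omega), if_pos (by omega)]; norm_num
  · rw [if_neg (by omega), if_neg (by omega), if_pos (by omega)]; norm_num
  · rw [if_pos (by omega), if_neg (by omega), if_neg (by omega)]; norm_num
  · rw [if_neg (by omega), if_pos (by omega), if_neg (by omega)]; norm_num

theorem ls_two (n0 : ℕ) {p : ℕ} (hp : p.Prime) (hp2 : p ≠ 2) :
    ls n0 p 2 = if p % 8 = 1 ∨ p % 8 = 7 then 0 else 1 := by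
  have h4 := Nat.odd_iff.1 (hp.odd_of_ne_two hp2)
  unfold ls
  rw [if_pos rfl, star_odd n0 hp2]
  have h5 : p % 8 = 1 ∨ p % 8 = 3 ∨ p % 8 = 5 ∨ p % 8 = 7 := by omega
  rcases h5 with h | h | h | h
  · rw [if_pos (by omega : p % 4 = 1), if_pos (by omega), if_pos (by omega)]
  · rw [if_neg (by omega : ¬ p % 4 = 1), if_neg (by omega), if_neg (by omega)]
  · rw [if_pos (by omega : p % 4 = 1), if_neg (by omega), if_neg (by omega)]
  · rw [if_neg (by omega : ¬ p % 4 = 1), if_pos (by omega), if_pos (by omega)]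

theorem recip2 (n0 : ℕ) (h8 : Pool.Agent.N972.P17.star n0 2 ≠ -4) {p : ℕ} (hp : p.Prime)
    (hp2 : p ≠ 2) : ls n0 2 p + ls n0 p 2 = al n0 p * al n0 2 := by
  have hodd := hp.odd_of_ne_two hp2
  have h4 := Nat.odd_iff.1 hodd
  rw [ls_two n0 hp hp2, ls_odd n0 hp2, al_odd n0 hp hp2]
  have e11 : (1 : ZMod 2) + 1 = 0 := rfl
  have h5 : p % 8 = 1 ∨ p % 8 = 3 ∨ p % 8 = 5 ∨ p % 8 = 7 := by omega
  rcases star2 n0 with ⟨h3, _, _⟩ | ⟨h3, _, h7⟩ | ⟨h3, _, h7⟩
  · exact absurd h3 h8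
  · rw [h3, h7, J8m hodd]
    rcases h5 with h | h | h | h
    · rw [if_pos (by omega : p % 8 = 1 ∨ p % 8 = 3), if_pos rfl,
        if_pos (by omega : p % 8 = 1 ∨ p % 8 = 7), if_pos (by omega : p % 4 = 1)]
      norm_num
    · rw [if_pos (by omega : p % 8 = 1 ∨ p % 8 = 3), if_pos rfl,
        if_neg (by omega : ¬ (p % 8 = 1 ∨ p % 8 = 7)), if_neg (by omega : ¬ p % 4 = 1)]
      norm_num
    · rw [if_neg (by omega : ¬ (p % 8 = 1 ∨ p % 8 = 3)), if_neg (by norm_num),
        if_neg (by omega : ¬ (p % 8 = 1 ∨ p % 8 = 7)), if_pos (by omega : p % 4 = 1), e11, zero_mul]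
    · rw [if_neg (by omega : ¬ (p % 8 = 1 ∨ p % 8 = 3)), if_neg (by norm_num),
        if_pos (by omega : p % 8 = 1 ∨ p % 8 = 7), if_neg (by omega : ¬ p % 4 = 1)]
      norm_num
  · rw [h3, h7, J8 hodd, mul_zero]
    rcases h5 with h | h | h | h
    · rw [if_pos (by omega : p % 8 = 1 ∨ p % 8 = 7), if_pos rfl,
        if_pos (by omega : p % 8 = 1 ∨ p % 8 = 7)]
      norm_num
    · rw [if_neg (by omega : ¬ (p % 8 = 1 ∨ p % 8 = 7)), if_neg (by norm_num),
        if_neg (by omega : ¬ (p % 8 = 1 ∨ p % 8 = 7)), e11]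
    · rw [if_neg (by omega : ¬ (p % 8 = 1 ∨ p % 8 = 7)), if_neg (by norm_num),
        if_neg (by omega : ¬ (p % 8 = 1 ∨ p % 8 = 7)), e11]
    · rw [if_pos (by omega : p % 8 = 1 ∨ p % 8 = 7), if_pos rfl,
        if_pos (by omega : p % 8 = 1 ∨ p % 8 = 7)]
      norm_num

theorem ls_m4 {n0 : ℕ} (h4 : Pool.Agent.N972.P17.star n0 2 = -4) {p : ℕ} (hp : p.Prime)
    (hp2 : p ≠ 2) : ls n0 2 p = al n0 p := by
  have hodd := hp.odd_of_ne_two hp2
  rw [ls_odd n0 hp2, al_odd n0 hp hp2, h4, J4 hodd]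
  split_ifs with h1 h2 h3
  · rfl
  · exact absurd rfl h2
  · norm_num at h3
  · rfl

/-- the left kernels of all sets of primes -/
theorem HC_gen (n0 : ℕ) {Ω : Finset ℕ} (hΩ : ∀ p ∈ Ω, p.Prime) (ν : ℕ → ZMod 2) (hν : ν 2 = 0) :
    HC (fun p q => ls n0 q p) ν (al n0) Ω := by
  intro B hB ha r hr hr0
  have hBp : ∀ p ∈ B, p.Prime := fun p hp => hΩ p (hB hp)
  by_cases h4 : Pool.Agent.N972.P17.star n0 2 = -4
  · by_cases h2 : 2 ∈ B
    · have hr2 : r ≠ 2 := by
        rintro rfl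
        exact hr0 hν
      refine ⟨fun p => if p = 2 then 0 else 1, if_neg hr2, fun q hq => ?_⟩
      have ha2 : al n0 2 = 1 := by
        unfold al
        rw [h4]
        rfl
      have haB : ∑ p ∈ B.erase 2, al n0 p = 0 := by
        rw [al_split h2, ha2] at ha
        have : ∀ z : ZMod 2, 1 + z = 1 → z = 0 := by decide
        exact this _ ha
      have e1 : ∑ p ∈ B, (if p = 2 then (0 : ZMod 2) else 1) * Lm (fun p q => ls n0 q p) B p q =
          ∑ p ∈ B.erase 2, Lm (fun p q => ls n0 q p) B p q := by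
        rw [← add_sum_erase B _ h2, if_pos rfl, zero_mul, zero_add]
        exact sum_congr rfl fun p hp => by rw [if_neg (ne_of_mem_erase hp), one_mul]
      rw [e1]
      by_cases hq2 : q = 2
      · subst hq2
        have e2 : ∑ p ∈ B.erase 2, Lm (fun p q => ls n0 q p) B p 2 = ∑ p ∈ B.erase 2, al n0 p := by
          refine sum_congr rfl fun p hp => ?_
          unfold Lm
          rw [if_neg (ne_of_mem_erase hp)]
          exact ls_m4 h4 (hTe hBp p hp) (ne_of_mem_erase hp)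
        rw [e2, haB]
      · have hqp := hBp q hq
        have hqe : q ∈ B.erase 2 := mem_erase.2 ⟨hq2, hq⟩
        have h2e : 2 ∈ B.erase q := mem_erase.2 ⟨fun h => hq2 h.symm, h2⟩
        have hcomm : (B.erase q).erase 2 = (B.erase 2).erase q := erase_right_comm
        rw [← add_sum_erase (B.erase 2) _ hqe]
        have e3 : Lm (fun p q => ls n0 q p) B q q = ls n0 2 q +
            ∑ r ∈ (B.erase 2).erase q, ls n0 r q := by
          unfold Lm
          rw [if_pos rfl, ← add_sum_erase (B.erase q) _ h2e, hcomm]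
        have e4 : ∑ p ∈ (B.erase 2).erase q, Lm (fun p q => ls n0 q p) B p q =
            ∑ p ∈ (B.erase 2).erase q, (ls n0 p q + al n0 q * al n0 p) := by
          refine sum_congr rfl fun p hp => ?_
          have hpq := ne_of_mem_erase hp
          have hp2 := ne_of_mem_erase (mem_of_mem_erase hp)
          have hpp := hBp p (mem_of_mem_erase (mem_of_mem_erase hp))
          unfold Lm
          rw [if_neg hpq]
          have h5 := recip n0 hpp hqp hp2 hq2 hpq
          have h6 := two0 (ls n0 p q)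
          calc ls n0 q p = (ls n0 q p + ls n0 p q) + ls n0 p q - (ls n0 p q + ls n0 p q) := by ring
            _ = ls n0 p q + al n0 q * al n0 p := by rw [h5, h6]; ring
        rw [e3, e4, sum_add_distrib, ← mul_sum, ls_m4 h4 hqp hq2]
        rw [← add_sum_erase (B.erase 2) _ hqe] at haB
        have h7 : ∑ p ∈ (B.erase 2).erase q, al n0 p = al n0 q := by
          have : ∀ x y : ZMod 2, x + y = 0 → y = x := by decide
          exact this _ _ haB
        rw [h7]
        have h8 := two0 (∑ r ∈ (B.erase 2).erase q, ls n0 r q)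
        have h9 : ∀ x : ZMod 2, x + x * x = 0 := by decide
        calc al n0 q + ∑ r ∈ (B.erase 2).erase q, ls n0 r q +
            (∑ r ∈ (B.erase 2).erase q, ls n0 r q + al n0 q * al n0 q) =
            (al n0 q + al n0 q * al n0 q) + (∑ r ∈ (B.erase 2).erase q, ls n0 r q +
              ∑ r ∈ (B.erase 2).erase q, ls n0 r q) := by ring
          _ = 0 := by rw [h9, h8, add_zero]
    · refine ⟨fun _ => 1, rfl, fun q hq => ?_⟩
      simp only [one_mul]
      refine Lm_col _ (al n0) ?_ ha hq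
      intro p hp q hq hne
      exact recip n0 (hBp p hp) (hBp q hq) (fun h => h2 (h ▸ hp)) (fun h => h2 (h ▸ hq)) hne
  · refine ⟨fun _ => 1, rfl, fun q hq => ?_⟩
    simp only [one_mul]
    refine Lm_col _ (al n0) ?_ ha hq
    intro p hp q hq hne
    by_cases hp2 : p = 2
    · subst hp2
      have h5 := recip2 n0 h4 (hBp q hq) (Ne.symm hne)
      rw [add_comm, h5, mul_comm]
    · by_cases hq2 : q = 2
      · subst hq2
        exact recip2 n0 h4 (hBp p hp) hne
      · exact recip n0 (hBp p hp) (hBp q hq) hp2 hq2 hne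

end Pool.Agent.N855.P17
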