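import Pool.Agent.N855.P17.Sys

/-!
# The expansion of the criterion over the subsets (project P17, helper855)

`Fs l ν a P` says that the symmetric system `[[N, L], [Lᵀ, A]]` of the set `P` over the field with two
elements is nonsingular. For `c ∈ P` the number of the subsets `B` of `P` with `c ∈ B`, with
`∑ a = ∑ ν = 1` and such that the kernel of the matrix `L` of `B` consists of the constants, and
with `Fs l ν a (P \ B)`, is odd if and only if `Fs l ν a P`.
-/

set_option autoImplicit false
set_option linter.unusedSectionVars false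

open Finset

namespace Pool.Agent.N855.P17

section exp

variable {ι : Type} [DecidableEq ι] {R : Type} [CommRing R] {C : ZMod 2 →+* R} {y : ι → R}
  {a : ι → ZMod 2} {Φ : Finset ι → R →+ ZMod 2}

/-- an affine form -/
def af (C : ZMod 2 →+* R) (y : ι → R) (c : ZMod 2) (m : ι → ZMod 2) (J : Finset ι) : R :=
  C c + ∑ j ∈ J, C (m j) * y j

theorem Ph_af (hC : ∀ T c r, Φ T (C c * r) = c * Φ T r)
    (hY : ∀ T j r, Φ T (y j * r) = if j ∈ T then Φ (T.erase j) r else 0) (c : ZMod 2)
    (m : ι → ZMod 2) (J T : Finset ι) (r : R) : Φ T (af C y c m J * r) =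
      c * Φ T r + ∑ j ∈ J, m j * (if j ∈ T then Φ (T.erase j) r else 0) := by
  unfold af
  rw [add_mul, map_add, hC, sum_mul, map_sum]
  congr 1
  refine sum_congr rfl fun j _ => ?_
  rw [mul_assoc, hC, hY]

/-- a product of forms in other variables -/
theorem Ph_other (h1 : ∀ T, Φ T 1 = ∏ j ∈ T, a j) (hC : ∀ T c r, Φ T (C c * r) = c * Φ T r)
    (hY : ∀ T j r, Φ T (y j * r) = if j ∈ T then Φ (T.erase j) r else 0) (c : ι → ZMod 2)
    (m : ι → ι → ZMod 2) (J T : Finset ι) (hTJ : Disjoint T J) (S : Finset ι) :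
    ∀ T' : Finset ι, Disjoint T T' → Φ (T ∪ T') (∏ i ∈ S, af C y (c i) (m i) J) =
      (∏ j ∈ T, a j) * Φ T' (∏ i ∈ S, af C y (c i) (m i) J) := by
  induction S using Finset.induction_on with
  | empty =>
    intro T' hd
    rw [prod_empty, h1, h1, prod_union hd]
  | insert i S hi ih =>
    intro T' hd
    rw [prod_insert hi, Ph_af hC hY, Ph_af hC hY, ih T' hd, mul_add, mul_sum]
    congr 1
    · ring
    · refine sum_congr rfl fun j hj => ?_
      have hjT : j ∉ T := fun h => Finset.disjoint_left.1 hTJ h hj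
      have hiff : j ∈ T ∪ T' ↔ j ∈ T' := by
        rw [mem_union]
        exact or_iff_right hjT
      rw [if_congr hiff rfl rfl]
      split_ifs with hjT'
      · have e : (T ∪ T').erase j = T ∪ T'.erase j := by
          ext x
          simp only [mem_erase, mem_union]
          constructor
          · rintro ⟨h3, h4 | h4⟩
            · exact Or.inl h4
            · exact Or.inr ⟨h3, h4⟩
          · rintro (h4 | h4)
            · exact ⟨fun h => hjT (h ▸ h4), Or.inl h4⟩
            · exact ⟨h4.1, Or.inr h4.2⟩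
        rw [e, ih (T'.erase j) (Finset.disjoint_of_subset_right (erase_subset j T') hd)]
        ring
      · ring

/-- multiplicativity -/
theorem Ph_mul (h1 : ∀ T, Φ T 1 = ∏ j ∈ T, a j) (hC : ∀ T c r, Φ T (C c * r) = c * Φ T r)
    (hY : ∀ T j r, Φ T (y j * r) = if j ∈ T then Φ (T.erase j) r else 0) (c c' : ι → ZMod 2)
    (m m' : ι → ι → ZMod 2) (J J' : Finset ι) (hJ : Disjoint J J') (S S' : Finset ι) :
    ∀ T : Finset ι, Disjoint T J' →
    Φ (T ∪ J') ((∏ i ∈ S, af C y (c i) (m i) J) * ∏ i ∈ S', af C y (c' i) (m' i) J') =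
      Φ T (∏ i ∈ S, af C y (c i) (m i) J) * Φ J' (∏ i ∈ S', af C y (c' i) (m' i) J') := by
  induction S using Finset.induction_on with
  | empty =>
    intro T hd
    rw [prod_empty, one_mul, h1]
    exact Ph_other h1 hC hY c' m' J' T hd S' J' hd
  | insert i S hi ih =>
    intro T hd
    rw [prod_insert hi, mul_assoc, Ph_af hC hY, Ph_af hC hY, ih T hd, add_mul, sum_mul]
    congr 1
    · ring
    · refine sum_congr rfl fun j hj => ?_
      have hjJ : j ∉ J' := fun h => Finset.disjoint_left.1 hJ hj h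
      have hiff : j ∈ T ∪ J' ↔ j ∈ T := by
        rw [mem_union]
        exact or_iff_left hjJ
      rw [if_congr hiff rfl rfl]
      split_ifs with hjT
      · have e : (T ∪ J').erase j = T.erase j ∪ J' := by
          ext x
          simp only [mem_erase, mem_union]
          constructor
          · rintro ⟨h3, h4 | h4⟩
            · exact Or.inl ⟨h3, h4⟩
            · exact Or.inr h4
          · rintro (h4 | h4)
            · exact ⟨h4.1, Or.inl h4.2⟩
            · exact ⟨fun h => hjJ (h ▸ h4), Or.inr h4⟩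
        rw [e, ih (T.erase j) (Finset.disjoint_of_subset_left (erase_subset j T) hd)]
        ring
      · ring

variable [Fintype ι]

/-- the functional is the determinant -/
theorem Ph_hd (h1 : ∀ T, Φ T 1 = ∏ j ∈ T, a j) (hC : ∀ T c r, Φ T (C c * r) = c * Φ T r)
    (hY : ∀ T j r, Φ T (y j * r) = if j ∈ T then Φ (T.erase j) r else 0) (ν : ι → ZMod 2)
    (L : ι → ι → ZMod 2) (J S : Finset ι) : ∀ T ⊆ J,
    Φ T (∏ i ∈ S, af C y (ν i) (L i) J) = hd L ν a S T := by
  induction S using Finset.induction_on with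
  | empty =>
    intro T _
    rw [prod_empty, h1, hd_empty]
  | insert i S hi ih =>
    intro T hT
    rw [prod_insert hi, Ph_af hC hY, hd_rec L ν a (mem_insert_self i S), erase_insert hi, ih T hT]
    congr 1
    rw [← sum_subset hT]
    · refine sum_congr rfl fun j hj => ?_
      rw [if_pos hj, ih (T.erase j) ((erase_subset j T).trans hT)]
    · intro j _ hj
      rw [if_neg hj, mul_zero]

omit [Fintype ι] in
/-- the linear form as an affine form -/
theorem lam_af (h2 : ∀ x : R, x + x = 0) (l : ι → ι → ZMod 2) (c : ZMod 2) {T : Finset ι} {i : ι}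
    (hi : i ∈ T) : C c + lam y (fun i j => C (l i j)) T i = af C y c (Lm l T i) T := by
  unfold af lam
  congr 1
  rw [← add_sum_erase T _ hi, ← add_sum_erase T (fun j => C (Lm l T i j) * y j) hi, h2, mul_zero,
    zero_add]
  simp only [Lm, if_true]
  rw [map_sum, sum_mul, ← sum_add_distrib]
  refine sum_congr rfl fun j hj => ?_
  rw [if_neg (ne_of_mem_erase hj).symm]
  ring

open Classical in
/-- the indicator -/
noncomputable def ind (p : Prop) : ZMod 2 := if p then 1 else 0

theorem ind_pos {p : Prop} (h : p) : ind p = 1 := if_pos h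

theorem ind_neg {p : Prop} (h : ¬ p) : ind p = 0 := if_neg h

theorem ind_ne (x : ZMod 2) : ind (x ≠ 0) = x := by
  have : ∀ z : ZMod 2, z = 0 ∨ z = 1 := by decide
  rcases this x with h | h
  · rw [h]
    exact ind_neg fun h => h rfl
  · rw [h]
    exact ind_pos one_ne_zero

theorem ind_congr {p q : Prop} (h : p ↔ q) : ind p = ind q := by rw [propext h]

/-- the weight of a block -/
noncomputable def Wb (l : ι → ι → ZMod 2) (ν a : ι → ZMod 2) (B : Finset ι) : ZMod 2 :=
  ind (∑ p ∈ B, a p = 1 ∧ ∑ p ∈ B, ν p = 1 ∧ Ts l B)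

/-- **the expansion of the criterion** -/
theorem star_c (l : ι → ι → ZMod 2) (ν a : ι → ZMod 2) (P : Finset ι)
    (hcol : HC l ν a P) {c : ι} (hc : c ∈ P) :
    ind (Fs l ν a P) = ∑ B ∈ P.powerset, if c ∈ B then Wb l ν a B * ind (Fs l ν a (P \ B))
      else 0 := by
  obtain ⟨R, _, C, y, Φ, h2, hy, h1, hC, hY⟩ := exists_ring a
  have hG : ∀ T, GG y (fun i => C (ν i)) (fun i j => C (l i j)) T =
      ∏ i ∈ T, af C y (ν i) (Lm l T i) T := fun T => prod_congr rfl fun i hi => lam_af h2 l (ν i) hi
  have hGF : ∀ T, Φ T (GG y (fun i => C (ν i)) (fun i j => C (l i j)) T) = ind (Fs l ν a T) := by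
    intro T
    rw [hG, Ph_hd h1 hC hY ν (Lm l T) T T T (Subset.refl T), ind_congr (Fs_iff l ν a T), ind_ne]
  have hmain := expansion h2 hy P.card P rfl (fun i => C (ν i)) (fun i j => C (l i j)) c hc
  rw [← hGF, hmain, map_sum]
  refine sum_congr rfl fun B hB => ?_
  rw [mem_powerset] at hB
  split_ifs with hcB
  · have hlam : ∀ r ∈ B, ∏ i ∈ B.erase r, lam y (fun i j => C (l i j)) B i =
        ∏ i ∈ B.erase r, af C y 0 (Lm l B i) B := by
      intro r _
      refine prod_congr rfl fun i hi => ?_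
      rw [← lam_af h2 l 0 (mem_of_mem_erase hi), map_zero, zero_add]
    have hPB : P = B ∪ (P \ B) := (union_sdiff_of_subset hB).symm
    have hval : Φ P (XX y (fun i => C (ν i)) (fun i j => C (l i j)) B *
        GG y (fun i => C (ν i)) (fun i j => C (l i j)) (P \ B)) =
        ∑ r ∈ B, ν r * (hd (Lm l B) (fun _ => 0) a (B.erase r) B * ind (Fs l ν a (P \ B))) := by
      unfold XX
      rw [sum_mul, map_sum]
      refine sum_congr rfl fun r hr => ?_
      rw [mul_assoc, hC, hlam r hr, hG]
      congr 1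
      have h3 := Ph_mul h1 hC hY (fun _ => 0) ν (Lm l B) (Lm l (P \ B)) B (P \ B) disjoint_sdiff
        (B.erase r) (P \ B) B disjoint_sdiff
      rw [← hPB] at h3
      rw [h3, Ph_hd h1 hC hY (fun _ => 0) (Lm l B) B (B.erase r) B (Subset.refl B), ← hG, hGF]
    rw [hval]
    have hval2 : ∀ r ∈ B, ν r ≠ 0 → hd (Lm l B) (fun _ => 0) a (B.erase r) B =
        ind (∑ p ∈ B, a p = 1 ∧ Ts l B) := by
      intro r hr hν
      rw [← ind_ne (hd (Lm l B) (fun _ => 0) a (B.erase r) B)]
      exact ind_congr (T_iff' l a hr fun ha => hcol B hB ha r hr hν)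
    have hval3 : ∑ r ∈ B, ν r * (hd (Lm l B) (fun _ => 0) a (B.erase r) B *
        ind (Fs l ν a (P \ B))) = (∑ r ∈ B, ν r) * (ind (∑ p ∈ B, a p = 1 ∧ Ts l B) *
          ind (Fs l ν a (P \ B))) := by
      rw [sum_mul]
      refine sum_congr rfl fun r hr => ?_
      by_cases hν : ν r = 0
      · rw [hν, zero_mul, zero_mul]
      · rw [hval2 r hr hν]
    rw [hval3, ← mul_assoc]
    congr 1
    unfold Wb
    have hz : ∀ z : ZMod 2, z = 0 ∨ z = 1 := by decide
    rcases hz (∑ r ∈ B, ν r) with h | h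
    · rw [h, zero_mul]
      symm
      apply ind_neg
      rintro ⟨-, h5, -⟩
      exact zero_ne_one h5
    · rw [h, one_mul]
      apply ind_congr
      constructor
      · rintro ⟨h5, h6⟩
        exact ⟨h5, rfl, h6⟩
      · rintro ⟨h5, -, h6⟩
        exact ⟨h5, h6⟩
  · exact map_zero _

theorem star (l : ι → ι → ZMod 2) (ν a : ι → ZMod 2) (P : Finset ι)
    (hrec : ∀ p ∈ P, ∀ q ∈ P, p ≠ q → l p q + l q p = a p * a q) {c : ι} (hc : c ∈ P) :
    ind (Fs l ν a P) = ∑ B ∈ P.powerset, if c ∈ B then Wb l ν a B * ind (Fs l ν a (P \ B))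
      else 0 := star_c l ν a P (HC_rec ν hrec) hc

end exp

end Pool.Agent.N855.P17
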