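import Pool.Agent.N855.P17.Even

/-!
# The parity law for all discriminants prime to `17` (project P17, helper855)
-/

set_option autoImplicit false
set_option linter.unusedSectionVars false

open Finset

namespace Pool.Agent.N855.P17

open Pool.Agent.N972.P17 (Cm Cp Cme Cpe Cr Cre SS rr cc vec1 vec2 ip1 ip2 ls al nu LL Sx Sc Sr
  S_U1 S_U3 S_R S_PAR S_SxSc S_U1E S_U3E S_RE S_PARE)
open Pool.Agent.N969.P15 (Qc Qe Ev V3)

theorem NT_insert (n0 : ℕ) {T : Finset ℕ} {t : ℕ} (ht2 : t ≠ 2) (ht : t ∉ T) :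
    NT n0 (insert t T) = t * NT n0 T := by
  by_cases h : 2 ∈ T
  · have h1 : (insert t T).erase 2 = insert t (T.erase 2) := erase_insert_of_ne ht2
    rw [NT_in h, NT_in (mem_insert_of_mem h), h1,
      NN_insert fun h' => ht (mem_of_mem_erase h')]
    ring
  · have h1 : 2 ∉ insert t T := by
      rw [mem_insert, not_or]
      exact ⟨fun h' => ht2 h'.symm, h⟩
    rw [NT_out h, NT_out h1, NN_insert ht]

theorem filt_div {k1 u r : ℕ} (hk : k1 = 1 ∨ k1 = 2) (hr : r = 1 ∨ r = 3) (hu : 0 < u) :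
    (k1 * u).divisors.filter (fun d => d % 4 = r) = u.divisors.filter (fun d => d % 4 = r) := by
  rcases hk with rfl | rfl
  · rw [one_mul]
  · ext d
    rw [mem_filter, mem_filter, Nat.mem_divisors, Nat.mem_divisors]
    constructor
    · rintro ⟨⟨h1, _⟩, h3⟩
      refine ⟨⟨?_, hu.ne'⟩, h3⟩
      have hco : Nat.Coprime d 2 := by
        rw [Nat.coprime_two_right, Nat.odd_iff]
        omega
      exact hco.dvd_of_dvd_mul_left h1
    · rintro ⟨⟨h1, _⟩, h3⟩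
      exact ⟨⟨Dvd.dvd.mul_left h1 2, by omega⟩, h3⟩

/-- the sum over the odd divisors -/
theorem even_sum {M : Type} [AddCommMonoid M] (n0 : ℕ) {P : Finset ℕ} (hP : ∀ p ∈ P, p.Prime)
    (h2 : 2 ∈ P) {k1 r : ℕ} (hk : k1 = 1 ∨ k1 = 2) (hk4 : kp n0 = 4 * k1) (hr : r = 1 ∨ r = 3)
    (G : ℕ → ℕ → M) :
    ∑ d ∈ (k1 * NN (P.erase 2)).divisors.filter (fun d => d % 4 = r),
      G d (4 * ((k1 * NN (P.erase 2)) / d)) =
    ∑ B ∈ (P.erase 2).powerset, if NN B % 4 = r then G (NT n0 B) (NT n0 (P \ B)) else 0 := by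
  have hPe := hTe hP
  rw [filt_div hk hr (NN_pos hPe), sum_filter, div_sum hPe]
  refine sum_congr rfl fun B hB => ?_
  rw [mem_powerset] at hB
  have h2B : 2 ∉ B := fun h => notMem_erase 2 P (hB h)
  have e1 : NT n0 B = NN B := NT_out h2B
  have e2 : NT n0 (P \ B) = 4 * ((k1 * NN (P.erase 2)) / NN B) := by
    have h3 : (P \ B).erase 2 = P.erase 2 \ B := (erase_sdiff_comm P B 2).symm
    have h4 : NN B ∣ NN (P.erase 2) := ⟨NN (P.erase 2 \ B), by rw [mul_comm, NN_sdiff hB]⟩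
    rw [NT_in (mem_sdiff.2 ⟨h2, h2B⟩), h3, Nat.mul_div_assoc _ h4, NN_div hPe hB, hk4]
    ring
  rw [e1, e2]

theorem ne4 {n : ℕ} (h : jacobiSym n 17 = -1) : n ≠ 4 := by
  rintro rfl
  have h6 : jacobiSym 2 17 = 1 := by
    rw [jacobiSym.at_two (by decide)]
    rfl
  rw [show ((4 : ℕ) : ℤ) = 2 ^ 2 by norm_num, jacobiSym.pow_left, h6, one_pow] at h
  norm_num at h

section even

variable (n0 : ℕ) {P : Finset ℕ} (hP : ∀ p ∈ P, p.Prime) (h2 : 2 ∈ P) (h17 : 17 ∉ P)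

include hP h2 h17

theorem Cpe_of (ha : ∑ p ∈ P, al n0 p = 0) (hν : ∑ p ∈ P, nu p = 0) :
    ∃ k1 : ℕ, (k1 = 1 ∨ k1 = 2) ∧ kp n0 = 4 * k1 ∧ Cpe (k1 * NN (P.erase 2)) ∧
      4 * (k1 * NN (P.erase 2)) = NT n0 P := by
  obtain ⟨k1, hk, hk4, hsq, hmod⟩ := NT_pos_disc (n0 := n0) hP h2 ha
  have e : 4 * (k1 * NN (P.erase 2)) = NT n0 P := by rw [NT_in h2, hk4]; ring
  refine ⟨k1, hk, hk4, ⟨hsq, hmod, ?_⟩, e⟩
  have h1 := (NT_jp (n0 := n0) hP h17).2 hν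
  rw [← e, Nat.cast_mul, jacobiSym.mul_left] at h1
  have h5 : jacobiSym ((4 : ℕ) : ℤ) 17 = 1 := by
    have h6 : jacobiSym 2 17 = 1 := by
      rw [jacobiSym.at_two (by decide)]
      rfl
    rw [show ((4 : ℕ) : ℤ) = 2 ^ 2 by norm_num, jacobiSym.pow_left, h6, one_pow]
  rwa [h5, one_mul] at h1

theorem HU1_even (hU1 : S_U1E) (ha : ∑ p ∈ P, al n0 p = 0) (hν : ∑ p ∈ P, nu p = 0) :
    (2 : ℤ) ^ (P.card + 1) ∣ ∑ B ∈ P.powerset,
      if ∑ p ∈ B, al n0 p = 1 then SS (NT n0 B) (NT n0 (P \ B)) else 0 := by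
  obtain ⟨k1, hk, hk4, hcp, he⟩ := Cpe_of n0 hP h2 h17 ha hν
  have h3 := hU1 _ hcp
  rw [he, NT_pf hP, even_sum n0 hP h2 hk hk4 (Or.inr rfl) (fun d m => SS (d : ℕ) (m : ℕ))] at h3
  rw [half_sum2 h2, pow_succ, mul_comm]
  · refine mul_dvd_mul_left 2 ?_
    rw [sum_congr rfl fun B hB => ?_]
    · exact h3
    · rw [mem_powerset] at hB
      have hB' : ∀ p ∈ B, p.Prime := fun p hp => hTe hP p (hB hp)
      exact if_congr (mod3_iff n0 hB' fun h => notMem_erase 2 P (hB h)).symm rfl rfl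
  · intro B hB
    rw [par_sdiff hB, ha, zero_add, Finset.sdiff_sdiff_eq_self hB]
    refine if_congr Iff.rfl ?_ rfl
    have h4 := SS_eq (NT n0 B) (NT n0 (P \ B))
    have h5 := SS_eq (NT n0 (P \ B)) (NT n0 B)
    linarith [mul_comm (rr (NT n0 B)) (rr (NT n0 (P \ B))),
      mul_comm (cc (NT n0 B)) (cc (NT n0 (P \ B)))]

theorem HU3_even (hU3 : S_U3E) (h3P : 3 ∉ P) (ha : ∑ p ∈ P, al n0 p = 0)
    (hν : ∑ p ∈ P, nu p = 0) :
    (2 : ℤ) ^ (P.card + 2) ∣ ∑ B ∈ P.powerset, if ∑ p ∈ B, al n0 p = 0 then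
      SS (NT n0 (insert 3 B)) (NT n0 (insert 3 (P \ B))) else
        - (rr (NT n0 B) * rr (NT n0 (P \ B))) := by
  obtain ⟨k1, hk, hk4, hcp, he⟩ := Cpe_of n0 hP h2 h17 ha hν
  have h3 : ¬ 3 ∣ k1 * NN (P.erase 2) := by
    intro h
    apply h3P
    rw [← NT_pf (n0 := n0) hP, Nat.mem_primeFactors]
    refine ⟨Nat.prime_three, ?_, (NT_pos hP).ne'⟩
    rw [← he]
    exact Dvd.dvd.mul_left h 4
  have h4 := hU3 _ hcp h3
  rw [he, NT_pf hP, even_sum n0 hP h2 hk hk4 (Or.inl rfl)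
    (fun d m => SS (3 * d : ℕ) (3 * m : ℕ)),
    even_sum n0 hP h2 hk hk4 (Or.inr rfl) (fun d m => rr (d : ℕ) * rr (m : ℕ)),
    ← sum_sub_distrib] at h4
  rw [half_sum2 h2, pow_succ, mul_comm]
  · refine mul_dvd_mul_left 2 ?_
    rw [sum_congr rfl fun B hB => ?_]
    · exact h4
    · rw [mem_powerset] at hB
      have hB' : ∀ p ∈ B, p.Prime := fun p hp => hTe hP p (hB hp)
      have hBP : B ⊆ P := hB.trans (erase_subset 2 P)
      have h3B : 3 ∉ B := fun h => h3P (hBP h)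
      have h3B' : 3 ∉ P \ B := fun h => h3P (mem_sdiff.1 h).1
      rw [NT_insert n0 (by norm_num) h3B, NT_insert n0 (by norm_num) h3B']
      rcases par_mod n0 hB' (fun h => notMem_erase 2 P (hB h)) with ⟨h5, h6⟩ | ⟨h5, h6⟩
      · rw [h5, h6, if_pos rfl, if_pos rfl, if_neg (by norm_num), sub_zero]
      · rw [h5, h6, if_neg (by decide), if_neg (by norm_num), if_pos rfl, zero_sub]
  · intro B hB
    rw [par_sdiff hB, ha, zero_add, Finset.sdiff_sdiff_eq_self hB]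
    have h4 := SS_eq (NT n0 (insert 3 B)) (NT n0 (insert 3 (P \ B)))
    have h5 := SS_eq (NT n0 (insert 3 (P \ B))) (NT n0 (insert 3 B))
    refine if_congr Iff.rfl ?_ ?_
    · linarith [mul_comm (rr (NT n0 (insert 3 B))) (rr (NT n0 (insert 3 (P \ B)))),
        mul_comm (cc (NT n0 (insert 3 B))) (cc (NT n0 (insert 3 (P \ B))))]
    · rw [mul_comm]

theorem HR_even (hR : S_RE)
    (hTQ : ∀ n : ℕ, Ev n → n ≠ 4 → (Ts (fun p q => ls n q p) n.primeFactors ↔ Qe n))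
    (ha : ∑ p ∈ P, al n0 p = 1) (hν : ∑ p ∈ P, nu p = 1) :
    ∃ g : ℤ, rr (NT n0 P) = 2 ^ P.card * g ∧ (Odd g ↔ Ts (fun p q => ls n0 q p) P) := by
  obtain ⟨hev, hst⟩ := NT_Ev (n0 := n0) hP h2 ha
  have hcm : Cme (NT n0 P) := ⟨hev, (NT_jm hP h17).2 hν⟩
  have hls : ∀ q p, ls (NT n0 P) q p = ls n0 q p := by
    intro q p
    unfold ls
    rw [hst]
  have hTs : Ts (fun p q => ls (NT n0 P) q p) P ↔ Ts (fun p q => ls n0 q p) P :=
    Ts_congr fun p _ q _ _ => hls q p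
  have hq := hTQ _ hev (ne4 hcm.2)
  rw [NT_pf hP, hTs] at hq
  obtain ⟨g, hg1, hg2⟩ := hR _ hcm
  rw [NT_pf hP] at hg1
  refine ⟨3 * g, by rw [hg1]; ring, ?_⟩
  rw [hq, ← hg2, Int.odd_mul]
  exact and_iff_right (by decide)

end even

/-- the coefficients `r` -/
theorem Co_of {Ω : Finset ℕ} {l : ℕ → ℕ → ZMod 2} {ν a : ℕ → ZMod 2} {r : Finset ℕ → ℤ}
    (hz : ∀ T ⊆ Ω, ∑ p ∈ T, a p = 1 → ∑ p ∈ T, ν p = 0 → r T = 0)
    (hR : ∀ T ⊆ Ω, ∑ p ∈ T, a p = 1 → ∑ p ∈ T, ν p = 1 →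
      ∃ g : ℤ, r T = 2 ^ T.card * g ∧ (Odd g ↔ Ts l T)) :
    ∀ T ⊆ Ω, ∑ p ∈ T, a p = 1 → Co r (WW Ω l ν a) T := by
  intro T hT haT
  rcases z01 (∑ p ∈ T, ν p) with h | h
  · refine ⟨0, by rw [hz T hT haT h, mul_zero], ?_⟩
    by_contra h2
    have h3 := (WW_ne (Ne.symm (by simpa using h2) : WW Ω l ν a T ≠ 0)).2
    rw [h] at h3
    exact zero_ne_one h3
  · obtain ⟨g, hg1, hg2⟩ := hR T hT haT h
    refine ⟨g, hg1, ?_⟩
    rw [odd_cast, ind_congr hg2]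
    unfold WW Wb
    rw [if_pos hT]
    exact ind_congr ⟨fun h4 => ⟨haT, h, h4⟩, fun h4 => h4.2.2⟩

/-- the hypotheses for the discriminants prime to `17` -/
structure Hyp (Ω : Finset ℕ) : Prop where
  U1 : S_U1
  U3 : S_U3
  R : S_R
  TQ : ∀ n : ℕ, Squarefree n → n % 4 = 3 → (Ts (fun p q => ls n q p) n.primeFactors ↔ Qc n)
  U1E : 2 ∈ Ω → S_U1E
  U3E : 2 ∈ Ω → S_U3E
  RE : 2 ∈ Ω → S_RE
  TQE : ∀ n : ℕ, Ev n → n ≠ 4 → (Ts (fun p q => ls n q p) n.primeFactors ↔ Qe n)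

theorem HZ_gen (n0 : ℕ) {T : Finset ℕ} (hT : ∀ p ∈ T, p.Prime) (h17 : 17 ∉ T)
    (hν : ∑ p ∈ T, nu p = 0) : rr (NT n0 T) = 0 ∧ cc (NT n0 T) = 0 :=
  no_vec ((NT_jp hT h17).2 hν)

theorem HR_gen {Ω : Finset ℕ} (H : Hyp Ω) (hΩ : ∀ p ∈ Ω, p.Prime) (h17 : 17 ∉ Ω) (n0 : ℕ)
    {T : Finset ℕ} (hT : T ⊆ Ω) (ha : ∑ p ∈ T, al n0 p = 1) (hν : ∑ p ∈ T, nu p = 1) :
    ∃ g : ℤ, rr (NT n0 T) = 2 ^ T.card * g ∧ (Odd g ↔ Ts (fun p q => ls n0 q p) T) := by
  have hTp : ∀ p ∈ T, p.Prime := fun p hp => hΩ p (hT hp)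
  by_cases h2 : 2 ∈ T
  · exact HR_even n0 hTp h2 (fun h => h17 (hT h)) (H.RE (hT h2)) H.TQE ha hν
  · rw [NT_out h2]
    exact HR_odd H.R H.TQ n0 hTp h2 (fun h => h17 (hT h)) ha hν

theorem Cr_gen {Ω : Finset ℕ} (H : Hyp Ω) (hΩ : ∀ p ∈ Ω, p.Prime) (h17 : 17 ∉ Ω) (n0 : ℕ) :
    ∀ T ⊆ Ω, ∑ p ∈ T, al n0 p = 1 →
      Co (fun T => rr (NT n0 T)) (WW Ω (fun p q => ls n0 q p) nu (al n0)) T :=
  Co_of (fun _ hT _ hν => (HZ_gen n0 (fun p hp => hΩ p (hT hp)) (fun h => h17 (hT h)) hν).1)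
    (fun _ hT ha hν => HR_gen H hΩ h17 n0 hT ha hν)

/-- the induction for all discriminants prime to `17` -/
theorem par_gen {Ω : Finset ℕ} (H : Hyp Ω) (hΩ : ∀ p ∈ Ω, p.Prime) (h17 : 17 ∉ Ω) (h3 : 3 ∈ Ω)
    (n0 : ℕ) : ∀ T ⊆ Ω, ∑ p ∈ T, al n0 p = 1 →
      Co (fun T => cc (NT n0 T)) (FF Ω (fun p q => ls n0 q p) nu (al n0)) T := by
  have hcol : HC (fun p q => ls n0 q p) nu (al n0) Ω := HC_gen n0 hΩ nu (if_pos rfl)
  have hN3 : NT n0 {3} = 3 := by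
    rw [NT_out (by decide)]
    exact prod_singleton _ _
  refine par_abs hcol h3 (al3 n0) nu3 (fun T => rr (NT n0 T)) (fun T => cc (NT n0 T))
    (fun B B' => SS (NT n0 B) (NT n0 B')) (fun B B' => SS_eq _ _) ?_ ?_ ?_ ?_ ?_ ?_
  · rw [hN3, Nat.cast_ofNat]; exact three.1
  · rw [hN3, Nat.cast_ofNat]; exact three.2
  · intro T hT _ hν
    exact HZ_gen n0 (fun p hp => hΩ p (hT hp)) (fun h => h17 (hT h)) hν
  · intro T hT ha hν
    exact HR_gen H hΩ h17 n0 hT ha hν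
  · intro P hP hne ha hν
    have hPp : ∀ p ∈ P, p.Prime := fun p hp => hΩ p (hP hp)
    by_cases h2 : 2 ∈ P
    · exact HU1_even n0 hPp h2 (fun h => h17 (hP h)) (H.U1E (hP h2)) ha hν
    · have h1 := HU1_odd H.U1 n0 hPp h2 (fun h => h17 (hP h)) hne ha hν
      rw [sum_congr rfl fun B hB => ?_]
      · exact h1
      · rw [mem_powerset] at hB
        rw [NT_out fun h => h2 (hB h), NT_out fun h => h2 (mem_sdiff.1 h).1]
  · intro P hP hne h3P ha hν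
    have hPp : ∀ p ∈ P, p.Prime := fun p hp => hΩ p (hP hp)
    by_cases h2 : 2 ∈ P
    · exact HU3_even n0 hPp h2 (fun h => h17 (hP h)) (H.U3E (hP h2)) h3P ha hν
    · have h1 := HU3_odd H.U3 n0 hPp h2 (fun h => h17 (hP h)) h3P hne ha hν
      rw [sum_congr rfl fun B hB => ?_]
      · exact h1
      · rw [mem_powerset] at hB
        have hi : ∀ X : Finset ℕ, X ⊆ P → 2 ∉ insert 3 X := by
          intro X hX h
          rcases mem_insert.1 h with h | h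
          · norm_num at h
          · exact h2 (hX h)
        rw [NT_out fun h => h2 (hB h), NT_out fun h => h2 (mem_sdiff.1 h).1,
          NT_out (hi B hB), NT_out (hi _ sdiff_subset)]

theorem Ev_NT {n : ℕ} (h : Ev n) : 2 ∈ n.primeFactors ∧ NT n n.primeFactors = n ∧
    ∑ p ∈ n.primeFactors, al n p = 1 := by
  obtain ⟨m, rfl, hsq, hm⟩ := h
  have key : ∀ κ u : ℕ, (κ = 4 ∨ κ = 8) → u % 2 = 1 → Squarefree u → 4 * m = κ * u →
      kp (4 * m) = κ → al (4 * m) 2 + ∑ p ∈ u.primeFactors, al (4 * m) p = 1 →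
      2 ∈ (4 * m).primeFactors ∧ NT (4 * m) (4 * m).primeFactors = 4 * m ∧
        ∑ p ∈ (4 * m).primeFactors, al (4 * m) p = 1 := by
    intro κ u hκ hu husq he hkp hal
    have hκ2 : κ.primeFactors = {2} := by
      rcases hκ with rfl | rfl
      · rw [show (4 : ℕ) = 2 ^ 2 from rfl, Nat.primeFactors_prime_pow (by norm_num) Nat.prime_two]
      · rw [show (8 : ℕ) = 2 ^ 3 from rfl, Nat.primeFactors_prime_pow (by norm_num) Nat.prime_two]
    have hpf : (4 * m).primeFactors = insert 2 u.primeFactors := by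
      rw [he, Nat.primeFactors_mul (by omega) husq.ne_zero, hκ2]
      rfl
    have h2u : 2 ∉ u.primeFactors := by
      intro h
      have := Nat.dvd_of_mem_primeFactors h
      omega
    have h2 : 2 ∈ (4 * m).primeFactors := by
      rw [hpf]
      exact mem_insert_self _ _
    refine ⟨h2, ?_, ?_⟩
    · have hNu : NN u.primeFactors = u := Nat.prod_primeFactors_of_squarefree husq
      rw [NT_in h2, hkp, hpf, erase_insert h2u, hNu, he]
    · rw [hpf, sum_insert h2u]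
      exact hal
  have hst : ∀ v : ℤ, Pool.Agent.N972.P17.star (4 * m) 2 = v → kp (4 * m) = v.natAbs ∧
      al (4 * m) 2 = if v < 0 then 1 else 0 := by
    intro v hv
    unfold kp al
    rw [hv]
    exact ⟨rfl, rfl⟩
  have hsum : ∀ u : ℕ, Squarefree u → u % 2 = 1 →
      (u % 4 = 1 ∧ ∑ p ∈ u.primeFactors, al (4 * m) p = 0) ∨
      (u % 4 = 3 ∧ ∑ p ∈ u.primeFactors, al (4 * m) p = 1) := by
    intro u hu hu2
    have h2u : 2 ∉ u.primeFactors := by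
      intro h
      have := Nat.dvd_of_mem_primeFactors h
      omega
    have h1 := par_mod (4 * m) (T := u.primeFactors)
      (fun p hp => Nat.prime_of_mem_primeFactors hp) h2u
    have hNu : NN u.primeFactors = u := Nat.prod_primeFactors_of_squarefree hu
    rwa [hNu] at h1
  rcases hm with hm | hm
  · have h4 : Pool.Agent.N972.P17.star (4 * m) 2 = -4 := by
      unfold Pool.Agent.N972.P17.star
      rw [if_pos rfl, if_pos (by omega)]
    obtain ⟨h5, h6⟩ := hst _ h4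
    refine key 4 m (Or.inl rfl) (by omega) hsq rfl h5 ?_
    rcases hsum m hsq (by omega) with ⟨_, h7⟩ | ⟨h7, _⟩
    · rw [h6, h7]; rfl
    · omega
  · obtain ⟨u, rfl⟩ : 2 ∣ m := by omega
    have husq : Squarefree u := Squarefree.squarefree_of_dvd (Dvd.intro_left 2 rfl) hsq
    rcases hsum u husq (by omega) with ⟨h7, h8⟩ | ⟨h7, h8⟩
    · have h4 : Pool.Agent.N972.P17.star (4 * (2 * u)) 2 = -8 := by
        unfold Pool.Agent.N972.P17.star
        rw [if_pos rfl, if_neg (by omega), if_pos (by omega)]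
      obtain ⟨h5, h6⟩ := hst _ h4
      refine key 8 u (Or.inr rfl) (by omega) husq (by ring) h5 ?_
      rw [h6, h8]; rfl
    · have h4 : Pool.Agent.N972.P17.star (4 * (2 * u)) 2 = 8 := by
        unfold Pool.Agent.N972.P17.star
        rw [if_pos rfl, if_neg (by omega), if_neg (by omega)]
      obtain ⟨h5, h6⟩ := hst _ h4
      refine key 8 u (Or.inr rfl) (by omega) husq (by ring) h5 ?_
      rw [h6, h8]; rfl

theorem not17 {n : ℕ} (h : jacobiSym n 17 = -1) : 17 ∉ n.primeFactors := by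
  intro h1
  have h5 := Nat.dvd_of_mem_primeFactors h1
  have h6 : jacobiSym n 17 = 0 := by
    rw [jacobiSym.eq_zero_iff_not_coprime]
    rw [Int.gcd_natCast_natCast]
    intro h7
    have := Nat.dvd_gcd h5 (dvd_refl 17)
    rw [h7] at this
    norm_num at this
  rw [h6] at h
  norm_num at h

theorem odd_ind {y : ℤ} {p : Prop} (h : (y : ZMod 2) = ind p) : Odd y ↔ p := by
  rw [odd_cast] at h
  by_cases h5 : p
  · refine iff_of_true ?_ h5
    by_contra h6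
    rw [ind_pos h5, ind_neg h6] at h
    exact zero_ne_one h
  · refine iff_of_false ?_ h5
    intro h6
    rw [ind_neg h5, ind_pos h6] at h
    exact one_ne_zero h

/-- **PARE** -/
theorem t_PARE' (hU1 : S_U1) (hU3 : S_U3) (hR : S_R) (hU1E : S_U1E) (hU3E : S_U3E) (hRE : S_RE)
    (hTQ : ∀ n : ℕ, Squarefree n → n % 4 = 3 → (Ts (fun p q => ls n q p) n.primeFactors ↔ Qc n))
    (hTQE : ∀ n : ℕ, Ev n → n ≠ 4 → (Ts (fun p q => ls n q p) n.primeFactors ↔ Qe n)) :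
    S_PARE := by
  intro n hn
  have h17n : 17 ∉ n.primeFactors := not17 hn.2
  obtain ⟨h2, hNT, hal⟩ := Ev_NT hn.1
  have hH : Hyp (insert 3 n.primeFactors) :=
    ⟨hU1, hU3, hR, hTQ, fun _ => hU1E, fun _ => hU3E, fun _ => hRE, hTQE⟩
  obtain ⟨y, hy1, hy2⟩ := par_gen hH (by
    intro p hp
    rcases mem_insert.1 hp with rfl | hp
    · exact Nat.prime_three
    · exact Nat.prime_of_mem_primeFactors hp) (by
    rw [mem_insert]
    rintro (h | h)
    · norm_num at h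
    · exact h17n h) (mem_insert_self _ _) n n.primeFactors (subset_insert _ _) hal
  simp only [hNT] at hy1
  refine ⟨y, hy1, ?_⟩
  unfold FF at hy2
  rw [if_pos (subset_insert _ _), ind_congr (Fs_Sx n)] at hy2
  exact odd_ind hy2

end Pool.Agent.N855.P17
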