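import Pool.Agent.N855.P17.Conv

/-!
# The abstract induction (project P17, helper855)

From bilinear divisibilities over the subsets of a set of primes to the parity of the coefficients.
-/

set_option autoImplicit false
set_option linter.unusedSectionVars false

open Finset

namespace Pool.Agent.N855.P17

section ind

variable {ι : Type} [DecidableEq ι]

theorem half_sum {P : Finset ι} {c : ι} (hc : c ∈ P) (g : Finset ι → ℤ)
    (hg : ∀ B ⊆ P, g (P \ B) = g B) :
    ∑ B ∈ P.powerset, g B = 2 * ∑ B ∈ P.powerset, if c ∈ B then g B else 0 := by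
  have h1 : ∑ B ∈ P.powerset, g B = ∑ B ∈ P.powerset, (if c ∈ B then g B else 0) +
      ∑ B ∈ P.powerset, (if c ∈ B then 0 else g B) := by
    rw [← sum_add_distrib]
    refine sum_congr rfl fun B _ => ?_
    split_ifs <;> simp
  have h2 : ∑ B ∈ P.powerset, (if c ∈ B then 0 else g B) =
      ∑ B ∈ P.powerset, (if c ∈ B then g B else 0) := by
    refine sum_bij' (fun E _ => P \ E) (fun E _ => P \ E) ?_ ?_ ?_ ?_ ?_
    · intro E _; exact mem_powerset.2 sdiff_subset
    · intro E _; exact mem_powerset.2 sdiff_subset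
    · intro E hE; exact Finset.sdiff_sdiff_eq_self (mem_powerset.1 hE)
    · intro E hE; exact Finset.sdiff_sdiff_eq_self (mem_powerset.1 hE)
    · intro E hE
      by_cases h : c ∈ E
      · rw [if_pos h, if_neg fun h' => (mem_sdiff.1 h').2 h]
      · rw [if_neg h, if_pos (mem_sdiff.2 ⟨hc, h⟩), hg E (mem_powerset.1 hE)]
  rw [h1, h2]; ring

theorem key {k : ℕ} {G0 c z : ℤ}
    (h : (2 : ℤ) ^ (k + 2) ∣ 2 * (2 ^ k * G0) - 6 * c + 2 ^ (k + 1) * z) :
    ∃ y : ℤ, c = 2 ^ k * y ∧ (y : ZMod 2) = G0 + z := by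
  obtain ⟨w, hw⟩ := h
  have h3 : 3 * c = 2 ^ k * (G0 + z - 2 * w) := by
    have h2 : (2 : ℤ) * (3 * c) = 2 * (2 ^ k * (G0 + z - 2 * w)) := by
      rw [pow_succ, pow_succ] at hw
      linear_combination -hw
    exact mul_left_cancel₀ two_ne_zero h2
  have hd : (2 : ℤ) ^ k ∣ c := by
    have h2 : (2 : ℤ) ^ k ∣ 3 * c := ⟨_, h3⟩
    have hco : IsCoprime (2 : ℤ) 3 := by norm_num
    exact (hco.pow_left).dvd_of_dvd_mul_left h2
  obtain ⟨y, hy⟩ := hd
  refine ⟨y, hy, ?_⟩
  have h4 : 3 * y = G0 + z - 2 * w := by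
    have h2 : (2 : ℤ) ^ k * (3 * y) = 2 ^ k * (G0 + z - 2 * w) := by rw [← h3, hy]; ring
    exact mul_left_cancel₀ (pow_ne_zero _ two_ne_zero) h2
  have h5 := congrArg (Int.cast : ℤ → ZMod 2) h4
  push_cast at h5
  have e3 : (3 : ZMod 2) = 1 := rfl
  have e2 : (2 : ZMod 2) = 0 := rfl
  rw [e3, e2, one_mul, zero_mul, sub_zero] at h5
  exact h5

/-- one step of the induction -/
theorem step {α : Type} [DecidableEq α] (I : Finset α) {i0 : α} (hi0 : i0 ∈ I) (S : α → ℤ) {k : ℕ}
    {G0 c : ℤ} (e : ℤ) (h0 : 4 * S i0 = 2 * (2 ^ k * G0) - 6 * c) (w f : α → ZMod 2)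
    (hS : ∀ i ∈ I, i ≠ i0 → ∃ x : ℤ, 4 * S i = 2 ^ (k + 1) * x ∧ (x : ZMod 2) = w i + f i)
    (hG : (G0 : ZMod 2) = w i0)
    (hd : (2 : ℤ) ^ (k + 2) ∣ 4 * ∑ i ∈ I, S i + 2 ^ (k + 1) * e)
    (hid : ∑ i ∈ I, f i = ∑ i ∈ I, w i + e) :
    ∃ y : ℤ, c = 2 ^ k * y ∧ (y : ZMod 2) = f i0 := by
  have hex : ∀ i : α, ∃ x : ℤ, i ∈ I → i ≠ i0 → 4 * S i = 2 ^ (k + 1) * x ∧
      (x : ZMod 2) = w i + f i := by
    intro i
    by_cases h : i ∈ I ∧ i ≠ i0
    · obtain ⟨x, hx⟩ := hS i h.1 h.2
      exact ⟨x, fun _ _ => hx⟩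
    · exact ⟨0, fun h1 h2 => absurd ⟨h1, h2⟩ h⟩
  choose x hx using hex
  have hsum : 4 * ∑ i ∈ I, S i + 2 ^ (k + 1) * e =
      2 * (2 ^ k * G0) - 6 * c + 2 ^ (k + 1) * (∑ i ∈ I.erase i0, x i + e) := by
    rw [← add_sum_erase I S hi0, mul_add, h0, mul_sum]
    have : ∑ i ∈ I.erase i0, 4 * S i = 2 ^ (k + 1) * ∑ i ∈ I.erase i0, x i := by
      rw [mul_sum]
      exact sum_congr rfl fun i hi => (hx i (mem_of_mem_erase hi) (ne_of_mem_erase hi)).1
    rw [this]
    ring
  rw [hsum] at hd
  obtain ⟨y, hy1, hy2⟩ := key hd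
  refine ⟨y, hy1, ?_⟩
  rw [hy2, hG]
  push_cast
  have h1 : ∑ i ∈ I.erase i0, (x i : ZMod 2) = ∑ i ∈ I.erase i0, w i + ∑ i ∈ I.erase i0, f i := by
    rw [← sum_add_distrib]
    exact sum_congr rfl fun i hi => (hx i (mem_of_mem_erase hi) (ne_of_mem_erase hi)).2
  rw [h1]
  have h2 := add_sum_erase I w hi0
  have h3 := add_sum_erase I f hi0
  have h4 := two0 (∑ i ∈ I.erase i0, f i)
  have h5 : w i0 + (∑ i ∈ I.erase i0, w i + ∑ i ∈ I.erase i0, f i + (e : ZMod 2)) =
      (w i0 + ∑ i ∈ I.erase i0, w i + e) + ∑ i ∈ I.erase i0, f i := by ring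
  rw [h5, h2, ← hid, ← h3, add_assoc, h4, add_zero]

/-- the statement about a coefficient -/
def Co (r : Finset ι → ℤ) (W : Finset ι → ZMod 2) (T : Finset ι) : Prop :=
  ∃ g : ℤ, r T = 2 ^ T.card * g ∧ (g : ZMod 2) = W T

theorem pairS {k : ℕ} {R R' C C' S : ℤ} {i j : ℕ} (hk : i + j = k) {w w' f f' : ZMod 2}
    (hS : 4 * S = R * R' + 3 * (C * C'))
    (h1 : ∃ g : ℤ, R = 2 ^ i * g ∧ (g : ZMod 2) = w)
    (h2 : ∃ g : ℤ, R' = 2 ^ j * g ∧ (g : ZMod 2) = w')
    (h3 : ∃ g : ℤ, C = 2 ^ i * g ∧ (g : ZMod 2) = f)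
    (h4 : ∃ g : ℤ, C' = 2 ^ j * g ∧ (g : ZMod 2) = f') :
    ∃ x : ℤ, 4 * S = 2 ^ k * x ∧ (x : ZMod 2) = w * w' + f * f' := by
  obtain ⟨g1, rfl, rfl⟩ := h1
  obtain ⟨g2, rfl, rfl⟩ := h2
  obtain ⟨g3, rfl, rfl⟩ := h3
  obtain ⟨g4, rfl, rfl⟩ := h4
  refine ⟨g1 * g2 + 3 * (g3 * g4), ?_, ?_⟩
  · rw [hS, ← hk, pow_add]
    ring
  · push_cast
    have e3 : (3 : ZMod 2) = 1 := rfl
    rw [e3, one_mul]

theorem cv_filter {P : Finset ι} (c : ι) (z : ZMod 2) (a : ι → ZMod 2)
    (f g f' g' : Finset ι → ZMod 2)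
    (h1 : ∀ B ⊆ P, c ∈ B → ∑ p ∈ B, a p = z → f B * g (P \ B) = f' B * g' (P \ B))
    (h2 : ∀ B ⊆ P, c ∈ B → ∑ p ∈ B, a p ≠ z → f B * g (P \ B) = 0) :
    cv (rs c f) g P = ∑ B ∈ P.powerset.filter (fun B => c ∈ B ∧ ∑ p ∈ B, a p = z),
      f' B * g' (P \ B) := by
  unfold cv
  rw [sum_filter]
  refine sum_congr rfl fun B hB => ?_
  unfold rs
  by_cases hc : c ∈ B
  · by_cases hz : ∑ p ∈ B, a p = z
    · rw [if_pos hc, if_pos ⟨hc, hz⟩]
      exact h1 B (mem_powerset.1 hB) hc hz
    · rw [if_pos hc, if_neg fun h => hz h.2]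
      exact h2 B (mem_powerset.1 hB) hc hz
  · rw [if_neg hc, if_neg fun h => hc h.1, zero_mul]

theorem odd_cast (g : ℤ) : (g : ZMod 2) = ind (Odd g) := by
  have e2 : (2 : ZMod 2) = 0 := rfl
  rcases Int.even_or_odd' g with ⟨k, rfl | rfl⟩
  · rw [ind_neg]
    · push_cast
      rw [e2, zero_mul]
    · rw [Int.not_odd_iff_even]
      exact even_two_mul k
  · rw [ind_pos (odd_two_mul_add_one k)]
    push_cast
    rw [e2, zero_mul, zero_add]

end ind

section main

variable {ι : Type} [DecidableEq ι] {Ω : Finset ι} {l : ι → ι → ZMod 2} {ν a : ι → ZMod 2}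

/-- the criterion restricted to the subsets of `Ω` -/
noncomputable def FF (Ω : Finset ι) (l : ι → ι → ZMod 2) (ν a : ι → ZMod 2) (P : Finset ι) :
    ZMod 2 := if P ⊆ Ω then ind (Fs l ν a P) else 0

/-- the weights restricted to the subsets of `Ω` -/
noncomputable def WW (Ω : Finset ι) (l : ι → ι → ZMod 2) (ν a : ι → ZMod 2) (P : Finset ι) :
    ZMod 2 := if P ⊆ Ω then Wb l ν a P else 0

theorem FF_exp (hcol : HC l ν a Ω) :
    ∀ P, ∀ c ∈ P, FF Ω l ν a P =
      ∑ B ∈ P.powerset, if c ∈ B then WW Ω l ν a B * FF Ω l ν a (P \ B) else 0 := by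
  intro P c hc
  by_cases hP : P ⊆ Ω
  · have h1 : FF Ω l ν a P = ind (Fs l ν a P) := if_pos hP
    rw [h1, star_c' l ν a P (hcol.mono hP) hc]
    refine sum_congr rfl fun B hB => ?_
    have h2 : WW Ω l ν a B = Wb l ν a B := if_pos ((mem_powerset.1 hB).trans hP)
    have h3 : FF Ω l ν a (P \ B) = ind (Fs l ν a (P \ B)) := if_pos (sdiff_subset.trans hP)
    rw [h2, h3]
  · have h1 : FF Ω l ν a P = 0 := if_neg hP
    rw [h1]
    symm
    refine sum_eq_zero fun B hB => ?_
    split_ifs
    · by_cases h2 : B ⊆ Ω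
      · have h3 : FF Ω l ν a (P \ B) = 0 := by
          refine if_neg fun h3 => hP ?_
          rw [← union_sdiff_of_subset (mem_powerset.1 hB)]
          exact union_subset h2 h3
        rw [h3, mul_zero]
      · have h3 : WW Ω l ν a B = 0 := if_neg h2
        rw [h3, zero_mul]
    · rfl

theorem WW_ne {B : Finset ι} (h : WW Ω l ν a B ≠ 0) :
    ∑ p ∈ B, a p = 1 ∧ ∑ p ∈ B, ν p = 1 := by
  unfold WW at h
  split_ifs at h with h1
  · unfold Wb at h
    by_contra h2
    exact h (ind_neg fun h3 => h2 ⟨h3.1, h3.2.1⟩)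
  · exact absurd rfl h

theorem FF_empty : FF Ω l ν a ∅ = 1 := by
  unfold FF
  rw [if_pos (empty_subset Ω)]
  refine ind_pos ?_
  intro x y _ _ p hp
  exact absurd hp (notMem_empty p)

theorem FF_par (hcol : HC l ν a Ω) :
    ∀ P, FF Ω l ν a P ≠ 0 → ∑ p ∈ P, a p = ∑ p ∈ P, ν p := by
  intro P
  induction hn : P.card using Nat.strong_induction_on generalizing P with
  | _ n ih =>
    intro hne
    rcases P.eq_empty_or_nonempty with rfl | ⟨c, hc⟩
    · rfl
    · rw [FF_exp hcol P c hc] at hne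
      obtain ⟨B, hB, hB2⟩ := exists_ne_zero_of_sum_ne_zero hne
      rw [mem_powerset] at hB
      split_ifs at hB2 with hcB
      · have h1 := WW_ne (left_ne_zero_of_mul hB2)
        have h2 := right_ne_zero_of_mul hB2
        have hlt : (P \ B).card < n := by
          rw [← hn]
          refine card_lt_card ?_
          rw [Finset.ssubset_iff_subset_ne]
          refine ⟨sdiff_subset, fun h => ?_⟩
          have : c ∈ P \ B := by rw [h]; exact hc
          exact (mem_sdiff.1 this).2 hcB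
        have h3 := ih _ hlt (P \ B) rfl h2
        rw [← sum_sdiff hB, ← sum_sdiff hB (f := ν), h3, h1.1, h1.2]
      · exact absurd rfl hB2

theorem WW_single {t : ι} (ht : t ∈ Ω) (hat : a t = 1) (hνt : ν t = 1) : WW Ω l ν a {t} = 1 := by
  unfold WW
  rw [if_pos (singleton_subset_iff.2 ht)]
  refine ind_pos ⟨?_, ?_, ?_⟩
  · rw [sum_singleton, hat]
  · rw [sum_singleton, hνt]
  · intro y _ p hp q hq
    rw [mem_singleton.1 hp, mem_singleton.1 hq]

theorem FF_single (hcol : HC l ν a Ω) {t : ι} (ht : t ∈ Ω)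
    (hat : a t = 1) (hνt : ν t = 1) : FF Ω l ν a {t} = 1 := by
  rw [FF_exp hcol {t} t (mem_singleton_self t), sum_eq_single {t}]
  · rw [if_pos (mem_singleton_self t), WW_single ht hat hνt, Finset.sdiff_self, FF_empty, one_mul]
  · intro B hB hne
    rw [if_neg]
    intro h
    apply hne
    exact Subset.antisymm (mem_powerset.1 hB) (singleton_subset_iff.2 h)
  · intro h
    exact absurd (mem_powerset.2 (Subset.refl _)) h

theorem insert_sdiff' {t : ι} {T : Finset ι} (ht : t ∉ T) : insert t T \ {t} = T := by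
  rw [sdiff_singleton_eq_erase, erase_insert ht]

/-- **the abstract induction** -/
theorem par_abs (hcol : HC l ν a Ω) {t : ι} (ht : t ∈ Ω)
    (hat : a t = 1) (hνt : ν t = 1) (r c : Finset ι → ℤ) (S : Finset ι → Finset ι → ℤ)
    (hS : ∀ B B', 4 * S B B' = r B * r B' + 3 * (c B * c B')) (hr3 : r {t} = 2) (hc3 : c {t} = -2)
    (hz : ∀ T ⊆ Ω, ∑ p ∈ T, a p = 1 → ∑ p ∈ T, ν p = 0 → r T = 0 ∧ c T = 0)
    (hR : ∀ T ⊆ Ω, ∑ p ∈ T, a p = 1 → ∑ p ∈ T, ν p = 1 →
      ∃ g : ℤ, r T = 2 ^ T.card * g ∧ (Odd g ↔ Ts l T))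
    (hU1 : ∀ P ⊆ Ω, P.Nonempty → ∑ p ∈ P, a p = 0 → ∑ p ∈ P, ν p = 0 →
      (2 : ℤ) ^ (P.card + 1) ∣ ∑ B ∈ P.powerset, if ∑ p ∈ B, a p = 1 then S B (P \ B) else 0)
    (hU3 : ∀ P ⊆ Ω, P.Nonempty → t ∉ P → ∑ p ∈ P, a p = 0 → ∑ p ∈ P, ν p = 0 →
      (2 : ℤ) ^ (P.card + 2) ∣ ∑ B ∈ P.powerset, if ∑ p ∈ B, a p = 0 then
        S (insert t B) (insert t (P \ B)) else - (r B * r (P \ B))) :
    ∀ T ⊆ Ω, ∑ p ∈ T, a p = 1 → Co c (FF Ω l ν a) T := by
  have hSs : ∀ B B', S B B' = S B' B := by
    intro B B'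
    have h1 := hS B B'
    have h2 := hS B' B
    linarith [mul_comm (r B) (r B'), mul_comm (c B) (c B')]
  have hCr : ∀ T ⊆ Ω, ∑ p ∈ T, a p = 1 → Co r (WW Ω l ν a) T := by
    intro T hT haT
    rcases z01 (∑ p ∈ T, ν p) with h | h
    · refine ⟨0, by rw [(hz T hT haT h).1, mul_zero], ?_⟩
      by_contra h2
      have h3 := (WW_ne (Ne.symm (by simpa using h2) : WW Ω l ν a T ≠ 0)).2
      rw [h] at h3
      exact zero_ne_one h3
    · obtain ⟨g, hg1, hg2⟩ := hR T hT haT h
      refine ⟨g, hg1, ?_⟩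
      rw [odd_cast, ind_congr hg2]
      unfold WW Wb
      rw [if_pos hT]
      exact ind_congr ⟨fun h4 => ⟨haT, h, h4⟩, fun h4 => h4.2.2⟩
  have hF0 := FF_empty (Ω := Ω) (l := l) (ν := ν) (a := a)
  have hF := FF_exp hcol
  have hW : ∀ B, WW Ω l ν a B ≠ 0 → ∑ p ∈ B, a p = 1 := fun B hB => (WW_ne hB).1
  have h10 : (1 : ZMod 2) ≠ 0 := one_ne_zero
  intro T
  induction hn : (T.erase t).card using Nat.strong_induction_on generalizing T with
  | _ n ih =>
    intro hT haT
    rcases z01 (∑ p ∈ T, ν p) with hνT | hνT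
    · -- trivial case
      refine ⟨0, by rw [(hz T hT haT hνT).2, mul_zero], ?_⟩
      by_contra h2
      have h3 := FF_par hcol T (Ne.symm (by simpa using h2))
      rw [haT, hνT] at h3
      exact h10 h3
    by_cases htT : t ∈ T
    · -- the second relation
      set P := T.erase t with hP
      have hTP : T = insert t P := (insert_erase htT).symm
      have htP : t ∉ P := notMem_erase t T
      have hPΩ : P ⊆ Ω := (erase_subset t T).trans hT
      have haP : ∑ p ∈ P, a p = 0 := by
        rw [hTP, sum_insert htP, hat] at haT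
        have : ∀ z : ZMod 2, 1 + z = 1 → z = 0 := by decide
        exact this _ haT
      have hνP : ∑ p ∈ P, ν p = 0 := by
        rw [hTP, sum_insert htP, hνt] at hνT
        have : ∀ z : ZMod 2, 1 + z = 1 → z = 0 := by decide
        exact this _ hνT
      have hTc : T.card = P.card + 1 := by
        rw [hTP]
        exact card_insert_of_notMem htP
      rcases P.eq_empty_or_nonempty with hPe | ⟨c0, hc0⟩
      · have hTt : T = {t} := by rw [hTP, hPe]; rfl
        refine ⟨-1, ?_, ?_⟩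
        · rw [hTt, hc3, card_singleton]; norm_num
        · rw [hTt, FF_single hcol ht hat hνt]; rfl
      obtain ⟨G0, hG1, hG2⟩ := hCr T hT haT
      have hex : ∀ B : Finset ι, ∃ g : ℤ, B ⊆ Ω → ∑ p ∈ B, a p = 1 →
          r B = 2 ^ B.card * g ∧ (g : ZMod 2) = WW Ω l ν a B := by
        intro B
        by_cases h : B ⊆ Ω ∧ ∑ p ∈ B, a p = 1
        · obtain ⟨g, hg⟩ := hCr B h.1 h.2
          exact ⟨g, fun _ _ => hg⟩
        · exact ⟨0, fun h1 h2 => absurd ⟨h1, h2⟩ h⟩
      choose G hG using hex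
      have hins : ∀ B ⊆ P, ∑ p ∈ B, a p = 0 → ∑ p ∈ insert t B, a p = 1 := by
        intro B hB h
        rw [sum_insert fun h' => htP (hB h'), hat, h, add_zero]
      have hinsΩ : ∀ B ⊆ P, insert t B ⊆ Ω := fun B hB => insert_subset ht (hB.trans hPΩ)
      have hI : ∀ B ∈ P.powerset.filter (fun B => c0 ∈ B ∧ ∑ p ∈ B, a p = 0),
          B ⊆ P ∧ c0 ∈ B ∧ ∑ p ∈ B, a p = 0 ∧ ∑ p ∈ P \ B, a p = 0 := by
        intro B hB
        rw [mem_filter, mem_powerset] at hB
        refine ⟨hB.1, hB.2.1, hB.2.2, ?_⟩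
        rw [par_sdiff hB.1, haP, hB.2.2]; rfl
      have hJ : ∀ B ∈ P.powerset.filter (fun B => c0 ∈ B ∧ ∑ p ∈ B, a p = 1),
          B ⊆ P ∧ c0 ∈ B ∧ ∑ p ∈ B, a p = 1 ∧ ∑ p ∈ P \ B, a p = 1 := by
        intro B hB
        rw [mem_filter, mem_powerset] at hB
        refine ⟨hB.1, hB.2.1, hB.2.2, ?_⟩
        rw [par_sdiff hB.1, haP, hB.2.2]; rfl
      have hPP : insert t (P \ P) = {t} := by rw [Finset.sdiff_self]; rfl
      have hfin := step (k := T.card) (G0 := G0) (c := c T)
        (P.powerset.filter (fun B => c0 ∈ B ∧ ∑ p ∈ B, a p = 0)) (i0 := P)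
        (mem_filter.2 ⟨mem_powerset.2 (Subset.refl P), hc0, haP⟩)
        (fun B => S (insert t B) (insert t (P \ B)))
        (∑ B ∈ P.powerset.filter (fun B => c0 ∈ B ∧ ∑ p ∈ B, a p = 1), -(G B * G (P \ B)))
        (by
          rw [hS, hPP, hr3, hc3, ← hTP, hG1]; ring)
        (fun B => WW Ω l ν a (insert t B) * WW Ω l ν a (insert t (P \ B)))
        (fun B => FF Ω l ν a (insert t B) * FF Ω l ν a (insert t (P \ B))) ?_ ?_ ?_ ?_
      · obtain ⟨y, hy1, hy2⟩ := hfin
        refine ⟨y, hy1, ?_⟩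
        rw [hy2, hPP, FF_single hcol ht hat hνt, mul_one, ← hTP]
      · intro B hB hne
        obtain ⟨h1, h2, h3, h4⟩ := hI B hB
        have htB : t ∉ B := fun h => htP (h1 h)
        have htB' : t ∉ P \ B := fun h => htP (mem_sdiff.1 h).1
        have hcard : (insert t B).card + (insert t (P \ B)).card = T.card + 1 := by
          rw [card_insert_of_notMem htB, card_insert_of_notMem htB', hTc]
          have := card_sdiff_add_card_eq_card h1
          omega
        have hB1 : ((insert t B).erase t).card < n := by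
          rw [erase_insert htB, ← hn]
          refine card_lt_card ?_
          rw [Finset.ssubset_iff_subset_ne]
          exact ⟨h1, hne⟩
        have hB2 : ((insert t (P \ B)).erase t).card < n := by
          rw [erase_insert htB', ← hn]
          refine card_lt_card ?_
          rw [Finset.ssubset_iff_subset_ne]
          refine ⟨sdiff_subset, fun h5 => ?_⟩
          have : c0 ∈ P \ B := by rw [h5]; exact hc0
          exact (mem_sdiff.1 this).2 h2
        exact pairS hcard (hS _ _) (hCr _ (hinsΩ B h1) (hins B h1 h3))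
          (hCr _ (hinsΩ _ sdiff_subset) (hins _ sdiff_subset h4))
          (ih _ hB1 _ rfl (hinsΩ B h1) (hins B h1 h3))
          (ih _ hB2 _ rfl (hinsΩ _ sdiff_subset) (hins _ sdiff_subset h4))
      · rw [hPP, WW_single ht hat hνt, mul_one, ← hTP]
        exact hG2
      · have h1 := hU3 P hPΩ ⟨c0, hc0⟩ htP haP hνP
        rw [half_sum hc0] at h1
        · have h2 : ∑ B ∈ P.powerset, (if c0 ∈ B then (if ∑ p ∈ B, a p = 0 then
              S (insert t B) (insert t (P \ B)) else - (r B * r (P \ B))) else 0) =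
              ∑ B ∈ P.powerset.filter (fun B => c0 ∈ B ∧ ∑ p ∈ B, a p = 0),
                S (insert t B) (insert t (P \ B)) + 2 ^ P.card *
              ∑ B ∈ P.powerset.filter (fun B => c0 ∈ B ∧ ∑ p ∈ B, a p = 1),
                -(G B * G (P \ B)) := by
            rw [sum_filter, sum_filter, mul_sum, ← sum_add_distrib]
            refine sum_congr rfl fun B hB => ?_
            rw [mem_powerset] at hB
            by_cases h2 : c0 ∈ B
            · rcases z01 (∑ p ∈ B, a p) with h3 | h3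
              · rw [if_pos h2, if_pos h3, if_pos ⟨h2, h3⟩, if_neg, mul_zero, add_zero]
                rintro ⟨-, h4⟩
                rw [h3] at h4
                exact h10 h4.symm
              · have h5 : ∑ p ∈ P \ B, a p = 1 := by rw [par_sdiff hB, haP, h3]; rfl
                have h6 : ¬ ∑ p ∈ B, a p = 0 := by rw [h3]; exact h10
                rw [if_pos h2, if_neg h6, if_neg fun h => h6 h.2, if_pos ⟨h2, h3⟩, zero_add,
                  (hG B (hB.trans hPΩ) h3).1, (hG (P \ B) (sdiff_subset.trans hPΩ) h5).1,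
                  ← card_sdiff_add_card_eq_card hB, pow_add]
                ring
            · rw [if_neg h2, if_neg fun h => h2 h.1, if_neg fun h => h2 h.1, mul_zero, add_zero]
          rw [h2] at h1
          have h3 : (2 : ℤ) ^ (P.card + 1) ∣
              (∑ B ∈ P.powerset.filter (fun B => c0 ∈ B ∧ ∑ p ∈ B, a p = 0),
                S (insert t B) (insert t (P \ B)) + 2 ^ P.card *
              ∑ B ∈ P.powerset.filter (fun B => c0 ∈ B ∧ ∑ p ∈ B, a p = 1),
                -(G B * G (P \ B))) := by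
            rw [pow_succ, mul_comm] at h1
            exact (mul_dvd_mul_iff_left two_ne_zero).1 h1
          obtain ⟨w, hw⟩ := h3
          refine ⟨w, ?_⟩
          rw [hTc, pow_succ, pow_succ]
          rw [pow_succ] at hw
          linear_combination 4 * hw
        · intro B hB
          rw [par_sdiff hB, haP, zero_add, Finset.sdiff_sdiff_eq_self hB, hSs, mul_comm (r B)]
      · have h1 := rel2 hF0 hF hW hat htP c0
        rw [cv_filter c0 0 a _ _ (fun B => FF Ω l ν a (insert t B))
            (fun B => FF Ω l ν a (insert t B)),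
          cv_filter c0 0 a _ _ (fun B => WW Ω l ν a (insert t B))
            (fun B => WW Ω l ν a (insert t B)),
          cv_filter c0 1 a (WW Ω l ν a) (WW Ω l ν a) (WW Ω l ν a) (WW Ω l ν a),
          WW_single ht hat hνt, one_mul] at h1
        · rw [h1]
          congr 1
          push_cast
          refine sum_congr rfl fun B hB => ?_
          obtain ⟨h2, h3, h4, h5⟩ := hJ B hB
          rw [(hG B (h2.trans hPΩ) h4).2, (hG (P \ B) (sdiff_subset.trans hPΩ) h5).2]
          have : ∀ z : ZMod 2, z = -z := by decide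
          exact this _
        · intro B _ _ _
          rfl
        · intro B _ _ h2
          by_contra h3
          exact h2 (hW B (left_ne_zero_of_mul h3))
        · intro B _ _ _
          rfl
        · intro B hB _ h2
          by_contra h3
          apply h2
          have h4 := hW _ (left_ne_zero_of_mul h3)
          rw [sum_insert fun h' => htP (hB h'), hat] at h4
          have : ∀ z : ZMod 2, 1 + z = 1 → z = 0 := by decide
          exact this _ h4
        · intro B hB _ h2
          have h3 : ∑ p ∈ P \ B, a p = 0 := by rw [par_sdiff hB, haP, h2]; rfl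
          rw [if_pos h2, if_pos h3]
        · intro B _ _ h2
          rw [if_neg h2, zero_mul]
    · -- the first relation
      rw [erase_eq_of_notMem htT] at hn
      set P := insert t T with hP
      have hPΩ : P ⊆ Ω := insert_subset ht hT
      have haP : ∑ p ∈ P, a p = 0 := by
        rw [hP, sum_insert htT, hat, haT]; rfl
      have hνP : ∑ p ∈ P, ν p = 0 := by
        rw [hP, sum_insert htT, hνt, hνT]; rfl
      have hPc : P.card = T.card + 1 := card_insert_of_notMem htT
      have hPt : P \ {t} = T := insert_sdiff' htT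
      have htP : t ∈ P := mem_insert_self t T
      obtain ⟨G0, hG1, hG2⟩ := hCr T hT haT
      have hI : ∀ B ∈ P.powerset.filter (fun B => t ∈ B ∧ ∑ p ∈ B, a p = 1),
          B ⊆ P ∧ t ∈ B ∧ ∑ p ∈ B, a p = 1 ∧ ∑ p ∈ P \ B, a p = 1 := by
        intro B hB
        rw [mem_filter, mem_powerset] at hB
        refine ⟨hB.1, hB.2.1, hB.2.2, ?_⟩
        rw [par_sdiff hB.1, haP, hB.2.2]; rfl
      have hfin := step (k := T.card) (G0 := G0) (c := c T)
        (P.powerset.filter (fun B => t ∈ B ∧ ∑ p ∈ B, a p = 1)) (i0 := {t})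
        (mem_filter.2 ⟨mem_powerset.2 (singleton_subset_iff.2 htP), mem_singleton_self t, by
          rw [sum_singleton, hat]⟩) (fun B => S B (P \ B)) 0 (by
            rw [hS, hPt, hr3, hc3, hG1]; ring)
        (fun B => WW Ω l ν a B * WW Ω l ν a (P \ B))
        (fun B => FF Ω l ν a B * FF Ω l ν a (P \ B)) ?_ ?_ ?_ ?_
      · obtain ⟨y, hy1, hy2⟩ := hfin
        refine ⟨y, hy1, ?_⟩
        rw [hy2]
        rw [hPt, FF_single hcol ht hat hνt, one_mul]
      · intro B hB hne
        obtain ⟨h1, h2, h3, h4⟩ := hI B hB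
        have hcard : B.card + (P \ B).card = T.card + 1 := by
          rw [← hPc, add_comm]
          exact card_sdiff_add_card_eq_card h1
        have hB1 : (B.erase t).card < n := by
          rw [← hn]
          refine card_lt_card ?_
          rw [Finset.ssubset_iff_subset_ne]
          refine ⟨?_, fun h5 => ?_⟩
          · rw [← erase_insert htT]
            exact erase_subset_erase t h1
          · have h6 : B = P := by rw [hP, ← h5, insert_erase h2]
            rw [h6, haP] at h3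
            exact h10 h3.symm
        have htn : t ∉ P \ B := fun h => (mem_sdiff.1 h).2 h2
        have hB2 : ((P \ B).erase t).card < n := by
          rw [← hn, erase_eq_of_notMem htn]
          refine card_lt_card ?_
          rw [Finset.ssubset_iff_subset_ne]
          refine ⟨?_, fun h5 => ?_⟩
          · intro x hx
            rcases mem_insert.1 (mem_sdiff.1 hx).1 with h6 | h6
            · exact absurd (h6 ▸ hx) htn
            · exact h6
          · apply hne
            refine Subset.antisymm ?_ (singleton_subset_iff.2 h2)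
            intro x hx
            rw [mem_singleton]
            rcases mem_insert.1 (h1 hx) with h6 | h6
            · exact h6
            · rw [← h5] at h6
              exact absurd hx (mem_sdiff.1 h6).2
        exact pairS hcard (hS B (P \ B)) (hCr B (h1.trans hPΩ) h3)
          (hCr (P \ B) (sdiff_subset.trans hPΩ) h4) (ih _ hB1 B rfl (h1.trans hPΩ) h3)
          (ih _ hB2 (P \ B) rfl (sdiff_subset.trans hPΩ) h4)
      · rw [hPt, WW_single ht hat hνt, one_mul]
        exact hG2
      · have h1 := hU1 P hPΩ ⟨t, htP⟩ haP hνP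
        rw [half_sum htP] at h1
        · have h2 : ∑ B ∈ P.powerset, (if t ∈ B then (if ∑ p ∈ B, a p = 1 then S B (P \ B) else 0)
              else 0) = ∑ B ∈ P.powerset.filter (fun B => t ∈ B ∧ ∑ p ∈ B, a p = 1),
                S B (P \ B) := by
            rw [sum_filter]
            exact sum_congr rfl fun B _ => by rw [ite_and]
          rw [h2, hPc] at h1
          have h3 : (2 : ℤ) ^ (T.card + 1) ∣
              ∑ B ∈ P.powerset.filter (fun B => t ∈ B ∧ ∑ p ∈ B, a p = 1), S B (P \ B) := by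
            rw [pow_succ, mul_comm] at h1
            exact (mul_dvd_mul_iff_left two_ne_zero).1 h1
          rw [mul_zero, add_zero]
          have h4 : (2 : ℤ) ^ (T.card + 2) ∣ 2 ^ 2 * 2 ^ (T.card + 1) :=
            ⟨2, by rw [pow_succ, pow_succ]; ring⟩
          exact h4.trans (mul_dvd_mul (dvd_refl _) h3)
        · intro B hB
          rw [par_sdiff hB, haP, zero_add, Finset.sdiff_sdiff_eq_self hB]
          split_ifs
          · exact hSs _ _
          · rfl
      · have h1 := congrFun (rel1 hF0 hF hW t) P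
        rw [cv_filter t 1 a (f1 a (FF Ω l ν a)) (f1 a (FF Ω l ν a)) (FF Ω l ν a) (FF Ω l ν a),
          cv_filter t 1 a (WW Ω l ν a) (WW Ω l ν a) (WW Ω l ν a) (WW Ω l ν a)] at h1
        · rw [Int.cast_zero, add_zero]
          exact h1
        · intro B _ _ _
          rfl
        · intro B _ _ h2
          by_contra h3
          exact h2 (hW B (left_ne_zero_of_mul h3))
        · intro B hB _ h2
          have h3 : ∑ p ∈ P \ B, a p = 1 := by rw [par_sdiff hB, haP, h2]; rfl
          unfold f1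
          rw [if_pos h2, if_pos h3]
        · intro B _ _ h2
          unfold f1
          rw [if_neg h2, zero_mul]

end main

end Pool.Agent.N855.P17
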