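import Pool.Agent.N855.P17.Ram

/-!
# The abstract induction, ramified case (project P17, helper855)
-/

set_option autoImplicit false
set_option linter.unusedSectionVars false

open Finset

namespace Pool.Agent.N855.P17

section main

variable {ι : Type} [DecidableEq ι] {Ω : Finset ι} {l : ι → ι → ZMod 2} {ν a : ι → ZMod 2} {z : ι}

/-- the weights of the block of `z` -/
noncomputable def VV (Ω : Finset ι) (l : ι → ι → ZMod 2) (a : ι → ZMod 2) (z : ι) (P : Finset ι) :
    ZMod 2 := if P ⊆ Ω then ind (∑ p ∈ P, a p = 1 ∧ Ts l (insert z P)) else 0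

/-- the criterion in the ramified case -/
noncomputable def FR (Ω : Finset ι) (l : ι → ι → ZMod 2) (ν a : ι → ZMod 2) (z : ι)
    (P : Finset ι) : ZMod 2 := if P ⊆ Ω then ind (Fr l ν a z (insert z P)) else 0

theorem VV_ne {B : Finset ι} (h : VV Ω l a z B ≠ 0) : ∑ p ∈ B, a p = 1 := by
  unfold VV at h
  split_ifs at h with h1
  · by_contra h2
    exact h (ind_neg fun h3 => h2 h3.1)
  · exact absurd rfl h

theorem FR_exp (hz : z ∉ Ω) (haz : a z = 0) (hcol : HC l ν a (insert z Ω))
    (hcol' : HC l (up ν z) a (insert z Ω)) {P : Finset ι} (hP : P ⊆ Ω) :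
    FR Ω l ν a z P = cv (VV Ω l a z) (FF Ω l ν a) P := by
  have hzP : z ∉ P := fun h => hz (hP h)
  have h1 : FR Ω l ν a z P = ind (Fr l ν a z (insert z P)) := if_pos hP
  have hsub : insert z P ⊆ insert z Ω := insert_subset_insert z hP
  rw [h1, star_r l ν a (mem_insert_self z P) (hcol.mono hsub) (hcol'.mono hsub),
    sum_powerset_insert hzP, sum_eq_zero, zero_add]
  · unfold cv
    refine sum_congr rfl fun B hB => ?_
    rw [mem_powerset] at hB
    have hzB : z ∉ B := fun h => hzP (hB h)
    rw [if_pos (mem_insert_self z B)]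
    have e1 : insert z P \ insert z B = P \ B := by
      ext x
      simp only [mem_sdiff, mem_insert, not_or]
      constructor
      · rintro ⟨h1 | h1, h2, h3⟩
        · exact absurd h1 h2
        · exact ⟨h1, h3⟩
      · rintro ⟨h1, h2⟩
        exact ⟨Or.inr h1, fun h => hzP (h ▸ h1), h2⟩
    have e2 : VV Ω l a z B = ind (∑ p ∈ B, a p = 1 ∧ Ts l (insert z B)) :=
      if_pos (hB.trans hP)
    have e3 : FF Ω l ν a (P \ B) = ind (Fs l ν a (P \ B)) := if_pos (sdiff_subset.trans hP)
    rw [e1, e2, e3, sum_insert hzB, haz, zero_add]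
  · intro B hB
    rw [if_neg fun h => hzP (mem_powerset.1 hB h)]

/-- **the abstract induction, ramified case** -/
theorem par_ram (hz : z ∉ Ω) (haz : a z = 0) (hcol : HC l ν a (insert z Ω))
    (hcol' : HC l (up ν z) a (insert z Ω)) {t : ι} (ht : t ∈ Ω)
    (hat : a t = 1) (hνt : ν t = 1) (r c rz cz : Finset ι → ℤ) (S : Finset ι → Finset ι → ℤ)
    (hS : ∀ B B', 4 * S B B' = rz B * r B' + 3 * (cz B * c B')) (hr3 : r {t} = 2) (hc3 : c {t} = -2)
    (hCr : ∀ T ⊆ Ω, ∑ p ∈ T, a p = 1 → Co r (WW Ω l ν a) T)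
    (hCc : ∀ T ⊆ Ω, ∑ p ∈ T, a p = 1 → Co c (FF Ω l ν a) T)
    (hR : ∀ T ⊆ Ω, ∑ p ∈ T, a p = 1 → ∃ g : ℤ, rz T = 2 ^ T.card * g ∧ (Odd g ↔ Ts l (insert z T)))
    (h4 : (4 : ℤ) ∣ rz {t} + cz {t})
    (hU1 : ∀ P ⊆ Ω, t ∈ P → ∑ p ∈ P, a p = 0 →
      (2 : ℤ) ^ P.card ∣ ∑ B ∈ P.powerset, if ∑ p ∈ B, a p = 1 then S B (P \ B) else 0)
    (hU3 : ∀ P ⊆ Ω, P.Nonempty → t ∉ P → ∑ p ∈ P, a p = 0 →
      (2 : ℤ) ^ (P.card + 1) ∣ ∑ B ∈ P.powerset, if ∑ p ∈ B, a p = 0 then
        S (insert t B) (insert t (P \ B)) else - (rz B * r (P \ B))) :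
    ∀ T ⊆ Ω, ∑ p ∈ T, a p = 1 → Co cz (FR Ω l ν a z) T := by
  have hcolΩ : HC l ν a Ω := hcol.mono (subset_insert z Ω)
  have hCz : ∀ T ⊆ Ω, ∑ p ∈ T, a p = 1 → Co rz (VV Ω l a z) T := by
    intro T hT haT
    obtain ⟨g, hg1, hg2⟩ := hR T hT haT
    refine ⟨g, hg1, ?_⟩
    rw [odd_cast, ind_congr hg2]
    unfold VV
    rw [if_pos hT]
    exact ind_congr ⟨fun h => ⟨haT, h⟩, fun h => h.2⟩
  have hF0 := FF_empty (Ω := Ω) (l := l) (ν := ν) (a := a)
  have hF := FF_exp (ν := ν) hcolΩ
  have hW : ∀ B, WW Ω l ν a B ≠ 0 → ∑ p ∈ B, a p = 1 := fun B hB => (WW_ne hB).1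
  have hV : ∀ B, VV Ω l a z B ≠ 0 → ∑ p ∈ B, a p = 1 := fun B hB => VV_ne hB
  have hE : ∀ T ⊆ Ω, FR Ω l ν a z T = cv (VV Ω l a z) (FF Ω l ν a) T := fun T hT =>
    FR_exp hz haz hcol hcol' hT
  have h10 : (1 : ZMod 2) ≠ 0 := one_ne_zero
  intro T
  induction hn : (T.erase t).card using Nat.strong_induction_on generalizing T with
  | _ n ih =>
    intro hT haT
    by_cases htT : t ∈ T
    · -- the second relation
      set P := T.erase t with hP
      have hTP : T = insert t P := (insert_erase htT).symm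
      have htP : t ∉ P := notMem_erase t T
      have hPΩ : P ⊆ Ω := (erase_subset t T).trans hT
      have haP : ∑ p ∈ P, a p = 0 := by
        rw [hTP, sum_insert htP, hat] at haT
        have : ∀ z : ZMod 2, 1 + z = 1 → z = 0 := by decide
        exact this _ haT
      have hTc : T.card = P.card + 1 := by
        rw [hTP]
        exact card_insert_of_notMem htP
      obtain ⟨G0, hG1, hG2⟩ := hCz T hT haT
      rcases P.eq_empty_or_nonempty with hPe | hPne
      · have hTt : T = {t} := by rw [hTP, hPe]; rfl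
        rw [hTt] at hG1 hG2 ⊢
        obtain ⟨w, hw⟩ := h4
        rw [hG1, card_singleton] at hw
        refine ⟨2 * w - G0, ?_, ?_⟩
        · rw [card_singleton]
          linarith
        · have h5 := hE {t} (singleton_subset_iff.2 ht)
          rw [h5]
          unfold cv
          have h6 : ({t} : Finset ι).powerset = {∅, {t}} := by
            rw [← insert_empty_eq t, powerset_insert, powerset_empty]
            rfl
          rw [h6, sum_pair (singleton_ne_empty t).symm]
          have h7 : VV Ω l a z ∅ = 0 := by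
            by_contra h
            have := hV _ h
            rw [sum_empty] at this
            exact h10 this.symm
          rw [h7, zero_mul, zero_add, Finset.sdiff_self, hF0, mul_one, ← hG2]
          push_cast
          have e2 : (2 : ZMod 2) = 0 := rfl
          rw [e2, zero_mul, zero_sub]
          have : ∀ z : ZMod 2, -z = z := by decide
          exact this _
      have hex : ∀ B : Finset ι, ∃ g : ℤ, B ⊆ Ω → ∑ p ∈ B, a p = 1 →
          r B = 2 ^ B.card * g ∧ (g : ZMod 2) = WW Ω l ν a B := by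
        intro B
        by_cases h : B ⊆ Ω ∧ ∑ p ∈ B, a p = 1
        · obtain ⟨g, hg⟩ := hCr B h.1 h.2
          exact ⟨g, fun _ _ => hg⟩
        · exact ⟨0, fun h1 h2 => absurd ⟨h1, h2⟩ h⟩
      choose G hG using hex
      have hexz : ∀ B : Finset ι, ∃ g : ℤ, B ⊆ Ω → ∑ p ∈ B, a p = 1 →
          rz B = 2 ^ B.card * g ∧ (g : ZMod 2) = VV Ω l a z B := by
        intro B
        by_cases h : B ⊆ Ω ∧ ∑ p ∈ B, a p = 1
        · obtain ⟨g, hg⟩ := hCz B h.1 h.2
          exact ⟨g, fun _ _ => hg⟩
        · exact ⟨0, fun h1 h2 => absurd ⟨h1, h2⟩ h⟩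
      choose Gz hGz using hexz
      have hins : ∀ B ⊆ P, ∑ p ∈ B, a p = 0 → ∑ p ∈ insert t B, a p = 1 := by
        intro B hB h
        rw [sum_insert fun h' => htP (hB h'), hat, h, add_zero]
      have hinsΩ : ∀ B ⊆ P, insert t B ⊆ Ω := fun B hB => insert_subset ht (hB.trans hPΩ)
      have hI : ∀ B ∈ P.powerset.filter (fun B => ∑ p ∈ B, a p = 0),
          B ⊆ P ∧ ∑ p ∈ B, a p = 0 ∧ ∑ p ∈ P \ B, a p = 0 := by
        intro B hB
        rw [mem_filter, mem_powerset] at hB
        refine ⟨hB.1, hB.2, ?_⟩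
        rw [par_sdiff hB.1, haP, hB.2]; rfl
      have hJ : ∀ B ∈ P.powerset.filter (fun B => ∑ p ∈ B, a p = 1),
          B ⊆ P ∧ ∑ p ∈ B, a p = 1 ∧ ∑ p ∈ P \ B, a p = 1 := by
        intro B hB
        rw [mem_filter, mem_powerset] at hB
        refine ⟨hB.1, hB.2, ?_⟩
        rw [par_sdiff hB.1, haP, hB.2]; rfl
      have hPP : insert t (P \ P) = {t} := by rw [Finset.sdiff_self]; rfl
      have hfin := step (k := T.card) (G0 := G0) (c := cz T)
        (P.powerset.filter (fun B => ∑ p ∈ B, a p = 0)) (i0 := P)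
        (mem_filter.2 ⟨mem_powerset.2 (Subset.refl P), haP⟩)
        (fun B => S (insert t B) (insert t (P \ B)))
        (∑ B ∈ P.powerset.filter (fun B => ∑ p ∈ B, a p = 1), -(Gz B * G (P \ B)))
        (by
          rw [hS, hPP, hr3, hc3, ← hTP, hG1]; ring)
        (fun B => VV Ω l a z (insert t B) * WW Ω l ν a (insert t (P \ B)))
        (fun B => FR Ω l ν a z (insert t B) * FF Ω l ν a (insert t (P \ B))) ?_ ?_ ?_ ?_
      · obtain ⟨y, hy1, hy2⟩ := hfin
        refine ⟨y, hy1, ?_⟩
        rw [hy2, hPP, FF_single hcolΩ ht hat hνt, mul_one, ← hTP]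
      · intro B hB hne
        obtain ⟨h1, h3, h4⟩ := hI B hB
        have htB : t ∉ B := fun h => htP (h1 h)
        have htB' : t ∉ P \ B := fun h => htP (mem_sdiff.1 h).1
        have hcard : (insert t B).card + (insert t (P \ B)).card = T.card + 1 := by
          rw [card_insert_of_notMem htB, card_insert_of_notMem htB', hTc]
          have := card_sdiff_add_card_eq_card h1
          omega
        have hB1 : ((insert t B).erase t).card < n := by
          rw [erase_insert htB, ← hn]
          refine card_lt_card ?_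
          rw [Finset.ssubset_iff_subset_ne]
          exact ⟨h1, hne⟩
        exact pairS hcard (hS _ _) (hCz _ (hinsΩ B h1) (hins B h1 h3))
          (hCr _ (hinsΩ _ sdiff_subset) (hins _ sdiff_subset h4))
          (ih _ hB1 _ rfl (hinsΩ B h1) (hins B h1 h3))
          (hCc _ (hinsΩ _ sdiff_subset) (hins _ sdiff_subset h4))
      · rw [hPP, WW_single ht hat hνt, mul_one, ← hTP]
        exact hG2
      · have h1 := hU3 P hPΩ hPne htP haP
        have h2 : ∑ B ∈ P.powerset, (if ∑ p ∈ B, a p = 0 then
              S (insert t B) (insert t (P \ B)) else - (rz B * r (P \ B))) =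
              ∑ B ∈ P.powerset.filter (fun B => ∑ p ∈ B, a p = 0),
                S (insert t B) (insert t (P \ B)) + 2 ^ P.card *
              ∑ B ∈ P.powerset.filter (fun B => ∑ p ∈ B, a p = 1),
                -(Gz B * G (P \ B)) := by
          rw [sum_filter, sum_filter, mul_sum, ← sum_add_distrib]
          refine sum_congr rfl fun B hB => ?_
          rw [mem_powerset] at hB
          rcases z01 (∑ p ∈ B, a p) with h3 | h3
          · rw [if_pos h3, if_pos h3, if_neg, mul_zero, add_zero]
            intro h4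
            rw [h3] at h4
            exact h10 h4.symm
          · have h5 : ∑ p ∈ P \ B, a p = 1 := by rw [par_sdiff hB, haP, h3]; rfl
            have h6 : ¬ ∑ p ∈ B, a p = 0 := by rw [h3]; exact h10
            rw [if_neg h6, if_neg h6, if_pos h3, zero_add,
              (hGz B (hB.trans hPΩ) h3).1, (hG (P \ B) (sdiff_subset.trans hPΩ) h5).1,
              ← card_sdiff_add_card_eq_card hB, pow_add]
            ring
        rw [h2] at h1
        obtain ⟨w, hw⟩ := h1
        refine ⟨w, ?_⟩
        rw [hTc, pow_succ, pow_succ]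
        rw [pow_succ] at hw
        linear_combination 4 * hw
      · have h1 := rel3r hF0 hF hW hV hat htP haP
        rw [WW_single ht hat hνt, one_mul] at h1
        have h2 : ∑ B ∈ P.powerset.filter (fun B => ∑ p ∈ B, a p = 0),
            FR Ω l ν a z (insert t B) * FF Ω l ν a (insert t (P \ B)) =
            ∑ B ∈ P.powerset.filter (fun B => ∑ p ∈ B, a p = 0),
            cv (VV Ω l a z) (FF Ω l ν a) (insert t B) * FF Ω l ν a (insert t (P \ B)) := by
          refine sum_congr rfl fun B hB => ?_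
          rw [hE _ (hinsΩ B (hI B hB).1)]
        rw [h2, h1]
        congr 1
        push_cast
        refine sum_congr rfl fun B hB => ?_
        obtain ⟨h2, h4, h5⟩ := hJ B hB
        rw [(hGz B (h2.trans hPΩ) h4).2, (hG (P \ B) (sdiff_subset.trans hPΩ) h5).2]
        have : ∀ z : ZMod 2, z = -z := by decide
        exact this _
    · -- the first relation
      rw [erase_eq_of_notMem htT] at hn
      set P := insert t T with hP
      have hPΩ : P ⊆ Ω := insert_subset ht hT
      have haP : ∑ p ∈ P, a p = 0 := by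
        rw [hP, sum_insert htT, hat, haT]; rfl
      have hPc : P.card = T.card + 1 := card_insert_of_notMem htT
      have htP : t ∈ P := mem_insert_self t T
      have hTP : T ⊆ P := subset_insert t T
      have hPt : P \ T = {t} := by
        have := Finset.sdiff_sdiff_eq_self (singleton_subset_iff.2 htP)
        rw [insert_sdiff' htT] at this
        exact this
      obtain ⟨G0, hG1, hG2⟩ := hCz T hT haT
      have hI : ∀ B ∈ P.powerset.filter (fun B => ∑ p ∈ B, a p = 1),
          B ⊆ P ∧ ∑ p ∈ B, a p = 1 ∧ ∑ p ∈ P \ B, a p = 1 := by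
        intro B hB
        rw [mem_filter, mem_powerset] at hB
        refine ⟨hB.1, hB.2, ?_⟩
        rw [par_sdiff hB.1, haP, hB.2]; rfl
      have hfin := step (k := T.card) (G0 := G0) (c := cz T)
        (P.powerset.filter (fun B => ∑ p ∈ B, a p = 1)) (i0 := T)
        (mem_filter.2 ⟨mem_powerset.2 hTP, haT⟩) (fun B => S B (P \ B)) 0 (by
            rw [hS, hPt, hr3, hc3, hG1]; ring)
        (fun B => VV Ω l a z B * WW Ω l ν a (P \ B))
        (fun B => FR Ω l ν a z B * FF Ω l ν a (P \ B)) ?_ ?_ ?_ ?_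
      · obtain ⟨y, hy1, hy2⟩ := hfin
        refine ⟨y, hy1, ?_⟩
        rw [hy2]
        rw [hPt, FF_single hcolΩ ht hat hνt, mul_one]
      · intro B hB hne
        obtain ⟨h1, h3, h4⟩ := hI B hB
        have hcard : B.card + (P \ B).card = T.card + 1 := by
          rw [← hPc, add_comm]
          exact card_sdiff_add_card_eq_card h1
        have hB1 : (B.erase t).card < n := by
          rw [← hn]
          refine card_lt_card ?_
          rw [Finset.ssubset_iff_subset_ne]
          refine ⟨?_, fun h5 => ?_⟩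
          · rw [← erase_insert htT]
            exact erase_subset_erase t h1
          · by_cases h2 : t ∈ B
            · have h6 : B = P := by rw [hP, ← h5, insert_erase h2]
              rw [h6, haP] at h3
              exact h10 h3.symm
            · rw [erase_eq_of_notMem h2] at h5
              exact hne h5
        exact pairS hcard (hS B (P \ B)) (hCz B (h1.trans hPΩ) h3)
          (hCr (P \ B) (sdiff_subset.trans hPΩ) h4) (ih _ hB1 B rfl (h1.trans hPΩ) h3)
          (hCc (P \ B) (sdiff_subset.trans hPΩ) h4)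
      · rw [hPt, WW_single ht hat hνt, mul_one]
        exact hG2
      · have h1 := hU1 P hPΩ htP haP
        rw [← sum_filter, hPc] at h1
        rw [mul_zero, add_zero]
        have h4 : (2 : ℤ) ^ (T.card + 2) ∣ 2 ^ 2 * 2 ^ (T.card + 1) :=
          ⟨2, by rw [pow_succ, pow_succ]; ring⟩
        exact h4.trans (mul_dvd_mul (dvd_refl _) h1)
      · have h1 := rel1r hF0 hF hW hV haP
        rw [Int.cast_zero, add_zero, ← h1]
        refine sum_congr rfl fun B hB => ?_
        rw [hE B ((hI B hB).1.trans hPΩ)]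

end main

end Pool.Agent.N855.P17
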