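import Pool.Agent.N855.P17.Gen

/-!
# The parity law, discriminants divisible by `17` (project P17, helper855)
-/

set_option autoImplicit false
set_option linter.unusedSectionVars false

open Finset

namespace Pool.Agent.N855.P17

open Pool.Agent.N972.P17 (Cm Cp Cme Cpe Cr Cre SS rr cc vec1 vec2 ip1 ip2 ls al nu LL Sx Sc Sr
  S_U1 S_U3 S_R S_PAR S_SxSc S_U1E S_U3E S_RE S_PARE S_U1R S_U3R S_VR S_RR S_PARR S_U1RE S_U3RE
  S_RRE S_PARRE C1 C4)
open Pool.Agent.N969.P15 (Qc Qe Ev V3)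

/-- the hypotheses for the discriminants divisible by `17` -/
structure HypR (Ω : Finset ℕ) : Prop where
  U1 : S_U1R
  U3 : S_U3R
  V : S_VR
  R : S_RR
  U1E : 2 ∈ Ω → S_U1RE
  U3E : 2 ∈ Ω → S_U3RE
  RE : 2 ∈ Ω → S_RRE

theorem al17 (n0 : ℕ) : al n0 17 = 0 := by
  rw [al_odd n0 (by norm_num) (by norm_num), if_pos (by norm_num)]

theorem not17_NN {T : Finset ℕ} (hT : ∀ p ∈ T, p.Prime) (h17 : 17 ∉ T) : ¬ 17 ∣ NN T := by
  intro h
  apply h17
  rw [← NN_pf hT, Nat.mem_primeFactors]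
  exact ⟨by norm_num, h, (NN_pos hT).ne'⟩

theorem pf_insert17 (n0 : ℕ) {T : Finset ℕ} (hT : ∀ p ∈ T, p.Prime) (h17 : 17 ∉ T) :
    17 * NT n0 T = NT n0 (insert 17 T) ∧ (∀ p ∈ insert 17 T, p.Prime) := by
  refine ⟨(NT_insert n0 (by norm_num) h17).symm, fun p hp => ?_⟩
  rcases mem_insert.1 hp with rfl | hp
  · norm_num
  · exact hT p hp

section

variable {Ω : Finset ℕ} (H : HypR Ω) (hΩ : ∀ p ∈ Ω, p.Prime) (h17 : 17 ∉ Ω) (n0 : ℕ)

include H hΩ h17

theorem HRR_gen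
    (hTQ : ∀ n : ℕ, Squarefree n → n % 4 = 3 → (Ts (fun p q => ls n q p) n.primeFactors ↔ Qc n))
    (hTQE : ∀ n : ℕ, Ev n → n ≠ 4 → (Ts (fun p q => ls n q p) n.primeFactors ↔ Qe n))
    {T : Finset ℕ} (hT : T ⊆ Ω) (ha : ∑ p ∈ T, al n0 p = 1) :
    ∃ g : ℤ, rr (17 * NT n0 T : ℕ) = 2 ^ T.card * g ∧
      (Odd g ↔ Ts (fun p q => ls n0 q p) (insert 17 T)) := by
  have hTp : ∀ p ∈ T, p.Prime := fun p hp => hΩ p (hT hp)
  have h17T : 17 ∉ T := fun h => h17 (hT h)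
  obtain ⟨he, hP⟩ := pf_insert17 n0 hTp h17T
  have hpf : (17 * NT n0 T).primeFactors = insert 17 T := by rw [he, NT_pf hP]
  have ha' : ∑ p ∈ insert 17 T, al n0 p = 1 := by
    rw [sum_insert h17T, al17, zero_add, ha]
  have hcard : (insert 17 T).card - 1 = T.card := by
    rw [card_insert_of_notMem h17T]
    rfl
  by_cases h2 : 2 ∈ T
  · obtain ⟨hev, hst⟩ := NT_Ev (n0 := n0) hP (mem_insert_of_mem h2) ha'
    rw [← he] at hev hst
    have hcr : Cre (17 * NT n0 T) := ⟨hev, Dvd.intro _ rfl⟩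
    have hls : ∀ q p, ls (17 * NT n0 T) q p = ls n0 q p := by
      intro q p
      unfold ls
      rw [hst]
    have hTs : Ts (fun p q => ls (17 * NT n0 T) q p) (insert 17 T) ↔
        Ts (fun p q => ls n0 q p) (insert 17 T) := Ts_congr fun p _ q _ _ => hls q p
    have hq := hTQE _ hev (by omega)
    rw [hpf, hTs] at hq
    obtain ⟨g, hg1, hg2⟩ := H.RE (hT h2) _ hcr
    rw [hpf, hcard] at hg1
    refine ⟨3 * g, by rw [hg1]; ring, ?_⟩
    rw [hq, ← hg2, Int.odd_mul]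
    exact and_iff_right (by decide)
  · have h2' : 2 ∉ insert 17 T := by
      rw [mem_insert, not_or]
      exact ⟨by norm_num, h2⟩
    have h4 : (17 * NT n0 T) % 4 = 3 := by
      rw [he, NT_out h2']
      exact (mod3_iff n0 hP h2').2 ha'
    have hsq : Squarefree (17 * NT n0 T) := by
      rw [he, NT_out h2']
      exact NN_sq hP
    have hcr : Cr (17 * NT n0 T) := ⟨hsq, h4, Dvd.intro _ rfl⟩
    have hTs : Ts (fun p q => ls (17 * NT n0 T) q p) (insert 17 T) ↔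
        Ts (fun p q => ls n0 q p) (insert 17 T) :=
      Ts_congr fun p hp q hq _ => ls_eq _ _ fun h => h2' (h ▸ hq)
    have hq := hTQ _ hsq h4
    rw [hpf, hTs] at hq
    obtain ⟨g, hg1, hg2⟩ := H.R _ hcr
    rw [hpf, hcard] at hg1
    refine ⟨3 * g, by rw [hg1]; ring, ?_⟩
    rw [hq, ← hg2, Int.odd_mul]
    exact and_iff_right (by decide)

theorem HU1R_gen {P : Finset ℕ} (hP : P ⊆ Ω) (ha : ∑ p ∈ P, al n0 p = 0) :
    (2 : ℤ) ^ P.card ∣ ∑ B ∈ P.powerset,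
      if ∑ p ∈ B, al n0 p = 1 then SS (17 * NT n0 B : ℕ) (NT n0 (P \ B)) else 0 := by
  have hPp : ∀ p ∈ P, p.Prime := fun p hp => hΩ p (hP hp)
  have h17P : 17 ∉ P := fun h => h17 (hP h)
  by_cases h2 : 2 ∈ P
  · obtain ⟨k1, hk, hk4, hsq, hmod⟩ := NT_pos_disc (n0 := n0) hPp h2 ha
    have he : 4 * (k1 * NN (P.erase 2)) = NT n0 P := by rw [NT_in h2, hk4]; ring
    have hC : C4 (k1 * NN (P.erase 2)) := by
      refine ⟨hsq, hmod, fun h => h17P ?_⟩
      rw [← NT_pf (n0 := n0) hPp, Nat.mem_primeFactors]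
      refine ⟨by norm_num, ?_, (NT_pos hPp).ne'⟩
      rw [← he]
      exact Dvd.dvd.mul_left h 4
    have h3 := H.U1E (hP h2) _ hC
    have e68 : ∀ d ∈ (k1 * NN (P.erase 2)).divisors.filter (fun d => d % 4 = 3),
        (SS (17 * d : ℕ) (4 * ((k1 * NN (P.erase 2)) / d) : ℕ) +
          SS (68 * ((k1 * NN (P.erase 2)) / d) : ℕ) (d : ℕ)) =
        (SS (17 * d : ℕ) (4 * ((k1 * NN (P.erase 2)) / d) : ℕ) +
          SS (17 * (4 * ((k1 * NN (P.erase 2)) / d)) : ℕ) (d : ℕ)) := by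
      intro d _
      have : 68 * ((k1 * NN (P.erase 2)) / d) = 17 * (4 * ((k1 * NN (P.erase 2)) / d)) := by ring
      rw [this]
    rw [sum_congr rfl e68, he, NT_pf hPp, even_sum n0 hPp h2 hk hk4 (Or.inr rfl)
      (fun d m : ℕ => SS (17 * d : ℕ) (m : ℕ) + SS (17 * m : ℕ) (d : ℕ))] at h3
    rw [sum_split h2, sum_congr rfl fun B hB => ?_]
    · exact h3
    · rw [mem_powerset] at hB
      have hB' : ∀ p ∈ B, p.Prime := fun p hp => hTe hPp p (hB hp)
      have hBP : B ⊆ P := hB.trans (erase_subset 2 P)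
      rw [par_sdiff hBP, ha, zero_add, Finset.sdiff_sdiff_eq_self hBP,
        if_congr (mod3_iff n0 hB' fun h => notMem_erase 2 P (hB h)) rfl rfl]
      split_ifs
      · rfl
      · rfl
  · have hC : C1 (NN P) := ⟨NN_sq hPp, (mod1_iff n0 hPp h2).2 ha, not17_NN hPp h17P⟩
    have h3 := H.U1 _ hC
    rw [NN_pf hPp, sum_filter, div_sum hPp] at h3
    have h4 : (2 : ℤ) ^ P.card ∣ 2 ^ (P.card + 1) := pow_dvd_pow 2 (Nat.le_succ _)
    refine h4.trans ?_
    rw [sum_congr rfl fun B hB => ?_]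
    · exact h3
    · rw [mem_powerset] at hB
      have hB' : ∀ p ∈ B, p.Prime := fun p hp => hPp p (hB hp)
      rw [NN_div hPp hB, NT_out fun h => h2 (hB h), NT_out fun h => h2 (mem_sdiff.1 h).1]
      exact if_congr (mod3_iff n0 hB' fun h => h2 (hB h)).symm rfl rfl

theorem HU3R_gen {P : Finset ℕ} (hP : P ⊆ Ω) (hne : P.Nonempty) (h3P : 3 ∉ P)
    (ha : ∑ p ∈ P, al n0 p = 0) :
    (2 : ℤ) ^ (P.card + 1) ∣ ∑ B ∈ P.powerset, if ∑ p ∈ B, al n0 p = 0 then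
      SS (17 * NT n0 (insert 3 B) : ℕ) (NT n0 (insert 3 (P \ B))) else
        - (rr (17 * NT n0 B : ℕ) * rr (NT n0 (P \ B))) := by
  have hPp : ∀ p ∈ P, p.Prime := fun p hp => hΩ p (hP hp)
  have h17P : 17 ∉ P := fun h => h17 (hP h)
  have hins : ∀ B ⊆ P, NT n0 (insert 3 B) = 3 * NT n0 B := fun B hB =>
    NT_insert n0 (by norm_num) fun h => h3P (hB h)
  by_cases h2 : 2 ∈ P
  · obtain ⟨k1, hk, hk4, hsq, hmod⟩ := NT_pos_disc (n0 := n0) hPp h2 ha
    have he : 4 * (k1 * NN (P.erase 2)) = NT n0 P := by rw [NT_in h2, hk4]; ring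
    have hdv : ∀ t : ℕ, t.Prime → t ∉ P → ¬ t ∣ k1 * NN (P.erase 2) := by
      intro t ht htP h
      apply htP
      rw [← NT_pf (n0 := n0) hPp, Nat.mem_primeFactors]
      refine ⟨ht, ?_, (NT_pos hPp).ne'⟩
      rw [← he]
      exact Dvd.dvd.mul_left h 4
    have hC : C4 (k1 * NN (P.erase 2)) := ⟨hsq, hmod, hdv 17 (by norm_num) h17P⟩
    have h3 := H.U3E (hP h2) _ hC (hdv 3 Nat.prime_three h3P)
    have e1 : ∀ d ∈ (k1 * NN (P.erase 2)).divisors.filter (fun d => d % 4 = 1),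
        (SS (51 * d : ℕ) (12 * ((k1 * NN (P.erase 2)) / d) : ℕ) +
          SS (204 * ((k1 * NN (P.erase 2)) / d) : ℕ) (3 * d : ℕ)) =
        (SS (17 * (3 * d) : ℕ) (3 * (4 * ((k1 * NN (P.erase 2)) / d)) : ℕ) +
          SS (17 * (3 * (4 * ((k1 * NN (P.erase 2)) / d))) : ℕ) (3 * d : ℕ)) := by
      intro d _
      have f1 : 51 * d = 17 * (3 * d) := by ring
      have f2 : 12 * ((k1 * NN (P.erase 2)) / d) = 3 * (4 * ((k1 * NN (P.erase 2)) / d)) := by ring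
      have f3 : 204 * ((k1 * NN (P.erase 2)) / d) =
        17 * (3 * (4 * ((k1 * NN (P.erase 2)) / d))) := by ring
      rw [f1, f2, f3]
    have e2 : ∀ d ∈ (k1 * NN (P.erase 2)).divisors.filter (fun d => d % 4 = 3),
        (rr (17 * d : ℕ) * rr (4 * ((k1 * NN (P.erase 2)) / d) : ℕ) +
          rr (68 * ((k1 * NN (P.erase 2)) / d) : ℕ) * rr (d : ℕ)) =
        (rr (17 * d : ℕ) * rr (4 * ((k1 * NN (P.erase 2)) / d) : ℕ) +
          rr (17 * (4 * ((k1 * NN (P.erase 2)) / d)) : ℕ) * rr (d : ℕ)) := by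
      intro d _
      have : 68 * ((k1 * NN (P.erase 2)) / d) = 17 * (4 * ((k1 * NN (P.erase 2)) / d)) := by ring
      rw [this]
    rw [sum_congr rfl e1, sum_congr rfl e2, he, NT_pf hPp,
      even_sum n0 hPp h2 hk hk4 (Or.inl rfl)
        (fun d m : ℕ => SS (17 * (3 * d) : ℕ) (3 * m : ℕ) + SS (17 * (3 * m) : ℕ) (3 * d : ℕ)),
      even_sum n0 hPp h2 hk hk4 (Or.inr rfl)
        (fun d m : ℕ => rr (17 * d : ℕ) * rr (m : ℕ) + rr (17 * m : ℕ) * rr (d : ℕ)),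
      ← sum_sub_distrib] at h3
    rw [sum_split h2, sum_congr rfl fun B hB => ?_]
    · exact h3
    · rw [mem_powerset] at hB
      have hB' : ∀ p ∈ B, p.Prime := fun p hp => hTe hPp p (hB hp)
      have hBP : B ⊆ P := hB.trans (erase_subset 2 P)
      rw [par_sdiff hBP, ha, zero_add, Finset.sdiff_sdiff_eq_self hBP, hins B hBP,
        hins _ sdiff_subset]
      rcases par_mod n0 hB' (fun h => notMem_erase 2 P (hB h)) with ⟨h5, h6⟩ | ⟨h5, h6⟩
      · rw [h5, h6, if_pos rfl, if_pos rfl, if_pos rfl, if_neg (by norm_num), sub_zero]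
      · rw [h5, h6, if_neg (by decide), if_neg (by decide), if_neg (by norm_num), if_pos rfl,
          zero_sub, neg_add]
  · have h3d : ¬ 3 ∣ NN P := by
      intro h
      apply h3P
      rw [← NN_pf hPp, Nat.mem_primeFactors]
      exact ⟨Nat.prime_three, h, (NN_pos hPp).ne'⟩
    have h1 : 1 < NN P := by
      obtain ⟨p, hp⟩ := hne
      have h3 : p ∣ NN P := dvd_prod_of_mem _ hp
      exact lt_of_lt_of_le (hPp p hp).one_lt (Nat.le_of_dvd (NN_pos hPp) h3)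
    have hC : C1 (NN P) := ⟨NN_sq hPp, (mod1_iff n0 hPp h2).2 ha, not17_NN hPp h17P⟩
    have h3 := dvd_sub (H.U3 _ hC h1 h3d) (H.V _ hC h3d)
    rw [NN_pf hPp, sum_filter, sum_filter, ← sum_sub_distrib, div_sum hPp] at h3
    rw [sum_congr rfl fun B hB => ?_]
    · exact h3
    · rw [mem_powerset] at hB
      have hB' : ∀ p ∈ B, p.Prime := fun p hp => hPp p (hB hp)
      have f1 : 51 * NN B = 17 * (3 * NN B) := by ring
      rw [hins B hB, hins _ sdiff_subset, NN_div hPp hB, NT_out fun h => h2 (hB h),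
        NT_out fun h => h2 (mem_sdiff.1 h).1, f1]
      rcases par_mod n0 hB' (fun h => h2 (hB h)) with ⟨h5, h6⟩ | ⟨h5, h6⟩
      · rw [h5, h6, if_pos rfl, if_pos rfl, if_neg (by norm_num), sub_zero]
      · rw [h5, h6, if_neg (by decide), if_neg (by norm_num), if_pos rfl, zero_sub]

end

theorem up17 : up nu 17 2 = 0 := by
  unfold up
  rw [if_neg (by norm_num)]
  exact if_pos rfl

/-- the induction for all discriminants divisible by `17` -/
theorem par17_gen {Ω : Finset ℕ} (H : Hyp Ω) (HR : HypR Ω) (hΩ : ∀ p ∈ Ω, p.Prime) (h17 : 17 ∉ Ω)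
    (h3 : 3 ∈ Ω) (n0 : ℕ) : ∀ T ⊆ Ω, ∑ p ∈ T, al n0 p = 1 →
      Co (fun T => cc (17 * NT n0 T : ℕ)) (FR Ω (fun p q => ls n0 q p) nu (al n0) 17) T := by
  have hΩ' : ∀ p ∈ insert 17 Ω, p.Prime := by
    intro p hp
    rcases mem_insert.1 hp with rfl | hp
    · norm_num
    · exact hΩ p hp
  have hN3 : NT n0 {3} = 3 := by
    rw [NT_out (by decide)]
    exact prod_singleton _ _
  refine par_ram h17 (al17 n0) (HC_gen n0 hΩ' nu (if_pos rfl)) (HC_gen n0 hΩ' (up nu 17) up17) h3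
    (al3 n0) nu3 (fun T => rr (NT n0 T)) (fun T => cc (NT n0 T)) (fun T => rr (17 * NT n0 T : ℕ))
    (fun T => cc (17 * NT n0 T : ℕ)) (fun B B' => SS (17 * NT n0 B : ℕ) (NT n0 B'))
    (fun B B' => SS_eq _ _) ?_ ?_ (Cr_gen H hΩ h17 n0) (par_gen H hΩ h17 h3 n0) ?_ ?_ ?_ ?_
  · rw [hN3, Nat.cast_ofNat]; exact three.1
  · rw [hN3, Nat.cast_ofNat]; exact three.2
  · intro T hT ha
    exact HRR_gen HR hΩ h17 n0 H.TQ H.TQE hT ha
  · exact four_dvd _
  · intro P hP _ ha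
    exact HU1R_gen HR hΩ h17 n0 hP ha
  · intro P hP hne h3P ha
    exact HU3R_gen HR hΩ h17 n0 hP hne h3P ha

theorem Fr_Sr (n : ℕ) : Fr (fun p q => ls n q p) nu (al n) 17 n.primeFactors ↔ Sr n := Iff.rfl

theorem par17_fin {n : ℕ} (h17 : 17 ∈ n.primeFactors) (hNT : NT n n.primeFactors = n)
    (hal : ∑ p ∈ n.primeFactors, al n p = 1) (H : Hyp (insert 3 (n.primeFactors.erase 17)))
    (HR : HypR (insert 3 (n.primeFactors.erase 17))) :
    ∃ y : ℤ, cc n = 2 ^ (n.primeFactors.card - 1) * y ∧ (Odd y ↔ Sr n) := by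
  have h17e : 17 ∉ n.primeFactors.erase 17 := notMem_erase _ _
  have h17Ω : 17 ∉ insert 3 (n.primeFactors.erase 17) := by
    rw [mem_insert, not_or]
    exact ⟨by norm_num, h17e⟩
  have hsub : n.primeFactors.erase 17 ⊆ insert 3 (n.primeFactors.erase 17) := subset_insert _ _
  obtain ⟨y, hy1, hy2⟩ := par17_gen H HR (by
    intro p hp
    rcases mem_insert.1 hp with rfl | hp
    · exact Nat.prime_three
    · exact Nat.prime_of_mem_primeFactors (mem_of_mem_erase hp)) h17Ω (mem_insert_self _ _) n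
    (n.primeFactors.erase 17) hsub (by
    rw [← add_sum_erase _ _ h17, al17, zero_add] at hal
    exact hal)
  have hN : 17 * NT n (n.primeFactors.erase 17) = n := by
    rw [← NT_insert n (by norm_num) h17e, insert_erase h17, hNT]
  simp only [hN] at hy1
  rw [card_erase_of_mem h17] at hy1
  refine ⟨y, hy1, ?_⟩
  unfold FR at hy2
  rw [if_pos hsub, insert_erase h17, ind_congr (Fr_Sr n)] at hy2
  exact odd_ind hy2

/-- **PARR** -/
theorem t_PARR' (hU1 : S_U1) (hU3 : S_U3) (hR : S_R) (hU1R : S_U1R) (hU3R : S_U3R) (hVR : S_VR)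
    (hRR : S_RR)
    (hTQ : ∀ n : ℕ, Squarefree n → n % 4 = 3 → (Ts (fun p q => ls n q p) n.primeFactors ↔ Qc n))
    (hTQE : ∀ n : ℕ, Ev n → n ≠ 4 → (Ts (fun p q => ls n q p) n.primeFactors ↔ Qe n)) :
    S_PARR := by
  rintro n ⟨hsq, h4, h17⟩
  have h17p : 17 ∈ n.primeFactors := Nat.mem_primeFactors.2 ⟨by norm_num, h17, hsq.ne_zero⟩
  have h2 : 2 ∉ n.primeFactors := by
    intro h
    have := Nat.dvd_of_mem_primeFactors h
    omega
  have hNN : NN n.primeFactors = n := Nat.prod_primeFactors_of_squarefree hsq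
  have h2Ω : 2 ∉ insert 3 (n.primeFactors.erase 17) := by
    rw [mem_insert, not_or]
    exact ⟨by norm_num, fun h => h2 (mem_of_mem_erase h)⟩
  refine par17_fin h17p (by rw [NT_out h2, hNN]) ?_
    ⟨hU1, hU3, hR, hTQ, fun h => absurd h h2Ω, fun h => absurd h h2Ω, fun h => absurd h h2Ω, hTQE⟩
    ⟨hU1R, hU3R, hVR, hRR, fun h => absurd h h2Ω, fun h => absurd h h2Ω, fun h => absurd h h2Ω⟩
  refine (mod3_iff n (fun p hp => Nat.prime_of_mem_primeFactors hp) h2).1 ?_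
  rw [hNN]
  exact h4

/-- **PARRE** -/
theorem t_PARRE' (hU1 : S_U1) (hU3 : S_U3) (hR : S_R) (hU1E : S_U1E) (hU3E : S_U3E) (hRE : S_RE)
    (hU1R : S_U1R) (hU3R : S_U3R) (hVR : S_VR) (hRR : S_RR) (hU1RE : S_U1RE) (hU3RE : S_U3RE)
    (hRRE : S_RRE)
    (hTQ : ∀ n : ℕ, Squarefree n → n % 4 = 3 → (Ts (fun p q => ls n q p) n.primeFactors ↔ Qc n))
    (hTQE : ∀ n : ℕ, Ev n → n ≠ 4 → (Ts (fun p q => ls n q p) n.primeFactors ↔ Qe n)) :
    S_PARRE := by
  rintro n ⟨hev, h17⟩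
  obtain ⟨h2, hNT, hal⟩ := Ev_NT hev
  have hn0 : n ≠ 0 := by
    rintro rfl
    simp at h2
  have h17p : 17 ∈ n.primeFactors := Nat.mem_primeFactors.2 ⟨by norm_num, h17, hn0⟩
  exact par17_fin h17p hNT hal
    ⟨hU1, hU3, hR, hTQ, fun _ => hU1E, fun _ => hU3E, fun _ => hRE, hTQE⟩
    ⟨hU1R, hU3R, hVR, hRR, fun _ => hU1RE, fun _ => hU3RE, fun _ => hRRE⟩

end Pool.Agent.N855.P17
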