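import Pool.Agent.N855.P17.Ind

/-!
# The ramified case: criterion with one row removed (project P17, helper855)
-/

set_option autoImplicit false
set_option linter.unusedSectionVars false

open Finset

namespace Pool.Agent.N855.P17

/-- the system without the row and the column of `z` in the first block -/
def Fr {ι : Type} [DecidableEq ι] (l : ι → ι → ZMod 2) (ν a : ι → ZMod 2) (z : ι) (T : Finset ι) :
    Prop := ∀ x y : ι → ZMod 2, x z = 0 →
  (∀ p ∈ T.erase z, ν p * x p + ∑ q ∈ T, Lm l T p q * y q = 0) →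
  (∀ q ∈ T, ∑ p ∈ T, Lm l T p q * x p + a q * y q = 0) →
  ∀ p ∈ T, x p = 0 ∧ y p = 0

section fin

variable {ι : Type} [Fintype ι] [DecidableEq ι]

theorem hd_congr (L : ι → ι → ZMod 2) {ν ν' : ι → ZMod 2} (a : ι → ZMod 2) {T1 T2 : Finset ι}
    (h : ∀ p ∈ T1, ν p = ν' p) : hd L ν a T1 T2 = hd L ν' a T1 T2 := by
  rw [← ind_ne (hd L ν a T1 T2), ← ind_ne (hd L ν' a T1 T2)]
  apply ind_congr
  rw [hd_ne, hd_ne]
  constructor
  · intro h1 x y h2 h3
    exact h1 x y (fun p hp => by rw [h p hp]; exact h2 p hp) h3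
  · intro h1 x y h2 h3
    exact h1 x y (fun p hp => by rw [← h p hp]; exact h2 p hp) h3

theorem Fr_iff (l : ι → ι → ZMod 2) (ν a : ι → ZMod 2) {z : ι} {T : Finset ι} (hz : z ∈ T) :
    Fr l ν a z T ↔ hd (Lm l T) ν a (T.erase z) T ≠ 0 := by
  rw [hd_ne]
  have hs : ∀ (x : ι → ZMod 2) (q : ι), x z = 0 → ∑ p ∈ T, Lm l T p q * x p =
      ∑ p ∈ T.erase z, Lm l T p q * x p := by
    intro x q hx
    rw [← add_sum_erase T _ hz, hx, mul_zero, zero_add]
  constructor
  · intro h x y h1 h2
    have hx : ∀ p ∈ T.erase z, (if p = z then 0 else x p) = x p := fun p hp =>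
      if_neg (ne_of_mem_erase hp)
    have h3 := h (fun p => if p = z then 0 else x p) y (if_pos rfl) (fun p hp => by
      rw [hx p hp]
      exact h1 p hp) (fun q hq => by
      rw [hs _ q (if_pos rfl), sum_congr rfl fun p hp => by rw [hx p hp]]
      exact h2 q hq)
    refine ⟨fun p hp => ?_, fun q hq => (h3 q hq).2⟩
    have h4 := (h3 p (mem_of_mem_erase hp)).1
    rwa [hx p hp] at h4
  · intro h x y hx h1 h2 p hp
    have h3 := h x y h1 (fun q hq => by rw [← hs x q hx]; exact h2 q hq)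
    refine ⟨?_, h3.2 p hp⟩
    by_cases hpz : p = z
    · rw [hpz, hx]
    · exact h3.1 p (mem_erase.2 ⟨hpz, hp⟩)

/-- the modified diagonal -/
def up (ν : ι → ZMod 2) (z : ι) (p : ι) : ZMod 2 := if p = z then ν p + 1 else ν p

theorem Fr_diff (l : ι → ι → ZMod 2) (ν a : ι → ZMod 2) {z : ι} {T : Finset ι} (hz : z ∈ T) :
    ind (Fr l ν a z T) = ind (Fs l (up ν z) a T) + ind (Fs l ν a T) := by
  rw [ind_congr (Fr_iff l ν a hz), ind_congr (Fs_iff l ν a T), ind_congr (Fs_iff l (up ν z) a T),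
    ind_ne, ind_ne, ind_ne, hd_rec (Lm l T) ν a hz, hd_rec (Lm l T) (up ν z) a hz]
  have h : ∀ T2, hd (Lm l T) (up ν z) a (T.erase z) T2 = hd (Lm l T) ν a (T.erase z) T2 :=
    fun T2 => hd_congr (Lm l T) a fun p hp => if_neg (ne_of_mem_erase hp)
  simp only [h]
  have h1 : up ν z z = ν z + 1 := if_pos rfl
  rw [h1]
  have h2 : ∀ u v w : ZMod 2, w = (u + 1) * w + v + (u * w + v) := by decide
  exact h2 _ _ _

end fin

section gen

variable {ι : Type} [DecidableEq ι]

theorem Fr_sub (l : ι → ι → ZMod 2) (ν a : ι → ZMod 2) {P : Finset ι} {z : ι} (hz : z ∈ P) :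
    Fr (fun i j : {x // x ∈ P} => l i.1 j.1) (fun i => ν i.1) (fun i => a i.1) ⟨z, hz⟩
      (P.subtype (fun x => x ∈ P)) ↔ Fr l ν a z P := by
  have hB : P ⊆ P := Subset.refl P
  have hl : ∀ (y : ι → ZMod 2) (p : {x // x ∈ P}), ∑ q ∈ P.subtype (fun x => x ∈ P),
      Lm (fun i j : {x // x ∈ P} => l i.1 j.1) (P.subtype (fun x => x ∈ P)) p q * y q.1 =
      ∑ q ∈ P, Lm l P p.1 q * y q := by
    intro y p
    rw [← sum_sub hB fun q => Lm l P p.1 q * y q]
    exact sum_congr rfl fun q _ => by rw [Lm_sub l hB]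
  have hr : ∀ (x : ι → ZMod 2) (q : {x // x ∈ P}), ∑ p ∈ P.subtype (fun x => x ∈ P),
      Lm (fun i j : {x // x ∈ P} => l i.1 j.1) (P.subtype (fun x => x ∈ P)) p q * x p.1 =
      ∑ p ∈ P, Lm l P p q.1 * x p := by
    intro x q
    rw [← sum_sub hB fun p => Lm l P p q.1 * x p]
    exact sum_congr rfl fun p _ => by rw [Lm_sub l hB]
  constructor
  · intro h x y hx h1 h2 p hp
    have h3 := h (fun i => x i.1) (fun i => y i.1) hx (fun p hp => by
      rw [hl y p]
      refine h1 p.1 (mem_erase.2 ⟨fun h => (mem_erase.1 hp).1 (Subtype.ext h), p.2⟩))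
      (fun q hq => by
      rw [hr x q]
      exact h2 q.1 (mem_subtype.1 hq)) ⟨p, hB hp⟩ (mem_subtype.2 hp)
    exact h3
  · intro h x y hx h1 h2 p hp
    have h3 := h (ex P x) (ex P y) (by
      have := ex_val P x ⟨z, hz⟩
      simp only at this
      rw [this, hx]) (fun p hp => by
      have h4 := h1 ⟨p, mem_of_mem_erase hp⟩ (mem_erase.2 ⟨fun h => ne_of_mem_erase hp
        (congrArg Subtype.val h), mem_subtype.2 (mem_of_mem_erase hp)⟩)
      rw [← hl (ex P y) ⟨p, mem_of_mem_erase hp⟩, ← ex_val P x] at *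
      simp only [ex_val] at *
      exact h4) (fun q hq => by
      have h4 := h2 ⟨q, hB hq⟩ (mem_subtype.2 hq)
      rw [← hr (ex P x) ⟨q, hB hq⟩, ← ex_val P y] at *
      simp only [ex_val] at *
      exact h4) p.1 (mem_subtype.1 hp)
    rw [ex_val, ex_val] at h3
    exact h3

theorem Fr_diff' (l : ι → ι → ZMod 2) (ν a : ι → ZMod 2) {z : ι} {P : Finset ι} (hz : z ∈ P) :
    ind (Fr l ν a z P) = ind (Fs l (up ν z) a P) + ind (Fs l ν a P) := by
  have hz' : (⟨z, hz⟩ : {x // x ∈ P}) ∈ P.subtype (fun x => x ∈ P) := mem_subtype.2 hz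
  have h := Fr_diff (fun i j : {x // x ∈ P} => l i.1 j.1) (fun i => ν i.1) (fun i => a i.1) hz'
  have e : up (fun i : {x // x ∈ P} => ν i.1) ⟨z, hz⟩ = fun i => up ν z i.1 := by
    funext i
    unfold up
    by_cases hi : i = ⟨z, hz⟩
    · rw [if_pos hi, if_pos (congrArg Subtype.val hi)]
    · rw [if_neg hi, if_neg fun h => hi (Subtype.ext h)]
  rw [e, ind_congr (Fr_sub l ν a hz), ind_congr (Fs_sub l (up ν z) a (Subset.refl P)),
    ind_congr (Fs_sub l ν a (Subset.refl P))] at h
  exact h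

/-- **the expansion in the ramified case** -/
theorem star_r (l : ι → ι → ZMod 2) (ν a : ι → ZMod 2) {P : Finset ι} {z : ι} (hz : z ∈ P)
    (hcol : HC l ν a P) (hcol' : HC l (up ν z) a P) :
    ind (Fr l ν a z P) = ∑ B ∈ P.powerset, if z ∈ B then
      ind (∑ p ∈ B, a p = 1 ∧ Ts l B) * ind (Fs l ν a (P \ B)) else 0 := by
  rw [Fr_diff' l ν a hz, star_c' l ν a P hcol hz, star_c' l (up ν z) a P hcol' hz,
    ← sum_add_distrib]
  refine sum_congr rfl fun B _ => ?_
  by_cases hzB : z ∈ B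
  · rw [if_pos hzB, if_pos hzB, if_pos hzB]
    have e1 : Fs l (up ν z) a (P \ B) ↔ Fs l ν a (P \ B) := by
      have hu : ∀ p ∈ P \ B, up ν z p = ν p := by
        intro p hp
        refine if_neg ?_
        rintro rfl
        exact (mem_sdiff.1 hp).2 hzB
      constructor
      · intro h x y h1 h2
        exact h x y (fun p hp => by rw [hu p hp]; exact h1 p hp) h2
      · intro h x y h1 h2
        exact h x y (fun p hp => by rw [← hu p hp]; exact h1 p hp) h2
    rw [ind_congr e1, ← add_mul]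
    congr 1
    have e2 : ∑ p ∈ B, up ν z p = ∑ p ∈ B, ν p + 1 := by
      rw [← add_sum_erase B _ hzB, ← add_sum_erase B ν hzB]
      have h1 : up ν z z = ν z + 1 := if_pos rfl
      have h2 : ∑ p ∈ B.erase z, up ν z p = ∑ p ∈ B.erase z, ν p :=
        sum_congr rfl fun p hp => if_neg (ne_of_mem_erase hp)
      rw [h1, h2]
      ring
    unfold Wb
    rw [e2]
    by_cases h : ∑ p ∈ B, a p = 1 ∧ Ts l B
    · rw [ind_pos h]
      rcases z01 (∑ p ∈ B, ν p) with h1 | h1
      · rw [h1, ind_pos ⟨h.1, rfl, h.2⟩, ind_neg fun h2 => zero_ne_one h2.2.1, add_zero]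
      · rw [h1, ind_neg fun h2 => zero_ne_one h2.2.1, ind_pos ⟨h.1, rfl, h.2⟩, zero_add]
    · rw [ind_neg h, ind_neg fun h2 => h ⟨h2.1, h2.2.2⟩, ind_neg fun h2 => h ⟨h2.1, h2.2.2⟩,
        add_zero]
  · rw [if_neg hzB, if_neg hzB, if_neg hzB, add_zero]

end gen

section alg

variable {ι : Type} [DecidableEq ι] {a : ι → ZMod 2} {F W V : Finset ι → ZMod 2}

theorem cv_par {V H : Finset ι → ZMod 2} {v z w : ZMod 2} (hw : w = z + v) {T : Finset ι}
    (hV : ∀ B ⊆ T, V B ≠ 0 → ∑ p ∈ B, a p = v) :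
    cv V (fun X => if ∑ p ∈ X, a p = z then H X else 0) T =
      if ∑ p ∈ T, a p = w then cv V H T else 0 := by
  subst hw
  have h0 : ∀ E ∈ T.powerset, V E * (if ∑ p ∈ T \ E, a p = z then H (T \ E) else 0) =
      if ∑ p ∈ T, a p = z + v then V E * H (T \ E) else 0 := by
    intro E hE
    rw [mem_powerset] at hE
    by_cases hVE : V E = 0
    · rw [hVE, zero_mul, zero_mul]
      split_ifs <;> rfl
    · have h1 : (∑ p ∈ T \ E, a p = z) ↔ (∑ p ∈ T, a p = z + v) := by
        rw [par_sdiff hE, hV E hE hVE]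
        have : ∀ x y w : ZMod 2, x + y = w ↔ x = w + y := by decide
        exact this _ _ _
      rw [if_congr h1 rfl rfl]
      split_ifs
      · rfl
      · exact mul_zero _
  unfold cv
  rw [sum_congr rfl h0]
  split_ifs
  · rfl
  · exact sum_const_zero

theorem cv_insert (f g : Finset ι → ZMod 2) {t : ι} {T : Finset ι} (ht : t ∉ T) :
    cv f g (insert t T) = cv (fun X => f (insert t X)) g T + cv f (fun X => g (insert t X)) T := by
  unfold cv
  rw [sum_powerset_insert ht, add_comm]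
  congr 1
  · refine sum_congr rfl fun E hE => ?_
    rw [mem_powerset] at hE
    have : insert t T \ insert t E = T \ E := by
      ext x
      simp only [mem_sdiff, mem_insert, not_or]
      constructor
      · rintro ⟨h1 | h1, h2, h3⟩
        · exact absurd h1 h2
        · exact ⟨h1, h3⟩
      · rintro ⟨h1, h2⟩
        exact ⟨Or.inr h1, fun h => ht (h ▸ h1), h2⟩
    rw [this]
  · refine sum_congr rfl fun E hE => ?_
    rw [mem_powerset] at hE
    have : insert t T \ E = insert t (T \ E) := by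
      ext x
      simp only [mem_sdiff, mem_insert]
      constructor
      · rintro ⟨h1 | h1, h2⟩
        · exact Or.inl h1
        · exact Or.inr ⟨h1, h2⟩
      · rintro (h1 | h1)
        · exact ⟨Or.inl h1, fun h => ht (hE (h1 ▸ h))⟩
        · exact ⟨Or.inr h1.1, h1.2⟩
    rw [this]

section rel

variable (hF0 : F ∅ = 1)
  (hF : ∀ P, ∀ c ∈ P, F P = ∑ B ∈ P.powerset, if c ∈ B then W B * F (P \ B) else 0)
  (hW : ∀ B, W B ≠ 0 → ∑ p ∈ B, a p = 1) (hV : ∀ B, V B ≠ 0 → ∑ p ∈ B, a p = 1)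

include hF hW

theorem ins_eq {t : ι} (hat : a t = 1) (z : ZMod 2) {T : Finset ι} (ht : t ∉ T) :
    (if ∑ p ∈ T, a p = z then F (insert t T) else 0) =
      cv (fun X => W (insert t X)) (fun X => if ∑ p ∈ X, a p = z then F X else 0) T := by
  have h1 : F (insert t T) = cv (fun X => W (insert t X)) F T := by
    have h2 := congrFun (rfl : cv (rs t W) F = cv (rs t W) F) (insert t T)
    have h3 : F (insert t T) = cv (rs t W) F (insert t T) := by
      rw [hF (insert t T) t (mem_insert_self t T)]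
      unfold cv rs
      refine sum_congr rfl fun B _ => ?_
      split_ifs
      · rfl
      · rw [zero_mul]
    rw [h3, cv_insert _ _ ht]
    have h4 : cv (rs t W) (fun X => F (insert t X)) T = 0 := by
      unfold cv rs
      refine sum_eq_zero fun B hB => ?_
      rw [if_neg fun h => ht (mem_powerset.1 hB h), zero_mul]
    rw [h4, add_zero]
    refine cv_congr (fun X _ => ?_) (fun _ _ => rfl)
    unfold rs
    rw [if_pos (mem_insert_self t X)]
  have h5 := cv_par (a := a) (V := fun X => W (insert t X)) (H := F) (v := 0) (z := z) (w := z)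
    (add_zero z).symm (T := T) (fun B hB h => by
      have h6 := hW _ h
      rw [sum_insert fun h' => ht (hB h'), hat] at h6
      have : ∀ z : ZMod 2, 1 + z = 1 → z = 0 := by decide
      exact this _ h6)
  rw [h5, h1]

include hF0 hV

/-- **the first relation, ramified case** -/
theorem rel1r {P : Finset ι} (haP : ∑ p ∈ P, a p = 0) :
    ∑ B ∈ P.powerset.filter (fun B => ∑ p ∈ B, a p = 1), cv V F B * F (P \ B) =
      ∑ B ∈ P.powerset.filter (fun B => ∑ p ∈ B, a p = 1), V B * W (P \ B) := by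
  have h1 : cv (cv V (f0 a F)) (f1 a F) = cv V W := by
    rw [cv_assoc, cv_comm (f0 a F), cv_f10 hF0 hF hW]
  have h2 := congrFun h1 P
  have h3 : cv (cv V (f0 a F)) (f1 a F) P =
      ∑ B ∈ P.powerset.filter (fun B => ∑ p ∈ B, a p = 1), cv V F B * F (P \ B) := by
    rw [sum_filter]
    have e : cv (cv V (f0 a F)) (f1 a F) P =
        ∑ B ∈ P.powerset, cv V (f0 a F) B * f1 a F (P \ B) := rfl
    rw [e]
    refine sum_congr rfl fun B hB => ?_
    rw [mem_powerset] at hB
    have h4 := cv_par (a := a) (V := V) (H := F) (v := 1) (z := 0) (w := 1) (by decide) (T := B)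
      (fun C _ h => hV C h)
    have h5 : cv V (f0 a F) B = cv V (fun X => if ∑ p ∈ X, a p = 0 then F X else 0) B := rfl
    rw [h5, h4]
    by_cases h6 : ∑ p ∈ B, a p = 1
    · have h7 : ∑ p ∈ P \ B, a p = 1 := by rw [par_sdiff hB, haP, h6]; rfl
      rw [if_pos h6, if_pos h6]
      unfold f1
      rw [if_pos h7]
    · rw [if_neg h6, if_neg h6, zero_mul]
  have h8 : cv V W P = ∑ B ∈ P.powerset.filter (fun B => ∑ p ∈ B, a p = 1), V B * W (P \ B) := by
    rw [sum_filter]
    have e : cv V W P = ∑ B ∈ P.powerset, V B * W (P \ B) := rfl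
    rw [e]
    refine sum_congr rfl fun B _ => ?_
    split_ifs with h6
    · rfl
    · by_contra h7
      exact h6 (hV B (left_ne_zero_of_mul h7))
  rw [← h3, ← h8, h2]

/-- **the second relation, ramified case** -/
theorem rel3r {t : ι} (hat : a t = 1) {P : Finset ι} (htP : t ∉ P) (haP : ∑ p ∈ P, a p = 0) :
    ∑ B ∈ P.powerset.filter (fun B => ∑ p ∈ B, a p = 0),
        cv V F (insert t B) * F (insert t (P \ B)) =
      ∑ B ∈ P.powerset.filter (fun B => ∑ p ∈ B, a p = 0), V (insert t B) * W (insert t (P \ B)) +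
      W {t} * ∑ B ∈ P.powerset.filter (fun B => ∑ p ∈ B, a p = 1), V B * W (P \ B) := by
  set wt : Finset ι → ZMod 2 := fun X => W (insert t X) with hwt
  set vt : Finset ι → ZMod 2 := fun X => V (insert t X) with hvt
  have hvt0 : ∀ B ⊆ P, vt B ≠ 0 → ∑ p ∈ B, a p = 0 := by
    intro B hB h
    have h6 := hV _ h
    rw [sum_insert fun h' => htP (hB h'), hat] at h6
    have : ∀ z : ZMod 2, 1 + z = 1 → z = 0 := by decide
    exact this _ h6
  have hft : ∀ T ⊆ P, (if ∑ p ∈ T, a p = 0 then F (insert t T) else 0) = cv wt (f0 a F) T :=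
    fun T hT => ins_eq hF hW hat 0 fun h => htP (hT h)
  have hft1 : ∀ T ⊆ P, (if ∑ p ∈ T, a p = 1 then F (insert t T) else 0) = cv wt (f1 a F) T :=
    fun T hT => ins_eq hF hW hat 1 fun h => htP (hT h)
  have hfr : ∀ T ⊆ P, (if ∑ p ∈ T, a p = 0 then cv V F (insert t T) else 0) =
      cv vt (f0 a F) T + cv V (cv wt (f1 a F)) T := by
    intro T hT
    have htT : t ∉ T := fun h => htP (hT h)
    have h1 : cv vt (f0 a F) T = if ∑ p ∈ T, a p = 0 then cv vt F T else 0 :=
      cv_par (a := a) (V := vt) (H := F) (v := 0) (z := 0) (w := 0) (by decide) (T := T)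
        (fun C hC h => hvt0 C (hC.trans hT) h)
    have h2 : cv V (fun X => if ∑ p ∈ X, a p = 1 then F (insert t X) else 0) T =
        if ∑ p ∈ T, a p = 0 then cv V (fun X => F (insert t X)) T else 0 :=
      cv_par (a := a) (V := V) (H := fun X => F (insert t X)) (v := 1) (z := 1) (w := 0)
        (by decide) (T := T) (fun C _ h => hV C h)
    have h3 : cv V (cv wt (f1 a F)) T =
        cv V (fun X => if ∑ p ∈ X, a p = 1 then F (insert t X) else 0) T :=
      cv_congr (fun _ _ => rfl) fun X hX => (hft1 X (hX.trans hT)).symm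
    rw [h1, h3, h2, cv_insert V F htT]
    split_ifs
    · rfl
    · rw [add_zero]
  have hmain : cv (fun T => if ∑ p ∈ T, a p = 0 then cv V F (insert t T) else 0)
      (fun T => if ∑ p ∈ T, a p = 0 then F (insert t T) else 0) P =
      cv vt wt P + W {t} * cv V W P := by
    rw [cv_congr hfr hft, cv_add_left]
    congr 1
    · have e : cv (cv vt (f0 a F)) (cv wt (f0 a F)) =
          cv (cv vt wt) (cv (f0 a F) (f0 a F)) := by ac_rfl
      rw [e, cv_f0 hF0 hF hW, cv_un]
    · have e : cv (cv V (cv wt (f1 a F))) (cv wt (f0 a F)) =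
          cv (cv wt wt) (cv V (cv (f1 a F) (f0 a F))) := by ac_rfl
      rw [e, cv_f10 hF0 hF hW, cv_self, cv_smul]
      congr 1
  have h4 : cv (fun T => if ∑ p ∈ T, a p = 0 then cv V F (insert t T) else 0)
      (fun T => if ∑ p ∈ T, a p = 0 then F (insert t T) else 0) P =
      ∑ B ∈ P.powerset.filter (fun B => ∑ p ∈ B, a p = 0),
        cv V F (insert t B) * F (insert t (P \ B)) := by
    rw [sum_filter]
    have e : cv (fun T => if ∑ p ∈ T, a p = 0 then cv V F (insert t T) else 0)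
        (fun T => if ∑ p ∈ T, a p = 0 then F (insert t T) else 0) P =
        ∑ B ∈ P.powerset, (if ∑ p ∈ B, a p = 0 then cv V F (insert t B) else 0) *
          (if ∑ p ∈ P \ B, a p = 0 then F (insert t (P \ B)) else 0) := rfl
    rw [e]
    refine sum_congr rfl fun B hB => ?_
    rw [mem_powerset] at hB
    by_cases h6 : ∑ p ∈ B, a p = 0
    · have h7 : ∑ p ∈ P \ B, a p = 0 := by rw [par_sdiff hB, haP, h6]; rfl
      rw [if_pos h6, if_pos h6, if_pos h7]
    · rw [if_neg h6, if_neg h6, zero_mul]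
  have h5 : cv vt wt P = ∑ B ∈ P.powerset.filter (fun B => ∑ p ∈ B, a p = 0),
      V (insert t B) * W (insert t (P \ B)) := by
    rw [sum_filter]
    unfold cv
    refine sum_congr rfl fun B hB => ?_
    rw [mem_powerset] at hB
    split_ifs with h6
    · rfl
    · by_contra h7
      exact h6 (hvt0 B hB (left_ne_zero_of_mul h7))
  have h8 : cv V W P = ∑ B ∈ P.powerset.filter (fun B => ∑ p ∈ B, a p = 1), V B * W (P \ B) := by
    rw [sum_filter]
    unfold cv
    refine sum_congr rfl fun B _ => ?_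
    split_ifs with h6
    · rfl
    · by_contra h7
      exact h6 (hV B (left_ne_zero_of_mul h7))
  rw [← h4, ← h5, ← h8, hmain]

end rel

end alg

end Pool.Agent.N855.P17
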