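import Mathlib

/-!
# A commutative ring with elements of square zero and linear functionals (project P17, helper855)
-/

set_option autoImplicit false

open Finset

namespace Pool.Agent.N855.P17

section op

variable {ι : Type} [DecidableEq ι]

/-- the operator of the element `j` on the functions of the finite sets -/
def Yo (j : ι) : Module.End (ZMod 2) (Finset ι → ZMod 2) where
  toFun φ S := if j ∈ S then φ (S.erase j) else 0
  map_add' φ ψ := by
    funext S
    simp only [Pi.add_apply]
    split_ifs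
    · rfl
    · rw [add_zero]
  map_smul' c φ := by
    funext S
    simp only [Pi.smul_apply, smul_eq_mul, RingHom.id_apply]
    split_ifs
    · rfl
    · rw [mul_zero]

theorem Yo_apply (j : ι) (φ : Finset ι → ZMod 2) (S : Finset ι) :
    Yo j φ S = if j ∈ S then φ (S.erase j) else 0 := rfl

theorem Yo_comm (i j : ι) : Yo i * Yo j = Yo j * Yo i := by
  apply LinearMap.ext
  intro φ
  funext S
  rw [Module.End.mul_apply, Module.End.mul_apply, Yo_apply, Yo_apply, Yo_apply, Yo_apply]
  by_cases hij : i = j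
  · subst hij; rfl
  · have h1 : j ∈ S.erase i ↔ j ∈ S := by
      rw [mem_erase]
      exact and_iff_right fun h => hij h.symm
    have h2 : i ∈ S.erase j ↔ i ∈ S := by
      rw [mem_erase]
      exact and_iff_right fun h => hij h
    rw [if_congr h1 rfl rfl, if_congr h2 rfl rfl, erase_right_comm]
    split_ifs <;> rfl

theorem Yo_sq (i : ι) : Yo i * Yo i = 0 := by
  apply LinearMap.ext
  intro φ
  funext S
  rw [Module.End.mul_apply, Yo_apply, Yo_apply, if_neg (notMem_erase i S)]
  split_ifs <;> rfl

/-- **the ring and the functionals** -/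
theorem exists_ring (a : ι → ZMod 2) : ∃ (R : Type) (_ : CommRing R) (C : ZMod 2 →+* R)
    (y : ι → R) (Φ : Finset ι → R →+ ZMod 2), (∀ x : R, x + x = 0) ∧ (∀ i, y i * y i = 0) ∧
      (∀ T, Φ T 1 = ∏ j ∈ T, a j) ∧ (∀ T c r, Φ T (C c * r) = c * Φ T r) ∧
      (∀ T j r, Φ T (y j * r) = if j ∈ T then Φ (T.erase j) r else 0) := by
  let s : Set (Module.End (ZMod 2) (Finset ι → ZMod 2)) := Set.range Yo
  have hc : ∀ u ∈ s, ∀ w ∈ s, u * w = w * u := by
    rintro _ ⟨i, rfl⟩ _ ⟨j, rfl⟩
    exact Yo_comm i j
  let inst : CommRing (Algebra.adjoin (ZMod 2) s) := Algebra.adjoinCommRingOfComm (ZMod 2) hc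
  have hmul : ∀ u w : Algebra.adjoin (ZMod 2) s,
      ((@HMul.hMul _ _ _ (@instHMul _ inst.toMul) u w : Algebra.adjoin (ZMod 2) s) :
        Module.End (ZMod 2) (Finset ι → ZMod 2)) = u.1 * w.1 := fun _ _ => rfl
  refine ⟨Algebra.adjoin (ZMod 2) s, inst, algebraMap (ZMod 2) (Algebra.adjoin (ZMod 2) s),
    fun j => ⟨Yo j, Algebra.subset_adjoin ⟨j, rfl⟩⟩,
    fun T => { toFun := fun r => r.1 (fun S => ∏ j ∈ S, a j) T
               map_zero' := rfl
               map_add' := fun _ _ => rfl }, ?_, ?_, ?_, ?_, ?_⟩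
  · intro x
    apply Subtype.ext
    apply LinearMap.ext
    intro φ
    funext S
    have : ∀ z : ZMod 2, z + z = 0 := by decide
    exact this _
  · intro i
    apply Subtype.ext
    exact Yo_sq i
  · intro T
    rfl
  · intro T c r
    rfl
  · intro T j r
    rfl

end op

end Pool.Agent.N855.P17
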