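import Mathlib

/-!
# The expansion of a product of linear forms over the components of a forest (project P17, helper855)

`R` is a commutative ring of characteristic two and `y i` are elements of square zero. The product of the
forms `v i + ∑ j, l i j (y i + y j)` over a finite set `P` is expanded over the subsets `B` of `P` which
contain a given element `c`.
-/

set_option autoImplicit false
set_option linter.unusedSectionVars false

open Finset

namespace Pool.Agent.N855.P17

section alg

variable {R ι : Type} [CommRing R] [DecidableEq ι]

/-- the linear form of `i` in the set `T` -/
def lam (y : ι → R) (l : ι → ι → R) (T : Finset ι) (i : ι) : R := ∑ j ∈ T, l i j * (y i + y j)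

/-- the product over the set `T` -/
def GG (y v : ι → R) (l : ι → ι → R) (T : Finset ι) : R := ∏ i ∈ T, (v i + lam y l T i)

/-- the connected part -/
def XX (y v : ι → R) (l : ι → ι → R) (B : Finset ι) : R :=
  ∑ r ∈ B, v r * ∏ i ∈ B.erase r, lam y l B i

theorem mul_prod_congr (e : R) (u w : ι → R) (S : Finset ι) (h : ∀ k ∈ S, e * u k = e * w k) :
    e * ∏ k ∈ S, u k = e * ∏ k ∈ S, w k := by
  induction S using Finset.induction_on with
  | empty => rfl
  | insert a s ha ih =>
    rw [prod_insert ha, prod_insert ha]
    have h1 := ih fun k hk => h k (mem_insert_of_mem hk)
    have h2 := h a (mem_insert_self a s)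
    calc e * (u a * ∏ k ∈ s, u k) = u a * (e * ∏ k ∈ s, u k) := by ring
      _ = (e * u a) * ∏ k ∈ s, w k := by rw [h1]; ring
      _ = e * (w a * ∏ k ∈ s, w k) := by rw [h2]; ring

theorem lam_congr {y : ι → R} {l l' : ι → ι → R} {T : Finset ι} {i : ι}
    (h : ∀ j ∈ T, l i j = l' i j) : lam y l T i = lam y l' T i :=
  sum_congr rfl fun j hj => by rw [h j hj]

theorem GG_congr {y v v' : ι → R} {l l' : ι → ι → R} {T : Finset ι} (hv : ∀ i ∈ T, v i = v' i)
    (h : ∀ i ∈ T, ∀ j ∈ T, l i j = l' i j) : GG y v l T = GG y v' l' T :=
  prod_congr rfl fun i hi => by rw [hv i hi, lam_congr (h i hi)]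

theorem XX_congr {y v v' : ι → R} {l l' : ι → ι → R} {T : Finset ι} (hv : ∀ i ∈ T, v i = v' i)
    (h : ∀ i ∈ T, ∀ j ∈ T, l i j = l' i j) : XX y v l T = XX y v' l' T :=
  sum_congr rfl fun i hi => by
    rw [hv i hi]
    congr 1
    exact prod_congr rfl fun k hk => lam_congr (h k (mem_of_mem_erase hk))

/-- the contracted weights -/
def ct (l : ι → ι → R) (i j : ι) : ι → ι → R := fun k m => if m = j then l k j + l k i else l k m

variable {y : ι → R}

theorem sq0 (h2 : ∀ x : R, x + x = 0) (hy : ∀ i, y i * y i = 0) (i j : ι) :
    (y i + y j) * (y i + y j) = 0 := by
  have h3 := h2 (y i * y j)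
  have h4 : (y i + y j) * (y i + y j) = y i * y i + (y i * y j + y i * y j) + y j * y j := by ring
  rw [h4, h3, hy, hy]
  ring

theorem ct_lam (h2 : ∀ x : R, x + x = 0) (hy : ∀ i, y i * y i = 0) (l : ι → ι → R) {i j : ι}
    {T : Finset ι} (hi : i ∉ T) (hj : j ∈ T) (k : ι) :
    (y i + y j) * lam y (ct l i j) T k = (y i + y j) * lam y l (insert i T) k := by
  have h1 : lam y (ct l i j) T k = lam y l T k + l k i * (y k + y j) := by
    unfold lam
    have e : ∀ m ∈ T, ct l i j k m * (y k + y m) = l k m * (y k + y m) +
        if m = j then l k i * (y k + y j) else 0 := by
      intro m _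
      unfold ct
      split_ifs with h
      · subst h; ring
      · ring
    rw [sum_congr rfl e, sum_add_distrib, sum_ite_eq' T j, if_pos hj]
  have h3 : lam y l (insert i T) k = l k i * (y k + y i) + lam y l T k := by
    unfold lam
    rw [sum_insert hi]
  rw [h1, h3]
  have h4 := sq0 h2 hy i j
  have h5 := h2 (l k i * (y i + y j) * y k)
  have h6 := h2 (l k i * (y i + y j) * y i)
  have e : (y i + y j) * (lam y l T k + l k i * (y k + y j)) =
      (y i + y j) * (l k i * (y k + y i) + lam y l T k) + l k i * ((y i + y j) * (y i + y j)) -
        (l k i * (y i + y j) * y i + l k i * (y i + y j) * y i) := by ring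
  rw [e, h4, h6]
  ring

theorem ct_eq (l : ι → ι → R) {i j : ι} {T : Finset ι} (hj : j ∉ T) :
    ∀ k ∈ T, ∀ m ∈ T, ct l i j k m = l k m := by
  intro k _ m hm
  unfold ct
  rw [if_neg]
  rintro rfl
  exact hj hm

/-- **the expansion** -/
theorem expansion (h2 : ∀ x : R, x + x = 0) (hy : ∀ i, y i * y i = 0) (n : ℕ) :
    ∀ (P : Finset ι), P.card = n → ∀ (v : ι → R) (l : ι → ι → R) (c : ι), c ∈ P →
      GG y v l P = ∑ B ∈ P.powerset, if c ∈ B then XX y v l B * GG y v l (P \ B) else 0 := by
  induction n with
  | zero =>
    intro P hP v l c hc
    rw [card_eq_zero] at hP
    rw [hP] at hc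
    simp at hc
  | succ n ih =>
    intro P hP
    have key : ∀ Z : Finset ι, Z ⊆ P → ∀ (v : ι → R) (l : ι → ι → R),
        (∀ i ∈ P, i ∉ Z → ∀ j ∈ P, l i j = 0) → ∀ c ∈ P,
        GG y v l P = ∑ B ∈ P.powerset, if c ∈ B then XX y v l B * GG y v l (P \ B) else 0 := by
      intro Z
      induction Z using Finset.induction_on with
      | empty =>
        intro _ v l hl c hc
        have hl0 : ∀ i ∈ P, ∀ j ∈ P, l i j = 0 := fun i hi j hj => hl i hi (notMem_empty i) j hj
        have hlam : ∀ T ⊆ P, ∀ i ∈ T, lam y l T i = 0 := by
          intro T hT i hi
          unfold lam
          exact sum_eq_zero fun j hj => by rw [hl0 i (hT hi) j (hT hj), zero_mul]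
        rw [sum_eq_single {c}]
        · rw [if_pos (mem_singleton_self c)]
          have e1 : XX y v l {c} = v c := by
            unfold XX
            rw [sum_singleton]
            have : ({c} : Finset ι).erase c = ∅ := by simp
            rw [this, prod_empty, mul_one]
          have e2 : P \ {c} = P.erase c := sdiff_singleton_eq_erase c P
          rw [e1, e2]
          unfold GG
          rw [← mul_prod_erase P _ hc, hlam P (Subset.refl P) c hc, add_zero]
          congr 1
          refine prod_congr rfl fun i hi => ?_
          rw [hlam P (Subset.refl P) i (mem_of_mem_erase hi), hlam (P.erase c) (erase_subset c P) i hi]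
        · intro B hB hne
          split_ifs with hcB
          · rw [mem_powerset] at hB
            have e1 : XX y v l B = 0 := by
              unfold XX
              refine sum_eq_zero fun r hr => ?_
              have hne2 : (B.erase r).Nonempty := by
                rw [nonempty_iff_ne_empty]
                intro h0
                apply hne
                have h1 : B = {r} := by
                  rw [← insert_erase hr, h0]
                  simp
                rw [h1, mem_singleton] at hcB
                rw [h1, hcB]
              obtain ⟨k, hk⟩ := hne2
              rw [prod_eq_zero hk (hlam B hB k (mem_of_mem_erase hk)), mul_zero]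
            rw [e1, zero_mul]
          · rfl
        · intro h
          exact absurd (mem_powerset.2 (singleton_subset_iff.2 hc)) h
      | insert i Z hiZ ihZ =>
        intro hZ v l hl c hc
        have hiP : i ∈ P := hZ (mem_insert_self i Z)
        have hZP : Z ⊆ P := fun k hk => hZ (mem_insert_of_mem hk)
        set K : R := ∏ k ∈ P.erase i, (v k + lam y l P k) with hK
        -- the part of the root
        have hroot : K = ∑ B ∈ P.powerset, if c ∈ B then
            (if i ∈ B then (∏ k ∈ B.erase i, lam y l B k) * GG y v l (P \ B)
              else XX y v l B * ∏ k ∈ (P \ B).erase i, (v k + lam y l (P \ B) k)) else 0 := by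
          have h1 := ihZ hZP (Function.update v i 1) (Function.update l i fun _ => 0) (by
            intro k hk hkZ j hj
            by_cases hki : k = i
            · subst hki
              rw [Function.update_self]
            · rw [Function.update_of_ne hki]
              exact hl k hk (by rw [mem_insert]; push Not; exact ⟨hki, hkZ⟩) j hj) c hc
          have hl' : ∀ T : Finset ι, ∀ k, k ≠ i →
              lam y (Function.update l i fun _ => 0) T k = lam y l T k := by
            intro T k hk
            unfold lam
            rw [Function.update_of_ne hk]
          have hli : ∀ T : Finset ι, lam y (Function.update l i fun _ => 0) T i = 0 := by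
            intro T
            unfold lam
            rw [Function.update_self]
            exact sum_eq_zero fun j _ => by rw [zero_mul]
          have hGi : ∀ T : Finset ι, i ∈ T →
              GG y (Function.update v i 1) (Function.update l i fun _ => 0) T =
                ∏ k ∈ T.erase i, (v k + lam y l T k) := by
            intro T hT
            unfold GG
            rw [← mul_prod_erase T _ hT, hli, Function.update_self, add_zero, one_mul]
            refine prod_congr rfl fun k hk => ?_
            rw [Function.update_of_ne (ne_of_mem_erase hk), hl' T k (ne_of_mem_erase hk)]
          have hGn : ∀ T : Finset ι, i ∉ T →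
              GG y (Function.update v i 1) (Function.update l i fun _ => 0) T = GG y v l T := by
            intro T hT
            refine GG_congr (fun k hk => ?_) (fun k hk j _ => ?_)
            · rw [Function.update_of_ne]
              rintro rfl; exact hT hk
            · rw [Function.update_of_ne]
              rintro rfl; exact hT hk
          have hXn : ∀ T : Finset ι, i ∉ T →
              XX y (Function.update v i 1) (Function.update l i fun _ => 0) T = XX y v l T := by
            intro T hT
            refine XX_congr (fun k hk => ?_) (fun k hk j _ => ?_)
            · rw [Function.update_of_ne]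
              rintro rfl; exact hT hk
            · rw [Function.update_of_ne]
              rintro rfl; exact hT hk
          have hXi : ∀ T : Finset ι, i ∈ T →
              XX y (Function.update v i 1) (Function.update l i fun _ => 0) T =
                ∏ k ∈ T.erase i, lam y l T k := by
            intro T hT
            unfold XX
            rw [← add_sum_erase T _ hT, Function.update_self, one_mul, sum_eq_zero, add_zero]
            · refine prod_congr rfl fun k hk => ?_
              rw [hl' T k (ne_of_mem_erase hk)]
            · intro r hr
              have : i ∈ T.erase r := mem_erase.2 ⟨(ne_of_mem_erase hr).symm, hT⟩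
              rw [prod_eq_zero this (hli T), mul_zero]
          rw [hGi P hiP] at h1
          rw [hK, h1]
          refine sum_congr rfl fun B hB => ?_
          split_ifs with hcB hiB
          · rw [hXi B hiB, hGn (P \ B) (fun h => (mem_sdiff.1 h).2 hiB)]
          · rw [hXn B hiB, hGi (P \ B) (mem_sdiff.2 ⟨hiP, hiB⟩)]
          · rfl
        -- the part of an edge
        have hedge : ∀ j ∈ P, (y i + y j) * K = ∑ B ∈ P.powerset, if c ∈ B then
            (if i ∈ B then (if j ∈ B then ((y i + y j) * ∑ r ∈ B.erase i, v r *
                ∏ k ∈ (B.erase i).erase r, lam y l B k) * GG y v l (P \ B) else 0)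
              else (if j ∈ B then 0 else XX y v l B *
                ((y i + y j) * ∏ k ∈ (P \ B).erase i, (v k + lam y l (P \ B) k)))) else 0 := by
          intro j hj
          by_cases hji : j = i
          · subst hji
            have h0 := h2 (y j)
            rw [h0, zero_mul]
            symm
            refine sum_eq_zero fun B _ => ?_
            split_ifs <;> simp
          set P' := P.erase i with hP'
          have hiP' : i ∉ P' := notMem_erase i P
          have hPi : insert i P' = P := insert_erase hiP
          have hjP' : j ∈ P' := mem_erase.2 ⟨hji, hj⟩
          have hcard : P'.card = n := by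
            rw [hP', card_erase_of_mem hiP, hP]
            rfl
          have hcc : (if c = i then j else c) ∈ P' := by
            split_ifs with h
            · exact hjP'
            · exact mem_erase.2 ⟨h, hc⟩
          have h1 := ih P' hcard v (ct l i j) _ hcc
          have h3 : (y i + y j) * K = (y i + y j) * GG y v (ct l i j) P' := by
            rw [hK]
            unfold GG
            refine mul_prod_congr _ _ _ _ fun k hk => ?_
            rw [mul_add, mul_add, ct_lam h2 hy l hiP' hjP' k, hPi]
          rw [h3, h1, mul_sum]
          rw [← hPi, sum_powerset_insert hiP', ← sum_add_distrib]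
          refine sum_congr rfl fun B hB => ?_
          rw [mem_powerset] at hB
          have hiB : i ∉ B := fun h => hiP' (hB h)
          rw [if_neg hiB, if_pos (mem_insert_self i B)]
          have hjj : j ∈ insert i B ↔ j ∈ B := by
            rw [mem_insert]
            exact or_iff_right hji
          by_cases hjB : j ∈ B
          · rw [if_pos hjB, if_pos (hjj.2 hjB)]
            have hc1 : (if c = i then j else c) ∈ B ↔ c ∈ insert i B := by
              rw [mem_insert]
              split_ifs with h
              · exact iff_of_true hjB (Or.inl h)
              · exact (or_iff_right h).symm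
            rw [if_congr hc1 rfl rfl]
            have e0 : (if c ∈ B then (0 : R) else 0) = 0 := by split_ifs <;> rfl
            rw [e0, zero_add]
            split_ifs with hcB
            · have e1 : (insert i B).erase i = B := erase_insert hiB
              have e2 : insert i P' \ insert i B = P' \ B := by
                ext k
                simp only [mem_sdiff, mem_insert]
                constructor
                · rintro ⟨h4 | h4, h5⟩
                  · exact absurd (Or.inl h4) h5
                  · exact ⟨h4, fun h6 => h5 (Or.inr h6)⟩
                · rintro ⟨h4, h5⟩
                  refine ⟨Or.inr h4, ?_⟩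
                  rintro (h6 | h6)
                  · exact hiP' (h6 ▸ h4)
                  · exact h5 h6
              rw [e1, e2, ← mul_assoc]
              have e3 : GG y v (ct l i j) (P' \ B) = GG y v l (P' \ B) :=
                GG_congr (fun _ _ => rfl) (ct_eq l fun h => (mem_sdiff.1 h).2 hjB)
              rw [e3]
              congr 1
              unfold XX
              rw [mul_sum, mul_sum]
              refine sum_congr rfl fun r hr => ?_
              have e4 := mul_prod_congr (y i + y j) (fun k => lam y (ct l i j) B k)
                (fun k => lam y l (insert i B) k) (B.erase r)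
                (fun k _ => ct_lam h2 hy l hiB hjB k)
              calc (y i + y j) * (v r * ∏ k ∈ B.erase r, lam y (ct l i j) B k)
                  = v r * ((y i + y j) * ∏ k ∈ B.erase r, lam y (ct l i j) B k) := by ring
                _ = (y i + y j) * (v r * ∏ k ∈ B.erase r, lam y l (insert i B) k) := by
                    rw [e4]; ring
            · rw [mul_zero]
          · rw [if_neg hjB, if_neg (fun h => hjB (hjj.1 h))]
            have hc1 : (if c = i then j else c) ∈ B ↔ c ∈ B := by
              split_ifs with h
              · subst h
                exact iff_of_false hjB hiB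
              · exact Iff.rfl
            rw [if_congr hc1 rfl rfl]
            have e0 : (if c ∈ insert i B then (0 : R) else 0) = 0 := by split_ifs <;> rfl
            rw [e0, add_zero]
            split_ifs with hcB
            · set Q := P' \ B with hQ
              have hiQ : i ∉ Q := fun h => hiP' (mem_sdiff.1 h).1
              have hjQ : j ∈ Q := mem_sdiff.2 ⟨hjP', hjB⟩
              have e1 : insert i P' \ B = insert i Q := by
                rw [hQ, insert_sdiff_of_notMem _ hiB]
              rw [e1, erase_insert hiQ]
              have e3 : XX y v (ct l i j) B = XX y v l B :=
                XX_congr (fun _ _ => rfl) (ct_eq l hjB)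
              rw [e3]
              have e4 : (y i + y j) * GG y v (ct l i j) Q =
                  (y i + y j) * ∏ k ∈ Q, (v k + lam y l (insert i Q) k) := by
                unfold GG
                refine mul_prod_congr _ _ _ _ fun k hk => ?_
                rw [mul_add, mul_add, ct_lam h2 hy l hiQ hjQ k]
              rw [← e4]
              ring
            · rw [mul_zero]
        -- assembly
        have hL : GG y v l P = v i * K + ∑ j ∈ P, l i j * ((y i + y j) * K) := by
          unfold GG
          rw [← mul_prod_erase P _ hiP, ← hK, add_mul]
          congr 1
          unfold lam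
          rw [sum_mul]
          exact sum_congr rfl fun j _ => by ring
        rw [hL, hroot]
        have hE : ∑ j ∈ P, l i j * ((y i + y j) * (∑ B ∈ P.powerset, if c ∈ B then
            (if i ∈ B then (∏ k ∈ B.erase i, lam y l B k) * GG y v l (P \ B)
              else XX y v l B * ∏ k ∈ (P \ B).erase i, (v k + lam y l (P \ B) k)) else 0)) =
            ∑ B ∈ P.powerset, ∑ j ∈ P, l i j * (if c ∈ B then
            (if i ∈ B then (if j ∈ B then ((y i + y j) * ∑ r ∈ B.erase i, v r *
                ∏ k ∈ (B.erase i).erase r, lam y l B k) * GG y v l (P \ B) else 0)
              else (if j ∈ B then 0 else XX y v l B *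
                ((y i + y j) * ∏ k ∈ (P \ B).erase i, (v k + lam y l (P \ B) k)))) else 0) := by
          rw [sum_comm]
          refine sum_congr rfl fun j hj => ?_
          rw [← hroot, hedge j hj, mul_sum]
        rw [hE, mul_sum, ← sum_add_distrib]
        refine sum_congr rfl fun B hB => ?_
        rw [mem_powerset] at hB
        by_cases hcB : c ∈ B
        · simp only [if_pos hcB]
          by_cases hiB : i ∈ B
          · simp only [if_pos hiB]
            have e1 : XX y v l B = v i * ∏ k ∈ B.erase i, lam y l B k +
                lam y l B i * ∑ r ∈ B.erase i, v r * ∏ k ∈ (B.erase i).erase r, lam y l B k := by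
              unfold XX
              rw [← add_sum_erase B _ hiB]
              congr 1
              rw [mul_sum]
              refine sum_congr rfl fun r hr => ?_
              have h5 : i ∈ B.erase r := mem_erase.2 ⟨(ne_of_mem_erase hr).symm, hiB⟩
              rw [← mul_prod_erase (B.erase r) _ h5, erase_right_comm]
              ring
            have e2 : ∑ j ∈ P, l i j * (if j ∈ B then ((y i + y j) * ∑ r ∈ B.erase i, v r *
                ∏ k ∈ (B.erase i).erase r, lam y l B k) * GG y v l (P \ B) else 0) =
                lam y l B i * (∑ r ∈ B.erase i, v r * ∏ k ∈ (B.erase i).erase r, lam y l B k) *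
                  GG y v l (P \ B) := by
              unfold lam
              rw [sum_mul, sum_mul, ← sum_subset hB]
              · refine sum_congr rfl fun j hj => ?_
                rw [if_pos hj]
                ring
              · intro j _ hj
                rw [if_neg hj, mul_zero]
            rw [e2, e1]
            ring
          · simp only [if_neg hiB]
            have hiQ : i ∈ P \ B := mem_sdiff.2 ⟨hiP, hiB⟩
            have e1 : GG y v l (P \ B) = (v i + lam y l (P \ B) i) *
                ∏ k ∈ (P \ B).erase i, (v k + lam y l (P \ B) k) := by
              unfold GG
              rw [← mul_prod_erase (P \ B) _ hiQ]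
            have e2 : ∑ j ∈ P, l i j * (if j ∈ B then 0 else XX y v l B *
                ((y i + y j) * ∏ k ∈ (P \ B).erase i, (v k + lam y l (P \ B) k))) =
                lam y l (P \ B) i * (XX y v l B *
                  ∏ k ∈ (P \ B).erase i, (v k + lam y l (P \ B) k)) := by
              unfold lam
              rw [sum_mul, ← sum_subset (sdiff_subset : P \ B ⊆ P)]
              · refine sum_congr rfl fun j hj => ?_
                rw [if_neg (mem_sdiff.1 hj).2]
                ring
              · intro j hj hj2
                have : j ∈ B := by
                  by_contra h
                  exact hj2 (mem_sdiff.2 ⟨hj, h⟩)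
                rw [if_pos this, mul_zero]
            rw [e2, e1]
            ring
        · simp only [if_neg hcB]
          simp
    intro v l c hc
    exact key P (Subset.refl P) v l (fun i hi hn => absurd hi hn) c hc

end alg

end Pool.Agent.N855.P17
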