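import Pool.Agent.N855.P17.Star
import Pool.Agent.N855.P17.Ring
import Pool.Agent.N855.P17.Det

/-!
# The symmetric system and its expansion over the subsets (project P17, helper855)
-/

set_option autoImplicit false
set_option linter.unusedSectionVars false

open Finset

namespace Pool.Agent.N855.P17

section sys

variable {ι : Type} [Fintype ι] [DecidableEq ι]

/-- the bordered symmetric matrix -/
def SM (L : ι → ι → ZMod 2) (ν a : ι → ZMod 2) : Matrix (ι ⊕ ι) (ι ⊕ ι) (ZMod 2)
  | Sum.inl p, Sum.inl q => if p = q then ν p else 0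
  | Sum.inl p, Sum.inr q => L p q
  | Sum.inr q, Sum.inl p => L p q
  | Sum.inr q, Sum.inr r => if q = r then a q else 0

theorem SM_symm (L : ι → ι → ZMod 2) (ν a : ι → ZMod 2) : ∀ r c, SM L ν a r c = SM L ν a c r := by
  rintro (r | r) (c | c)
  · simp only [SM]
    by_cases h : r = c
    · subst h; rfl
    · rw [if_neg h, if_neg (Ne.symm h)]
  · rfl
  · rfl
  · simp only [SM]
    by_cases h : r = c
    · subst h; rfl
    · rw [if_neg h, if_neg (Ne.symm h)]

/-- the determinant of a part -/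
noncomputable def hd (L : ι → ι → ZMod 2) (ν a : ι → ZMod 2) (T1 T2 : Finset ι) : ZMod 2 :=
  (res (SM L ν a) (T1.disjSum T2)).det

theorem erase_inl (T1 T2 : Finset ι) (i : ι) :
    (T1.disjSum T2).erase (Sum.inl i) = (T1.erase i).disjSum T2 := by
  ext x
  rcases x with x | x
  · simp
  · simp

theorem erase_inr (T1 T2 : Finset ι) (i : ι) :
    (T1.disjSum T2).erase (Sum.inr i) = T1.disjSum (T2.erase i) := by
  ext x
  rcases x with x | x
  · simp
  · simp

theorem hd_rec (L : ι → ι → ZMod 2) (ν a : ι → ZMod 2) {T1 T2 : Finset ι} {i : ι} (hi : i ∈ T1) :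
    hd L ν a T1 T2 = ν i * hd L ν a (T1.erase i) T2 +
      ∑ j ∈ T2, L i j * hd L ν a (T1.erase i) (T2.erase j) := by
  unfold hd
  rw [hf_res (SM_symm L ν a) (inl_mem_disjSum.2 hi), erase_inl, sum_disjSum]
  have h1 : ∑ x ∈ T1.erase i, SM L ν a (Sum.inl i) (Sum.inl x) *
      (res (SM L ν a) (((T1.erase i).disjSum T2).erase (Sum.inl x))).det = 0 := by
    refine sum_eq_zero fun x hx => ?_
    simp only [SM]
    rw [if_neg (ne_of_mem_erase hx).symm, zero_mul]
  rw [h1, zero_add]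
  congr 1
  · simp only [SM, if_true]
  · refine sum_congr rfl fun j hj => ?_
    rw [erase_inr]
    rfl

theorem hd_empty (L : ι → ι → ZMod 2) (ν a : ι → ZMod 2) (T2 : Finset ι) :
    hd L ν a ∅ T2 = ∏ j ∈ T2, a j := by
  induction T2 using Finset.induction_on with
  | empty =>
    unfold hd
    have : res (SM L ν a) ((∅ : Finset ι).disjSum ∅) = 1 := by
      ext r c
      simp [res, Matrix.one_apply]
    rw [this, Matrix.det_one, prod_empty]
  | insert j T hj ih =>
    rw [prod_insert hj, ← ih]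
    unfold hd
    rw [hf_res (SM_symm L ν a) (inr_mem_disjSum.2 (mem_insert_self j T)), erase_inr,
      erase_insert hj, sum_disjSum, sum_empty, zero_add]
    have h1 : ∑ x ∈ T, SM L ν a (Sum.inr j) (Sum.inr x) *
        (res (SM L ν a) (((∅ : Finset ι).disjSum T).erase (Sum.inr x))).det = 0 := by
      refine sum_eq_zero fun x hx => ?_
      have hne : j ≠ x := by
        rintro rfl
        exact hj hx
      simp only [SM]
      rw [if_neg hne, zero_mul]
    rw [h1, add_zero]
    simp only [SM, if_true]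

theorem hd_ne (L : ι → ι → ZMod 2) (ν a : ι → ZMod 2) {T1 T2 : Finset ι} : hd L ν a T1 T2 ≠ 0 ↔
    ∀ x y : ι → ZMod 2, (∀ p ∈ T1, ν p * x p + ∑ q ∈ T2, L p q * y q = 0) →
      (∀ q ∈ T2, ∑ p ∈ T1, L p q * x p + a q * y q = 0) →
      (∀ p ∈ T1, x p = 0) ∧ ∀ q ∈ T2, y q = 0 := by
  unfold hd
  rw [det_res_ne]
  have hl : ∀ v : ι ⊕ ι → ZMod 2, ∀ p ∈ T1, ∑ c ∈ T1.disjSum T2, SM L ν a (Sum.inl p) c * v c =
      ν p * v (Sum.inl p) + ∑ q ∈ T2, L p q * v (Sum.inr q) := by
    intro v p hp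
    rw [sum_disjSum]
    congr 1
    rw [sum_eq_single p]
    · simp only [SM, if_true]
    · intro q _ hq
      simp only [SM]
      rw [if_neg hq.symm, zero_mul]
    · intro h
      exact absurd hp h
  have hr : ∀ v : ι ⊕ ι → ZMod 2, ∀ q ∈ T2, ∑ c ∈ T1.disjSum T2, SM L ν a (Sum.inr q) c * v c =
      ∑ p ∈ T1, L p q * v (Sum.inl p) + a q * v (Sum.inr q) := by
    intro v q hq
    rw [sum_disjSum]
    congr 1
    rw [sum_eq_single q]
    · simp only [SM, if_true]
    · intro r _ hr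
      simp only [SM]
      rw [if_neg hr.symm, zero_mul]
    · intro h
      exact absurd hq h
  constructor
  · intro h x y h1 h2
    have h3 := h (Sum.elim x y) (by
      rintro (p | q) hc
      · rw [hl _ p (inl_mem_disjSum.1 hc)]
        exact h1 p (inl_mem_disjSum.1 hc)
      · rw [hr _ q (inr_mem_disjSum.1 hc)]
        exact h2 q (inr_mem_disjSum.1 hc))
    exact ⟨fun p hp => h3 (Sum.inl p) (inl_mem_disjSum.2 hp),
      fun q hq => h3 (Sum.inr q) (inr_mem_disjSum.2 hq)⟩
  · intro h v hv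
    obtain ⟨h3, h4⟩ := h (fun p => v (Sum.inl p)) (fun q => v (Sum.inr q))
      (fun p hp => by rw [← hl v p hp]; exact hv _ (inl_mem_disjSum.2 hp))
      (fun q hq => by rw [← hr v q hq]; exact hv _ (inr_mem_disjSum.2 hq))
    rintro (p | q) hc
    · exact h3 p (inl_mem_disjSum.1 hc)
    · exact h4 q (inr_mem_disjSum.1 hc)

/-- the matrix of the set `T`, with row sums zero -/
def Lm (l : ι → ι → ZMod 2) (T : Finset ι) (p q : ι) : ZMod 2 :=
  if p = q then ∑ r ∈ T.erase p, l p r else l p q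

omit [Fintype ι] in
theorem Lm_row (l : ι → ι → ZMod 2) {T : Finset ι} {p : ι} (hp : p ∈ T) :
    ∑ q ∈ T, Lm l T p q = 0 := by
  rw [← add_sum_erase T _ hp]
  have h1 : ∑ q ∈ T.erase p, Lm l T p q = ∑ q ∈ T.erase p, l p q :=
    sum_congr rfl fun q hq => if_neg (ne_of_mem_erase hq).symm
  rw [h1]
  simp only [Lm, if_true]
  exact two0 _

omit [Fintype ι] in
theorem Lm_col (l : ι → ι → ZMod 2) (a : ι → ZMod 2) {T : Finset ι}
    (hrec : ∀ p ∈ T, ∀ q ∈ T, p ≠ q → l p q + l q p = a p * a q) (ha : ∑ p ∈ T, a p = 1) {q : ι}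
    (hq : q ∈ T) : ∑ p ∈ T, Lm l T p q = 0 := by
  have h0 := Lm_row l hq
  rw [← add_sum_erase T _ hq] at h0 ⊢
  have h1 : ∑ p ∈ T.erase q, Lm l T p q = ∑ p ∈ T.erase q, (Lm l T q p + a q * a p) := by
    refine sum_congr rfl fun p hp => ?_
    have hne := ne_of_mem_erase hp
    simp only [Lm, if_neg hne, if_neg hne.symm]
    have h2 := hrec p (mem_of_mem_erase hp) q hq hne
    have h3 := two0 (l q p)
    calc l p q = (l p q + l q p) + l q p - (l q p + l q p) + l q p - l q p := by ring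
      _ = l q p + a q * a p := by rw [h2, h3]; ring
  rw [h1, sum_add_distrib, ← add_assoc, h0, zero_add, ← mul_sum]
  rw [← add_sum_erase T _ hq] at ha
  have h4 : ∑ p ∈ T.erase q, a p = 1 + a q := by
    have := two0 (a q)
    calc ∑ p ∈ T.erase q, a p = (a q + ∑ p ∈ T.erase q, a p) + a q - (a q + a q) := by ring
      _ = 1 + a q := by rw [ha, this]; ring
  rw [h4]
  have : ∀ z : ZMod 2, z * (1 + z) = 0 := by decide
  exact this _

/-- the kernel consists of the constants -/
def Ts (l : ι → ι → ZMod 2) (T : Finset ι) : Prop := ∀ y : ι → ZMod 2,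
  (∀ p ∈ T, ∑ q ∈ T, Lm l T p q * y q = 0) → ∀ p ∈ T, ∀ q ∈ T, y p = y q

/-- the symmetric system has only the trivial solution -/
def Fs (l : ι → ι → ZMod 2) (ν a : ι → ZMod 2) (T : Finset ι) : Prop := ∀ x y : ι → ZMod 2,
  (∀ p ∈ T, ν p * x p + ∑ q ∈ T, Lm l T p q * y q = 0) →
  (∀ q ∈ T, ∑ p ∈ T, Lm l T p q * x p + a q * y q = 0) →
  ∀ p ∈ T, x p = 0 ∧ y p = 0

theorem Fs_iff (l : ι → ι → ZMod 2) (ν a : ι → ZMod 2) (T : Finset ι) :
    Fs l ν a T ↔ hd (Lm l T) ν a T T ≠ 0 := by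
  rw [hd_ne]
  unfold Fs
  constructor
  · intro h x y h1 h2
    exact ⟨fun p hp => (h x y h1 h2 p hp).1, fun p hp => (h x y h1 h2 p hp).2⟩
  · intro h x y h1 h2 p hp
    exact ⟨(h x y h1 h2).1 p hp, (h x y h1 h2).2 p hp⟩

/-- the square part -/
theorem inj_iff (M : ι → ι → ZMod 2) (I : Finset ι) :
    (∀ v : ι → ZMod 2, (∀ p ∈ I, ∑ q ∈ I, M p q * v q = 0) → ∀ p ∈ I, v p = 0) ↔
    (∀ v : ι → ZMod 2, (∀ q ∈ I, ∑ p ∈ I, M p q * v p = 0) → ∀ q ∈ I, v q = 0) := by
  have h1 := det_res_ne (S := (M : Matrix ι ι (ZMod 2))) (I := I)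
  have h2 := det_res_ne (S := (Matrix.transpose (M : Matrix ι ι (ZMod 2)))) (I := I)
  have e : (res (Matrix.transpose (M : Matrix ι ι (ZMod 2))) I).det = (res M I).det :=
    (congrArg Matrix.det (res_transpose M I)).trans (Matrix.det_transpose _)
  have h3 : (res (Matrix.transpose (M : Matrix ι ι (ZMod 2))) I).det ≠ 0 ↔
      (res M I).det ≠ 0 := by rw [e]
  exact h1.symm.trans (h3.symm.trans h2)

theorem T_iff' (l : ι → ι → ZMod 2) (a : ι → ZMod 2) {B : Finset ι} {r : ι} (hr : r ∈ B)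
    (hcol : ∑ p ∈ B, a p = 1 → ∃ k : ι → ZMod 2, k r = 1 ∧
      ∀ q ∈ B, ∑ p ∈ B, k p * Lm l B p q = 0) :
    hd (Lm l B) (fun _ => 0) a (B.erase r) B ≠ 0 ↔ (∑ p ∈ B, a p = 1 ∧ Ts l B) := by
  rw [hd_ne]
  set I := B.erase r with hI
  have hIB : I ⊆ B := erase_subset r B
  have hsumB : ∀ f : ι → ZMod 2, ∑ p ∈ B, f p = f r + ∑ p ∈ I, f p := fun f =>
    (add_sum_erase B f hr).symm
  -- the extension by zero
  have hext : ∀ v : ι → ZMod 2, ∀ f : ι → ι → ZMod 2, ∀ p, ∑ q ∈ B, f p q *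
      (if q ∈ I then v q else 0) = ∑ q ∈ I, f p q * v q := by
    intro v f p
    rw [← sum_subset hIB]
    · exact sum_congr rfl fun q hq => by rw [if_pos hq]
    · intro q _ hq
      rw [if_neg hq, mul_zero]
  have hrow : ∀ p ∈ B, ∑ q ∈ B, Lm l B p q = 0 := fun p hp => Lm_row l hp
  constructor
  · intro h
    -- the transposed square part is injective
    have hT : ∀ v : ι → ZMod 2, (∀ q ∈ I, ∑ p ∈ I, Lm l B p q * v p = 0) → ∀ q ∈ I, v q = 0 := by
      intro v hv
      have hvr : ∑ p ∈ I, Lm l B p r * v p = 0 := by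
        have h1 : ∑ q ∈ B, ∑ p ∈ I, Lm l B p q * v p = 0 := by
          rw [sum_comm]
          refine sum_eq_zero fun p hp => ?_
          rw [← sum_mul, hrow p (hIB hp), zero_mul]
        rw [hsumB, sum_eq_zero hv, add_zero] at h1
        exact h1
      have h2 := h v (fun _ => 0) (fun p _ => by simp) (fun q hq => by
        rw [mul_zero, add_zero]
        by_cases hqr : q = r
        · rw [hqr]; exact hvr
        · exact hv q (mem_erase.2 ⟨hqr, hq⟩))
      exact h2.1
    have hQ := (inj_iff (Lm l B) I).2 hT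
    have hdet : (res (Matrix.transpose (Lm l B : Matrix ι ι (ZMod 2))) I).det ≠ 0 :=
      det_res_ne.2 hT
    refine ⟨?_, ?_⟩
    · by_contra ha
      have ha0 : ∑ p ∈ B, a p = 0 := by
        have : ∀ z : ZMod 2, z ≠ 1 → z = 0 := by decide
        exact this _ ha
      obtain ⟨x, hx⟩ := res_solve hdet a
      have hx' : ∀ q ∈ I, ∑ p ∈ I, Lm l B p q * x p = a q := hx
      have hxr : ∑ p ∈ I, Lm l B p r * x p = a r := by
        have h1 : ∑ q ∈ B, ∑ p ∈ I, Lm l B p q * x p = 0 := by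
          rw [sum_comm]
          refine sum_eq_zero fun p hp => ?_
          rw [← sum_mul, hrow p (hIB hp), zero_mul]
        rw [hsumB, sum_congr rfl hx'] at h1
        rw [hsumB] at ha0
        have : ∀ u w z : ZMod 2, u + w = 0 → z + w = 0 → u = z := by decide
        exact this _ _ _ h1 ha0
      have h2 := h x (fun _ => 1) (fun p hp => by
        rw [zero_mul, zero_add]
        simp only [mul_one]
        exact hrow p (hIB hp)) (fun q hq => by
        rw [mul_one]
        by_cases hqr : q = r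
        · rw [hqr, hxr]; exact two0 _
        · rw [hx' q (mem_erase.2 ⟨hqr, hq⟩)]; exact two0 _)
      have h3 := h2.2 r hr
      exact one_ne_zero h3
    · intro y hy
      have h1 : ∀ p ∈ I, y p + y r = 0 := by
        refine hQ (fun p => y p + y r) fun p hp => ?_
        have h2 := hy p (hIB hp)
        have h3 := hrow p (hIB hp)
        rw [hsumB] at h2 h3
        have h4 : ∑ q ∈ I, Lm l B p q * (y q + y r) =
            ∑ q ∈ I, Lm l B p q * y q + (∑ q ∈ I, Lm l B p q) * y r := by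
          rw [sum_mul, ← sum_add_distrib]
          exact sum_congr rfl fun q _ => by ring
        rw [h4]
        have : ∀ u w z t : ZMod 2, u * t + w = 0 → u + z = 0 → w + z * t = 0 := by decide
        exact this _ _ _ _ h2 h3
      have h5 : ∀ p ∈ B, y p = y r := by
        intro p hp
        by_cases hpr : p = r
        · rw [hpr]
        · have := h1 p (mem_erase.2 ⟨hpr, hp⟩)
          have h6 : ∀ u w : ZMod 2, u + w = 0 → u = w := by decide
          exact h6 _ _ this
      intro p hp q hq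
      rw [h5 p hp, h5 q hq]
  · rintro ⟨ha, hTs⟩
    obtain ⟨k, hkr, hcol⟩ := hcol ha
    have hker : ∀ y : ι → ZMod 2, (∀ p ∈ I, ∑ q ∈ B, Lm l B p q * y q = 0) →
        ∀ p ∈ B, ∀ q ∈ B, y p = y q := by
      intro y hy
      apply hTs
      have hyr : ∑ q ∈ B, Lm l B r q * y q = 0 := by
        have h1 : ∑ p ∈ B, k p * ∑ q ∈ B, Lm l B p q * y q = 0 := by
          have h2 : ∑ p ∈ B, k p * ∑ q ∈ B, Lm l B p q * y q =
              ∑ q ∈ B, (∑ p ∈ B, k p * Lm l B p q) * y q := by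
            simp only [mul_sum, sum_mul]
            rw [sum_comm]
            exact sum_congr rfl fun q _ => sum_congr rfl fun p _ => by ring
          rw [h2]
          refine sum_eq_zero fun q hq => ?_
          rw [hcol q hq, zero_mul]
        have h3 : ∑ p ∈ I, k p * ∑ q ∈ B, Lm l B p q * y q = 0 :=
          sum_eq_zero fun p hp => by rw [hy p hp, mul_zero]
        rw [hsumB, hkr, one_mul, h3, add_zero] at h1
        exact h1
      intro p hp
      by_cases hpr : p = r
      · rw [hpr]; exact hyr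
      · exact hy p (mem_erase.2 ⟨hpr, hp⟩)
    have hQ : ∀ v : ι → ZMod 2, (∀ p ∈ I, ∑ q ∈ I, Lm l B p q * v q = 0) → ∀ p ∈ I, v p = 0 := by
      intro v hv p hp
      have h1 := hker (fun q => if q ∈ I then v q else 0) (fun p' hp' => by
        rw [hext v (Lm l B) p']
        exact hv p' hp') p (hIB hp) r hr
      rw [if_pos hp, if_neg (notMem_erase r B)] at h1
      exact h1
    have hT := (inj_iff (Lm l B) I).1 hQ
    intro x y h1 h2
    have hy := hker y fun p hp => by
      have := h1 p hp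
      rwa [zero_mul, zero_add] at this
    have hyr : y r = 0 := by
      have h3 : ∑ q ∈ B, (∑ p ∈ I, Lm l B p q * x p + a q * y q) = 0 := sum_eq_zero h2
      rw [sum_add_distrib, sum_comm] at h3
      have h4 : ∑ p ∈ I, ∑ q ∈ B, Lm l B p q * x p = 0 := by
        refine sum_eq_zero fun p hp => ?_
        rw [← sum_mul, hrow p (hIB hp), zero_mul]
      rw [h4, zero_add] at h3
      have h5 : ∑ q ∈ B, a q * y q = (∑ q ∈ B, a q) * y r := by
        rw [sum_mul]
        exact sum_congr rfl fun q hq => by rw [hy q hq r hr]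
      rw [h5, ha, one_mul] at h3
      exact h3
    have hy0 : ∀ q ∈ B, y q = 0 := fun q hq => by rw [hy q hq r hr, hyr]
    refine ⟨?_, hy0⟩
    apply hT
    intro q hq
    have := h2 q (hIB hq)
    rwa [hy0 q (hIB hq), mul_zero, add_zero] at this

theorem T_iff (l : ι → ι → ZMod 2) (a : ι → ZMod 2) {B : Finset ι}
    (hrec : ∀ p ∈ B, ∀ q ∈ B, p ≠ q → l p q + l q p = a p * a q) {r : ι} (hr : r ∈ B) :
    hd (Lm l B) (fun _ => 0) a (B.erase r) B ≠ 0 ↔ (∑ p ∈ B, a p = 1 ∧ Ts l B) :=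
  T_iff' l a hr fun ha => ⟨fun _ => 1, rfl, fun q hq => by
    simp only [one_mul]
    exact Lm_col l a hrec ha hq⟩

end sys

/-- the condition on the left kernels: it follows from reciprocity -/
def HC {ι : Type} [DecidableEq ι] (l : ι → ι → ZMod 2) (ν a : ι → ZMod 2) (P : Finset ι) : Prop :=
  ∀ B ⊆ P, ∑ p ∈ B, a p = 1 → ∀ r ∈ B, ν r ≠ 0 → ∃ k : ι → ZMod 2, k r = 1 ∧
    ∀ q ∈ B, ∑ p ∈ B, k p * Lm l B p q = 0

theorem HC_rec {ι : Type} [DecidableEq ι] {l : ι → ι → ZMod 2} (ν : ι → ZMod 2) {a : ι → ZMod 2}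
    {P : Finset ι} (hrec : ∀ p ∈ P, ∀ q ∈ P, p ≠ q → l p q + l q p = a p * a q) : HC l ν a P := by
  intro B hB ha r _ _
  refine ⟨fun _ => 1, rfl, fun q hq => ?_⟩
  simp only [one_mul]
  exact Lm_col l a (fun p hp q hq => hrec p (hB hp) q (hB hq)) ha hq

theorem HC.mono {ι : Type} [DecidableEq ι] {l : ι → ι → ZMod 2} {ν a : ι → ZMod 2}
    {P Q : Finset ι} (h : HC l ν a P) (hQ : Q ⊆ P) : HC l ν a Q :=
  fun B hB => h B (hB.trans hQ)

end Pool.Agent.N855.P17
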