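import Pool.Agent.N855.P17.Exp

/-!
# Transfer to arbitrary index types (project P17, helper855)
-/

set_option autoImplicit false
set_option linter.unusedSectionVars false

open Finset

namespace Pool.Agent.N855.P17

section trans

variable {ι : Type} [DecidableEq ι]

theorem sum_sub {P B : Finset ι} (hB : B ⊆ P) (f : ι → ZMod 2) :
    ∑ x ∈ B.subtype (fun x => x ∈ P), f x.1 = ∑ x ∈ B, f x := by
  rw [sum_subtype_of_mem f fun x hx => hB hx]

theorem Lm_sub (l : ι → ι → ZMod 2) {P B : Finset ι} (hB : B ⊆ P) (p q : {x // x ∈ P}) :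
    Lm (fun i j : {x // x ∈ P} => l i.1 j.1) (B.subtype (fun x => x ∈ P)) p q = Lm l B p.1 q.1 := by
  unfold Lm
  by_cases h : p = q
  · subst h
    rw [if_pos rfl, if_pos rfl]
    have e : (B.subtype (fun x => x ∈ P)).erase p = (B.erase p.1).subtype (fun x => x ∈ P) := by
      ext x
      simp only [mem_erase, mem_subtype]
      constructor
      · rintro ⟨h1, h2⟩
        exact ⟨fun h => h1 (Subtype.ext h), h2⟩
      · rintro ⟨h1, h2⟩
        exact ⟨fun h => h1 (congrArg Subtype.val h), h2⟩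
    rw [e]
    exact sum_sub ((erase_subset p.1 B).trans hB) (fun x => l p.1 x)
  · rw [if_neg h, if_neg fun h' => h (Subtype.ext h')]

open Classical in
/-- extension of a function by zero -/
noncomputable def ex (P : Finset ι) (x : {x // x ∈ P} → ZMod 2) (i : ι) : ZMod 2 :=
  if h : i ∈ P then x ⟨i, h⟩ else 0

theorem ex_val (P : Finset ι) (x : {x // x ∈ P} → ZMod 2) (i : {x // x ∈ P}) : ex P x i.1 = x i := by
  unfold ex
  rw [dif_pos i.2]

theorem Fs_sub (l : ι → ι → ZMod 2) (ν a : ι → ZMod 2) {P B : Finset ι} (hB : B ⊆ P) :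
    Fs (fun i j : {x // x ∈ P} => l i.1 j.1) (fun i => ν i.1) (fun i => a i.1)
      (B.subtype (fun x => x ∈ P)) ↔ Fs l ν a B := by
  have hl : ∀ (y : ι → ZMod 2) (p : {x // x ∈ P}), ∑ q ∈ B.subtype (fun x => x ∈ P),
      Lm (fun i j : {x // x ∈ P} => l i.1 j.1) (B.subtype (fun x => x ∈ P)) p q * y q.1 =
      ∑ q ∈ B, Lm l B p.1 q * y q := by
    intro y p
    rw [← sum_sub hB fun q => Lm l B p.1 q * y q]
    exact sum_congr rfl fun q _ => by rw [Lm_sub l hB]
  have hr : ∀ (x : ι → ZMod 2) (q : {x // x ∈ P}), ∑ p ∈ B.subtype (fun x => x ∈ P),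
      Lm (fun i j : {x // x ∈ P} => l i.1 j.1) (B.subtype (fun x => x ∈ P)) p q * x p.1 =
      ∑ p ∈ B, Lm l B p q.1 * x p := by
    intro x q
    rw [← sum_sub hB fun p => Lm l B p q.1 * x p]
    exact sum_congr rfl fun p _ => by rw [Lm_sub l hB]
  constructor
  · intro h x y h1 h2 p hp
    have h3 := h (fun i => x i.1) (fun i => y i.1) (fun p hp => by
      rw [hl y p]
      exact h1 p.1 (mem_subtype.1 hp)) (fun q hq => by
      rw [hr x q]
      exact h2 q.1 (mem_subtype.1 hq)) ⟨p, hB hp⟩ (mem_subtype.2 hp)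
    exact h3
  · intro h x y h1 h2 p hp
    have h3 := h (ex P x) (ex P y) (fun p hp => by
      have h4 := h1 ⟨p, hB hp⟩ (mem_subtype.2 hp)
      rw [← hl (ex P y) ⟨p, hB hp⟩, ← ex_val P x] at *
      simp only [ex_val] at *
      exact h4) (fun q hq => by
      have h4 := h2 ⟨q, hB hq⟩ (mem_subtype.2 hq)
      rw [← hr (ex P x) ⟨q, hB hq⟩, ← ex_val P y] at *
      simp only [ex_val] at *
      exact h4) p.1 (mem_subtype.1 hp)
    rw [ex_val, ex_val] at h3
    exact h3

theorem Ts_sub (l : ι → ι → ZMod 2) {P B : Finset ι} (hB : B ⊆ P) :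
    Ts (fun i j : {x // x ∈ P} => l i.1 j.1) (B.subtype (fun x => x ∈ P)) ↔ Ts l B := by
  have hl : ∀ (y : ι → ZMod 2) (p : {x // x ∈ P}), ∑ q ∈ B.subtype (fun x => x ∈ P),
      Lm (fun i j : {x // x ∈ P} => l i.1 j.1) (B.subtype (fun x => x ∈ P)) p q * y q.1 =
      ∑ q ∈ B, Lm l B p.1 q * y q := by
    intro y p
    rw [← sum_sub hB fun q => Lm l B p.1 q * y q]
    exact sum_congr rfl fun q _ => by rw [Lm_sub l hB]
  constructor
  · intro h y h1 p hp q hq
    exact h (fun i => y i.1) (fun p hp => by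
      rw [hl y p]
      exact h1 p.1 (mem_subtype.1 hp)) ⟨p, hB hp⟩ (mem_subtype.2 hp) ⟨q, hB hq⟩ (mem_subtype.2 hq)
  · intro h y h1 p hp q hq
    have h3 := h (ex P y) (fun p hp => by
      have h4 := h1 ⟨p, hB hp⟩ (mem_subtype.2 hp)
      rw [← hl (ex P y) ⟨p, hB hp⟩]
      simp only [ex_val]
      exact h4) p.1 (mem_subtype.1 hp) q.1 (mem_subtype.1 hq)
    rw [ex_val, ex_val] at h3
    exact h3

theorem HC_sub {l : ι → ι → ZMod 2} {ν a : ι → ZMod 2} {P : Finset ι} (h : HC l ν a P) :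
    HC (fun i j : {x // x ∈ P} => l i.1 j.1) (fun i => ν i.1) (fun i => a i.1) univ := by
  intro B' _ ha r hr hν
  set B := B'.map (Function.Embedding.subtype _) with hB
  have hBP : B ⊆ P := by
    intro x hx
    rw [hB, mem_map] at hx
    obtain ⟨z, _, rfl⟩ := hx
    exact z.2
  have hB' : B' = B.subtype (fun x => x ∈ P) := by
    ext x
    simp only [hB, mem_subtype, mem_map, Function.Embedding.subtype_apply, Subtype.exists]
    constructor
    · intro h1
      exact ⟨x.1, x.2, h1, rfl⟩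
    · rintro ⟨z, h1, h2, h3⟩
      have : x = ⟨z, h1⟩ := Subtype.ext h3.symm
      rw [this]; exact h2
  rw [hB'] at ha hr ⊢
  rw [sum_sub hBP a] at ha
  obtain ⟨k, hk1, hk2⟩ := h B hBP ha r.1 (mem_subtype.1 hr) hν
  refine ⟨fun i => k i.1, hk1, fun q hq => ?_⟩
  have h2 := hk2 q.1 (mem_subtype.1 hq)
  rw [← sum_sub hBP (fun p => k p * Lm l B p q.1)] at h2
  rw [← h2]
  exact sum_congr rfl fun p _ => by rw [Lm_sub l hBP]

/-- **the expansion of the criterion** -/
theorem star_c' (l : ι → ι → ZMod 2) (ν a : ι → ZMod 2) (P : Finset ι)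
    (hcol : HC l ν a P) {c : ι} (hc : c ∈ P) :
    ind (Fs l ν a P) = ∑ B ∈ P.powerset, if c ∈ B then Wb l ν a B * ind (Fs l ν a (P \ B))
      else 0 := by
  have h := star_c (ι := {x // x ∈ P}) (fun i j => l i.1 j.1) (fun i => ν i.1) (fun i => a i.1)
    univ (HC_sub hcol) (c := ⟨c, hc⟩) (mem_univ _)
  have hu : (univ : Finset {x // x ∈ P}) = P.subtype (fun x => x ∈ P) := by
    ext x
    simp only [mem_univ, mem_subtype, true_iff]
    exact x.2
  have h1 := Fs_sub l ν a (Subset.refl P)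
  rw [← hu] at h1
  rw [← ind_congr h1, h]
  symm
  refine sum_bij' (fun B _ => B.subtype (fun x => x ∈ P))
    (fun B _ => B.map (Function.Embedding.subtype _)) ?_ ?_ ?_ ?_ ?_
  · intro B _
    exact mem_powerset.2 (subset_univ _)
  · intro B _
    rw [mem_powerset]
    intro x hx
    rw [mem_map] at hx
    obtain ⟨z, _, rfl⟩ := hx
    exact z.2
  · intro B hB
    rw [mem_powerset] at hB
    ext x
    simp only [mem_map, mem_subtype, Function.Embedding.subtype_apply, Subtype.exists,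
      exists_and_left, exists_prop]
    constructor
    · rintro ⟨z, h1, h2, h3⟩
      exact h3 ▸ h1
    · intro h1
      exact ⟨x, h1, hB h1, rfl⟩
  · intro B _
    ext x
    simp only [mem_subtype, mem_map, Function.Embedding.subtype_apply, Subtype.exists]
    constructor
    · rintro ⟨z, h1, h2, h3⟩
      have : x = ⟨z, h1⟩ := Subtype.ext h3.symm
      rw [this]; exact h2
    · intro h1
      exact ⟨x.1, x.2, h1, rfl⟩
  · intro B hB
    rw [mem_powerset] at hB
    have hmem : (⟨c, hc⟩ : {x // x ∈ P}) ∈ B.subtype (fun x => x ∈ P) ↔ c ∈ B := mem_subtype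
    rw [if_congr hmem rfl rfl]
    have e1 : Wb (fun i j : {x // x ∈ P} => l i.1 j.1) (fun i => ν i.1) (fun i => a i.1)
        (B.subtype (fun x => x ∈ P)) = Wb l ν a B := by
      unfold Wb
      apply ind_congr
      rw [sum_sub hB a, sum_sub hB ν, Ts_sub l hB]
    have e2 : univ \ B.subtype (fun x => x ∈ P) = (P \ B).subtype (fun x => x ∈ P) := by
      ext x
      simp only [mem_sdiff, mem_univ, mem_subtype, true_and]
      exact (and_iff_right x.2).symm
    rw [e1, e2, ind_congr (Fs_sub l ν a (sdiff_subset : P \ B ⊆ P))]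

/-- **the expansion of the criterion** under reciprocity -/
theorem star' (l : ι → ι → ZMod 2) (ν a : ι → ZMod 2) (P : Finset ι)
    (hrec : ∀ p ∈ P, ∀ q ∈ P, p ≠ q → l p q + l q p = a p * a q) {c : ι} (hc : c ∈ P) :
    ind (Fs l ν a P) = ∑ B ∈ P.powerset, if c ∈ B then Wb l ν a B * ind (Fs l ν a (P \ B))
      else 0 := star_c' l ν a P (HC_rec ν hrec) hc

end trans

end Pool.Agent.N855.P17
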